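import Pool.Agent.Lib.MP_90cf6f_nt.Uni.Sel

/-! An invertible matrix gives rank zero. -/

namespace Pool.Agent.Lib.MP_90cf6f_nt.Uni

open Finset NumberTheorySymbols Den

lemma desc_three {t : ℚ} (t0 : t ≠ 0) (tv : padicValRat 2 t = 3)
    (h1 : ∀ x y : ℚ, y ≠ 0 → y ^ 2 = x ^ 3 + t * x → Even (padicValRat 2 x) → IsSquare x)
    (h2 : ∀ x y : ℚ, y ≠ 0 → y ^ 2 = x ^ 3 + -4 * t * x → Even (padicValRat 2 x) → IsSquare x)
    (x y : ℚ) (h : y ^ 2 = x ^ 3 + t * x) : y = 0 := by
  have v4 : padicValRat 2 (4 : ℚ) = 2 := by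
    rw [show (4 : ℚ) = 2 ^ 2 by norm_num, padicValRat.pow, alg_val_two]; norm_num
  have key := alg_desc (t := -(t / 4)) (by simpa using t0)
    (by rw [padicValRat.neg, padicValRat.div t0 (by norm_num), tv, v4]; norm_num)
    (fun x y hy e he => by
      have x0 : x ≠ 0 := by
        rintro rfl
        exact hy (by simpa using e)
      obtain ⟨r, hr⟩ := h2 (4 * x) (8 * y) (by positivity) (by linear_combination 64 * e)
        (by rw [padicValRat.mul (by norm_num) x0, v4]; exact even_two.add he)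
      exact ⟨r / 2, by linear_combination hr / 4⟩)
    fun x y hy e he => h1 x y hy (by linear_combination e) he
  by_contra hy
  have x0 : x ≠ 0 := by
    rintro rfl
    exact hy (by simpa using h)
  have k := key (y ^ 2 / x ^ 2 / 4) (y * (t - x ^ 2) / x ^ 2 / 8) (by
    have ht : t = (y ^ 2 - x ^ 3) / x := by field_simp; linarith
    rw [ht]
    field_simp
    ring)
  have k2 : t = x ^ 2 := by
    have : y * (t - x ^ 2) = 0 := by simpa [x0] using k
    exact sub_eq_zero.1 ((mul_eq_zero.1 this).resolve_left hy)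
  rw [k2, padicValRat.pow] at tv
  omega

lemma ind_sum {C D : Finset ℕ} (h : D ⊆ C) (f : ℕ → ZMod 2) :
    ∑ k ∈ C, f k * (if k ∈ D then 1 else 0) = ∑ k ∈ D, f k := by
  simp only [mul_ite, mul_one, mul_zero, sum_ite_mem, inter_eq_right.2 h]

lemma mat_sum' (α : ℕ → ℕ → ZMod 2) (P C : Finset ℕ) (k : ℕ) (y : ℕ → ZMod 2) :
    ∑ i ∈ C, Mat α P i k * y i =
      ∑ i ∈ C, α i k * y i + if k ∈ C then (α k 2 + ∑ j ∈ P, α k j) * y k else 0 := by
  simp only [Mat, add_mul, sum_add_distrib, ite_mul, zero_mul, sum_ite_eq']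

theorem no_point {P T F E : Finset ℕ} (hP : ∀ p ∈ P, p.Prime ∧ Odd p)
    (hT : ∀ q ∈ T, q ≠ 2 → q.Prime ∧ q % 4 = 3 ∧ J(2 * (∏ p ∈ P, p : ℕ) | q) = 1)
    (hF : ∀ q ∈ F, q.Prime ∧ q % 4 = 3 ∧ J(2 * (∏ p ∈ P, p : ℕ) | q) = -1)
    (hE : ∀ q ∈ E, q.Prime ∧ q % 4 = 1 ∧ J(2 * (∏ p ∈ P, p : ℕ) | q) = -1)
    {c : ℕ} (hc : c ∣ ∏ p ∈ P, p) (hcard : F.card = T.card)
    (hinj : Inj (Mat al P) (P ∪ T) (P ∪ F)) (x y : ℚ)
    (h : y ^ 2 = x ^ 3 + ((2 * (∏ p ∈ P, p) *
      (2 ^ (if 2 ∈ T then 1 else 0) * c * ∏ q ∈ T.erase 2 ∪ F ∪ E, q) ^ 2 : ℕ) : ℚ) * x) :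
    y = 0 := by
  set G := T.erase 2 ∪ F ∪ E with hGd
  set b := ∏ p ∈ P, p with hb
  have nP : ∀ q : ℕ, q.Prime → PM J(2 * (b : ℕ) | q) → q ∉ P := fun q hq k hqP => by
    refine k.ne ?_
    obtain ⟨b', hb'⟩ := dvd_prod_of_mem (fun k : ℕ => k) hqP
    rw [hb, hb', Nat.cast_mul, jacobiSym.mul_left, jacobiSym.mul_left, jac_self hq.one_lt]
    ring
  have P2 : 2 ∉ P := fun k => absurd (hP 2 k).2 (by decide)
  have F2 : 2 ∉ F := fun k => absurd (hF 2 k).2.1 (by decide)
  have hG : ∀ q ∈ G, q.Prime ∧ Odd q ∧ q ∉ P := by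
    intro q hq
    simp only [hGd, mem_union, mem_erase] at hq
    rcases hq with (⟨k1, k2⟩ | k) | k
    · obtain ⟨a1, a2, a3⟩ := hT q k2 k1
      exact ⟨a1, Nat.odd_iff.2 (by omega), nP q a1 (Or.inl a3)⟩
    · obtain ⟨a1, a2, a3⟩ := hF q k
      exact ⟨a1, Nat.odd_iff.2 (by omega), nP q a1 (Or.inr a3)⟩
    · obtain ⟨a1, a2, a3⟩ := hE q k
      exact ⟨a1, Nat.odd_iff.2 (by omega), nP q a1 (Or.inr a3)⟩
  have gT : ∀ q ∈ T, q ≠ 2 → q ∈ G := fun q hq k => by simp [hGd, hq, k]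
  have gF : ∀ q ∈ F, q ∈ G := fun q hq => by simp [hGd, hq]
  have dPT : ∀ q ∈ T, q ∉ P := fun q hq k => by
    by_cases k2 : q = 2
    · exact P2 (k2 ▸ k)
    · exact (hG q (gT q hq k2)).2.2 k
  have dPF : ∀ q ∈ F, q ∉ P := fun q hq => (hG q (gF q hq)).2.2
  have dTF : ∀ q ∈ F, q ∉ T := fun q hq k => by
    have k1 := (hT q k fun e => F2 (e ▸ hq)).2.2
    rw [(hF q hq).2.2] at k1
    omega
  have hinj' := hinj.transpose (by
    rw [card_union_of_disjoint (disjoint_right.2 dPF), card_union_of_disjoint (disjoint_right.2 dPT),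
      hcard])
  have jneg : ∀ (m : ℤ) (q : ℕ), q % 4 = 3 → J(-m | q) = -J(m | q) := fun m q k => by
    rw [jacobiSym.neg _ (Nat.odd_iff.2 (by omega)), ZMod.χ₄_nat_three_mod_four k]; ring
  have jpos : ∀ (m : ℤ) (q : ℕ), q % 4 = 1 → J(-m | q) = J(m | q) := fun m q k => by
    rw [jacobiSym.neg _ (Nat.odd_iff.2 (by omega)), ZMod.χ₄_nat_one_mod_four k]; ring
  have bo : Odd b := (ga_prod fun k hk => (hP k hk).2).1
  have go : Odd (∏ q ∈ G, q) := (ga_prod fun k hk => (hG k hk).2.1).1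
  have co : Odd c := bo.of_dvd_nat hc
  have hto : Odd ((b * (c * ∏ q ∈ G, q) ^ 2 : ℕ) : ℤ) :=
    (Int.odd_coe_nat _).2 (bo.mul (co.mul go).pow)
  have eight : ∀ {d e u v w m : ℤ}, Odd d → Odd m → d * e = 8 * m → IsCoprime u v →
      w ^ 2 = d * u ^ 4 + e * v ^ 4 → d % 4 = 1 := by
    intro d e u v w m d0 m0 c2 c3 c5
    obtain ⟨e'', rfl⟩ : 2 ^ 3 ∣ e := IsCoprime.dvd_of_dvd_mul_left (y := d)
      (Int.isCoprime_two_left.2 d0).pow_left ⟨m, by linarith⟩
    have e2 : d * e'' = m := by linarith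
    exact alg_mod_four d0 (Int.odd_mul.1 (e2 ▸ m0)).2 c3 (w := w) (by linarith)
  set j := if 2 ∈ T then 1 else 0 with hj
  set t : ℕ := 2 * b * (2 ^ j * c * ∏ q ∈ G, q) ^ 2 with ht
  have t1 : (0 : ℚ) < t := by
    have := bo.pos
    have := go.pos
    have := co.pos
    exact_mod_cast (by positivity : 0 < 2 * b * (2 ^ j * c * ∏ q ∈ G, q) ^ 2)
  have H1 : ∀ x y : ℚ, y ≠ 0 → y ^ 2 = x ^ 3 + t * x → Even (padicValRat 2 x) → IsSquare x := by
    intro x y hy e he
    have x0 : 0 < x := by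
      have y0 : 0 < y ^ 2 := by positivity
      by_contra k
      nlinarith [sq_nonneg x, mul_nonneg (neg_nonneg.2 (not_lt.1 k)) (add_nonneg (sq_nonneg x) t1.le)]
    obtain ⟨d, e', u, v, w, c1, c2, c3, rfl, c5⟩ := alg_hom (t := t) hy (by rw [e]; push_cast; ring)
    have d0 : (0 : ℚ) < d := pos_of_mul_pos_left x0 (sq_nonneg _)
    have d1 := alg_odd_of_val c1 x0.ne' he
    suffices k : d = 1 from ⟨u / v, by rw [k]; push_cast; ring⟩
    obtain ⟨s, D, hs, hd, l1, l2, l3⟩ := loc hP hG hc (j := j) (σ := 1) (Or.inl rfl) c1 d1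
      (by rw [c2, ht, ← hb]; push_cast; ring) c3 c5
    rw [one_mul, ← hb] at l3
    obtain rfl : s = 1 := by
      refine hs.resolve_right ?_
      rintro rfl
      have : (0 : ℤ) < d := by exact_mod_cast d0
      omega
    have l4 : D ⊆ P ∪ F := by
      intro q hq
      have k := l1 hq
      simp only [hGd, mem_union, mem_erase] at k ⊢
      rcases k with k | (⟨k1, k2⟩ | k) | k
      · exact Or.inl k
      · exact absurd hq ((l3 q (gT q k2 k1)).1
          (by rw [jneg _ _ (hT q k2 k1).2.1, (hT q k2 k1).2.2]))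
      · exact Or.inr k
      · exact absurd hq ((l3 q (by simp [hGd, k])).1 (by rw [jpos _ _ (hE q k).2.1, (hE q k).2.2]))
    have Do : ∀ k ∈ D, Odd k := fun k hk =>
      (mem_union.1 (l1 hk)).elim (fun k' => (hP k k').2) fun k' => (hG k k').2.1
    have := hinj (fun k => if k ∈ D then 1 else 0) fun i hi => by
      rw [mat_sum, ind_sum l4]
      rcases mem_union.1 hi with hi | hi
      · have := l2 i hi
        rw [if_pos (mem_union_left _ hi)]
        simpa [sg_one] using this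
      · have hn : i ∉ P ∪ F := by
          rw [mem_union, not_or]
          exact ⟨dPT i hi, fun k => dTF i k hi⟩
        rw [if_neg hn, add_zero]
        by_cases i2 : i = 2
        · subst i2
          have k := eight d1 hto (by rw [c2, ht, hj, if_pos hi]; push_cast; ring) c3 c5
          rw [hd, mod_four_iff (Or.inl rfl) (ga_prod Do).1, (ga_prod Do).2, sg_one, zero_add] at k
          simpa only [al_two] using k
        · simpa [sg_one] using (l3 i (gT i hi i2)).2 (fun k => hn (l4 k)) (hT i hi i2).2.2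
    have hD : D = ∅ := eq_empty_of_forall_notMem fun k hk => by simpa [hk] using this k (l4 hk)
    simpa [hD] using hd
  have H2 : ∀ x y : ℚ, y ≠ 0 → y ^ 2 = x ^ 3 + -4 * t * x → Even (padicValRat 2 x) →
      IsSquare x := by
    intro x y hy e he
    have x0 : x ≠ 0 := by
      rintro rfl
      exact hy (by simpa using e)
    obtain ⟨d, e', u, v, w, c1, c2, c3, rfl, c5⟩ := alg_hom (t := -4 * t) hy
      (by rw [e]; push_cast; ring)
    have d1 := alg_odd_of_val c1 x0 he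
    suffices k : d = 1 from ⟨u / v, by rw [k]; push_cast; ring⟩
    obtain ⟨s, D, hs, hd, l1, l2, l3⟩ := loc hP hG hc (j := j + 1) (σ := -1) (Or.inr rfl) c1 d1
      (by rw [c2, ht, ← hb]; push_cast; ring) c3 c5
    rw [← hb, show (-1 : ℤ) * 2 * b = -(2 * b) by ring, neg_neg] at l3
    have l4 : D ⊆ P ∪ T.erase 2 := by
      intro q hq
      have k := l1 hq
      simp only [hGd, mem_union] at k ⊢
      rcases k with k | (k | k) | k
      · exact Or.inl k
      · exact Or.inr k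
      · exact absurd hq ((l3 q (gF q k)).1 (hF q k).2.2)
      · exact absurd hq ((l3 q (by simp [hGd, k])).1 (hE q k).2.2)
    have Dp : ∀ k ∈ D, k.Prime ∧ Odd k := fun k hk =>
      (mem_union.1 (l1 hk)).elim (hP k) fun k' => ⟨(hG k k').1, (hG k k').2.1⟩
    have Do : ∀ k ∈ D, Odd k := fun k hk => (Dp k hk).2
    have D2 : 2 ∉ D := fun k => absurd (Do 2 k) (by decide)
    have m4 : d % 4 = 1 ↔ sg s + ∑ k ∈ D, ga k = 0 := by
      rw [hd, mod_four_iff hs (ga_prod Do).1, (ga_prod Do).2]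
    have m5 : 2 ∉ T → sg s + ∑ k ∈ D, ga k = 0 := fun k =>
      m4.1 (eight d1 hto.neg (by rw [c2, ht, hj, if_neg k]; push_cast; ring) c3 c5)
    have rcp : ∀ k : ℕ, k.Prime → Odd k → ∑ i ∈ D, al i k =
        ∑ i ∈ D, al k i + ga k * ∑ i ∈ D, ga i + if k ∈ D then ga k else 0 := by
      intro k k1 k2
      rw [mul_sum, ← sum_ite_eq D k fun _ => ga k, ← sum_add_distrib, ← sum_add_distrib]
      refine sum_congr rfl fun i hi => ?_
      split_ifs with e
      · rw [← e, ga_sq, add_assoc, f2_add_self, add_zero]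
      · rw [al_recip (Do i hi) k2 ((Nat.coprime_primes (Dp i hi).1 k1).2 (Ne.symm e))]
        ring
    have sm : ∀ k : ℕ, ∑ i ∈ P ∪ T, al i k *
        (if i = 2 then sg s + ∑ k ∈ D, ga k else if i ∈ D then 1 else 0) =
        ∑ i ∈ D, al i k + ga k * (sg s + ∑ k ∈ D, ga k) := by
      intro k
      have e1 : ∑ i ∈ (P ∪ T).erase 2, al i k *
          (if i = 2 then sg s + ∑ k ∈ D, ga k else if i ∈ D then 1 else 0) = ∑ i ∈ D, al i k := by
        refine Eq.trans (sum_congr rfl fun i hi => by rw [if_neg (mem_erase.1 hi).1])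
          (ind_sum (C := (P ∪ T).erase 2) (D := D) (fun i hi => mem_erase.2
            ⟨fun e => D2 (e ▸ hi), union_subset_union Subset.rfl (erase_subset _ _) (l4 hi)⟩) _)
      by_cases k2 : 2 ∈ T
      · rw [← sum_erase_add _ _ (mem_union_right _ k2), e1, if_pos rfl, al_two]
      · rw [erase_eq_of_notMem (by simp [P2, k2])] at e1
        rw [e1, m5 k2, mul_zero, add_zero]
    have := hinj' (fun i => if i = 2 then sg s + ∑ k ∈ D, ga k else if i ∈ D then 1 else 0)
      fun k hk => by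
        simp only
        rw [mat_sum', sm]
        rcases mem_union.1 hk with hk | hk
        · have := l2 k hk
          rw [if_pos (mem_union_left _ hk), rcp k (hP k hk).1 (hP k hk).2,
            if_neg (show k ≠ 2 from fun e => P2 (e ▸ hk))]
          rw [sg_neg] at this
          split_ifs at this ⊢ <;>
            linear_combination this + (ga k * ∑ i ∈ D, ga i) * f2_two
        · have hn : k ∉ P ∪ T := by
            rw [mem_union, not_or]
            exact ⟨dPF k hk, dTF k hk⟩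
          have hn' : k ∉ D := fun e =>
            hn (union_subset_union Subset.rfl (erase_subset _ _) (l4 e))
          have := (l3 k (gF k hk)).2 hn' (by rw [jneg _ _ (hF k hk).2.1, (hF k hk).2.2]; rfl)
          rw [if_neg hn, rcp k (hG k (gF k hk)).1 (hG k (gF k hk)).2.1, if_neg hn']
          linear_combination this + (ga k * ∑ i ∈ D, ga i) * f2_two
    have hD : D = ∅ := eq_empty_of_forall_notMem fun k hk => by
      have k2 : k ≠ 2 := fun e => D2 (e ▸ hk)
      simpa [hk, k2] using this k (union_subset_union Subset.rfl (erase_subset _ _) (l4 hk))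
    have m6 : sg s + ∑ k ∈ D, ga k = 0 := by
      by_cases k2 : 2 ∈ T
      · simpa using this 2 (mem_union_right _ k2)
      · exact m5 k2
    rw [hD, sum_empty, add_zero] at m6
    rcases hs with rfl | rfl
    · simpa [hD] using hd
    · simp [sg_neg] at m6
  have tv : padicValRat 2 (t : ℚ) = 2 * j + 1 := by
    have h1 := alg_val_odd hto
    have h2 : (((b * (c * ∏ q ∈ G, q) ^ 2 : ℕ) : ℤ) : ℚ) ≠ 0 := by
      exact_mod_cast (bo.mul (co.mul go).pow).pos.ne'
    rw [show (t : ℚ) = 2 ^ (2 * j + 1) * (((b * (c * ∏ q ∈ G, q) ^ 2 : ℕ) : ℤ) : ℚ) by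
      rw [ht]; push_cast; ring, padicValRat.mul (by positivity) h2, h1, padicValRat.pow,
      alg_val_two]
    push_cast
    ring
  by_cases k2 : 2 ∈ T
  · exact desc_three t1.ne' (by rw [tv, hj, if_pos k2]; norm_num) H1 H2 x y h
  · exact alg_desc t1.ne' (by rw [tv, hj, if_neg k2]; norm_num) H1 H2 x y h

end Pool.Agent.Lib.MP_90cf6f_nt.Uni
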