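import Pool.Agent.Lib.MP_90cf6f_nt.Uni.Link
import Pool.Agent.Lib.MP_90cf6f_nt.Uni.Desc

/-! The type that an auxiliary number must have for a given `a`. -/

namespace Pool.Agent.Lib.MP_90cf6f_nt.Uni

open Finset NumberTheorySymbols Den

lemma decomp {a : ℕ} (ha : a ≠ 0) : ∃ m : ℕ, m ≠ 0 ∧ a = 2 ^ a.factorization 2 *
    (∏ p ∈ a.primeFactors with p ≠ 2 ∧ a.factorization p % 2 = 1, p) *
    (∏ p ∈ a.primeFactors with p ≠ 2 ∧ a.factorization p % 4 = 3, p) ^ 2 *
    (∏ p ∈ a.primeFactors with p ≠ 2 ∧ a.factorization p % 4 = 2, p) ^ 2 * m ^ 4 := by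
  refine ⟨∏ p ∈ a.primeFactors, if p ≠ 2 then p ^ (a.factorization p / 4) else 1,
    prod_ne_zero_iff.2 fun p hp => ?_, ?_⟩
  · have := (Nat.prime_of_mem_primeFactors hp).pos
    split_ifs <;> positivity
  · have h2 : 2 ^ a.factorization 2 =
        ∏ p ∈ a.primeFactors, if p = 2 then p ^ a.factorization p else 1 := by
      rw [prod_ite_eq']
      split_ifs with h
      · rfl
      · rw [← Nat.support_factorization, Finsupp.notMem_support_iff] at h
        rw [h, pow_zero]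
    rw [h2]
    simp only [prod_filter, ← prod_pow, ← prod_mul_distrib]
    conv_lhs => rw [← Nat.prod_factorization_pow_eq_self ha]
    rw [Finsupp.prod, Nat.support_factorization]
    refine prod_congr rfl fun p _ => ?_
    by_cases h : p = 2
    · simp [h]
    · generalize a.factorization p = v
      obtain ⟨k, r, hr, rfl⟩ : ∃ k r, r < 4 ∧ v = 4 * k + r :=
        ⟨v / 4, v % 4, Nat.mod_lt _ (by norm_num), (Nat.div_add_mod v 4).symm⟩
      have e1 : (4 * k + r) % 4 = r := by omega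
      have e2 : (4 * k + r) / 4 = k := by omega
      have e3 : (4 * k + r) % 2 = r % 2 := by omega
      rw [e1, e2, e3]
      interval_cases r <;> simp [h] <;> ring

lemma sg_ite (e : ZMod 2) : sg (if e = 1 then -1 else 1) = e := by
  rcases f2_cases e with rfl | rfl <;> simp [sg]

theorem assemble {a : ℕ} (ha : a ≠ 0) : ∃ (P T F S : Finset ℕ) (c : ℕ) (ε : ℕ → ℤ),
    S ⊆ a.primeFactors ∧ P ⊆ S ∧ T ⊆ insert 2 S ∧ F ⊆ S ∧ Disjoint T (P ∪ F) ∧
    (∀ p ∈ S, p.Prime ∧ Odd p) ∧ (∀ p ∈ S, PM (ε p)) ∧ c < 8 ∧ Odd c ∧ TypeOK P T F S c ε ∧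
    ∀ n : ℕ, Squarefree n → 1 < n → Odd n → (∀ p ∈ S, J(n | p) = ε p) →
      Inj (Mat al (P ∪ n.primeFactors)) (P ∪ n.primeFactors ∪ T) (P ∪ n.primeFactors ∪ F) →
      ∃ Q : ℕ, 2 ≤ Q ∧ Q ≤ 8 * n ∧
        ¬ 0 < Module.rank ℤ (curve ((a : ℚ) * (Q : ℚ))).toAffine.Point := by
  obtain ⟨m, m0, hm⟩ := decomp ha
  set P := a.primeFactors.filter fun p => p ≠ 2 ∧ a.factorization p % 2 = 1 with hP
  set G := a.primeFactors.filter fun p => p ≠ 2 ∧ a.factorization p % 4 = 2 with hG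
  set C := a.primeFactors.filter fun p => p ≠ 2 ∧ a.factorization p % 4 = 3 with hC
  set R := G.filter fun p => p % 4 = 3 with hR
  set E := G.filter fun p => ¬ p % 4 = 3 with hE
  have hS : ∀ p ∈ P ∪ G, p.Prime ∧ Odd p := fun p hp => by
    have : p ∈ a.primeFactors ∧ p ≠ 2 := (mem_union.1 hp).elim
      (fun k => ⟨(mem_filter.1 k).1, (mem_filter.1 k).2.1⟩)
      fun k => ⟨(mem_filter.1 k).1, (mem_filter.1 k).2.1⟩
    exact ⟨Nat.prime_of_mem_primeFactors this.1,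
      (Nat.prime_of_mem_primeFactors this.1).odd_of_ne_two this.2⟩
  have hG1 : ∀ p ∈ G, p.Prime ∧ Odd p := fun p hp => hS p (mem_union_right _ hp)
  have hP1 : ∀ p ∈ P, p.Prime ∧ Odd p := fun p hp => hS p (mem_union_left _ hp)
  have dPG : ∀ p ∈ G, p ∉ P := fun p hp k => by
    have := (mem_filter.1 hp).2.2
    have := (mem_filter.1 k).2.2
    omega
  have G2 : 2 ∉ G := fun k => (mem_filter.1 k).2.1 rfl
  have P2 : 2 ∉ P := fun k => (mem_filter.1 k).2.1 rfl
  have R2 : 2 ∉ R := fun k => G2 (mem_filter.1 k).1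
  have ga3 : ∀ p ∈ R, ga p = 1 := fun p hp => if_pos (mem_filter.1 hp).2
  obtain ⟨R', r1, r2, r3⟩ : ∃ R' : Finset ℕ, Even R'.card ∧ R'.erase 2 = R ∧ R' ⊆ insert 2 R := by
    by_cases k : Even R.card
    · exact ⟨R, k, erase_eq_of_notMem R2, subset_insert _ _⟩
    · exact ⟨insert 2 R, by rwa [card_insert_of_notMem R2, Nat.even_add_one], erase_insert R2,
        Subset.rfl⟩
  obtain ⟨T, F, t1, t2, t3, t4⟩ := tour (A := fun i k => if k = 2 then 0 else al i k) r1 (by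
    intro i hi k hk hik
    have n2 : ∀ p ∈ R, p ≠ 2 := fun p hp e => R2 (e ▸ hp)
    rcases mem_insert.1 (r3 hi) with rfl | hi <;> rcases mem_insert.1 (r3 hk) with rfl | hk
    · exact absurd rfl hik
    · simp [n2 k hk, al_two, ga3 k hk]
    · simp [n2 i hi, al_two, ga3 i hi]
    · obtain ⟨i1, i2⟩ := hG1 i (mem_filter.1 hi).1
      obtain ⟨k1, k2⟩ := hG1 k (mem_filter.1 hk).1
      simp only [n2 i hi, n2 k hk, if_false]
      rw [al_recip i2 k2 ((Nat.coprime_primes i1 k1).2 hik), ga3 i hi, ga3 k hk]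
      linear_combination al k i * f2_two)
  have F2 : 2 ∉ F := fun k => by
    simpa using t3 (fun j => if j = 2 then 1 else 0)
      (fun i _ => sum_eq_zero fun j _ => by by_cases h : j = 2 <;> simp [h]) 2 k
  have FR : ∀ q ∈ F, q ∈ R := fun q hq =>
    r2 ▸ mem_erase.2 ⟨fun e => F2 (e ▸ hq), t1 ▸ mem_union_right _ hq⟩
  have TR : ∀ q ∈ T, q ≠ 2 → q ∈ R := fun q hq k => r2 ▸ mem_erase.2 ⟨k, t1 ▸ mem_union_left _ hq⟩
  have RG : ∀ q ∈ R, q ∈ G := fun q hq => (mem_filter.1 hq).1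
  have dTP : ∀ q ∈ T, q ∉ P := fun q hq k => dPG q (RG q (TR q hq fun e => P2 (e ▸ k))) k
  have dFT : ∀ q ∈ F, q ∉ T := fun q hq => disjoint_right.1 t2 hq
  set b := ∏ p ∈ P, p with hb
  have jb : ∀ q ∈ G, PM J(2 * (b : ℕ) | q) := fun q hq => by
    rw [jacobiSym.mul_left]
    exact (pm_jac' (a := 2) (Nat.coprime_two_left.2 (hG1 q hq).2)).mul
      (jac_prod (cop_of_notMem (fun p hp => (hP1 p hp).1) (hG1 q hq).1 (dPG q hq))).1
  obtain ⟨δ, e, hδ⟩ := ga_ex al (P := P) (T := T) (F := F) (fun x hx => t3 x fun i hi =>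
      (sum_congr rfl fun k hk => by
        simp only [show k ≠ 2 from fun e => F2 (e ▸ hk), if_false]).trans (hx i hi))
    (disjoint_right.2 fun q hq => dPG q (RG q (FR q hq))) (disjoint_left.2 dTP)
    (fun k => Nat.not_prime_zero (hP1 0 k).1)
    (fun k => Nat.not_prime_zero (hG1 0 (RG 0 (TR 0 k (by norm_num)))).1)
    (fun k => Nat.not_prime_zero (hG1 0 (RG 0 (FR 0 k))).1)
    (fun i => if i = 2 then 0 else sg J(2 * (b : ℕ) | i)) fun k => sg (-J(2 * (b : ℕ) | k))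
  set ε : ℕ → ℤ := fun p => if p ∈ P then (if δ p = 1 then -1 else 1)
    else if p ∈ T then J(2 * (b : ℕ) | p) else -J(2 * (b : ℕ) | p) with hε
  have ε1 : ∀ p ∈ P, ε p = if δ p = 1 then -1 else 1 := fun p hp => if_pos hp
  have ε2 : ∀ p ∈ T, ε p = J(2 * (b : ℕ) | p) := fun p hp => by simp [hε, hp, dTP p hp]
  have ε3 : ∀ p ∈ G, p ∉ T → ε p = -J(2 * (b : ℕ) | p) := fun p hp k => by
    simp [hε, k, dPG p hp]
  have ε0 : ∀ p ∈ P ∪ G, PM (ε p) := fun p hp => by
    rcases mem_union.1 hp with k | k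
    · rw [ε1 p k]
      split_ifs
      exacts [Or.inr rfl, Or.inl rfl]
    · by_cases k' : p ∈ T
      · exact ε2 p k' ▸ jb p k
      · rw [ε3 p k k', ← neg_one_mul]
        exact PM.mul (Or.inr rfl) (jb p k)
  refine ⟨P, T, F, P ∪ G, if e = 1 then 5 else 1, ε,
    union_subset (filter_subset _ _) (filter_subset _ _), subset_union_left, fun q hq => ?_,
    fun q hq => mem_union_right _ (RG q (FR q hq)),
    disjoint_union_right.2 ⟨disjoint_left.2 dTP, t2⟩, hS, ε0, by split_ifs <;> norm_num,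
    by split_ifs <;> decide, fun n n1 n2 => ?_, fun n n1 n2 n3 n4 n5 => ?_⟩
  · by_cases k : q = 2
    · simp [k]
    · exact mem_insert_of_mem (mem_union_right _ (RG q (TR q hq k)))
  · have n3 : n % 4 = 1 := by split_ifs at n1 <;> omega
    have n4 : Odd n := Nat.odd_iff.2 (by omega)
    have n5 : ga n = 0 := if_neg (by omega)
    have u1 : ∀ p ∈ P ∪ G, al p n = sg (ε p) := fun p hp => by rw [al_odd (hS p hp).2, n2 p hp]
    have u2 : ∀ p ∈ P ∪ G, al n p = sg (ε p) := fun p hp => by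
      rw [al_recip n4 (hS p hp).2 (cop_of_pm (hS p hp).1.ne_zero (n2 p hp ▸ ε0 p hp)), n5, u1 p hp,
        zero_mul, add_zero]
    refine hδ _ _ (fun i hi => ?_) (fun i hi => ?_) (fun i hi => ?_) (fun i hi => ?_) ?_
    · rw [u1 i (mem_union_left _ hi), ε1 i hi, sg_ite]
    · rw [u2 i (mem_union_left _ hi), ε1 i hi, sg_ite]
    · split_ifs with k
      · rw [k, al_two, n5]
      · rw [u1 i (mem_union_right _ (RG i (TR i hi k))), ε2 i hi]
    · rw [u2 i (mem_union_right _ (RG i (FR i hi))), ε3 i (RG i (FR i hi)) (dFT i hi)]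
    · rw [al_odd n4, Nat.cast_ofNat, jacobiSym.at_two n4, ZMod.χ₈_nat_mod_eight, n1]
      rcases f2_cases e with rfl | rfl <;> decide
  · have dP : Disjoint P n.primeFactors := disjoint_left.2 fun p hp k => (ε0 p
      (mem_union_left _ hp)).ne (by
        rw [← n4 p (mem_union_left _ hp), jac_zero (hP1 p hp).1.one_lt (Nat.dvd_of_mem_primeFactors k)])
    have eb : ∏ p ∈ P ∪ n.primeFactors, p = b * n := by
      rw [prod_union dP, Nat.prod_primeFactors_of_squarefree n1]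
    have ej : ∀ q ∈ G, J(2 * (∏ p ∈ P ∪ n.primeFactors, p : ℕ) | q) = J(2 * (b : ℕ) | q) * ε q :=
      fun q hq => by
        rw [eb, Nat.cast_mul, ← mul_assoc, jacobiSym.mul_left, n4 q (mem_union_right _ hq)]
    have eG : T.erase 2 ∪ F ∪ E = G := by
      rw [← erase_eq_of_notMem F2, ← erase_union_distrib, t1, r2, filter_union_filter_not_eq]
    have key := no_point (P := P ∪ n.primeFactors) (T := T) (F := F) (E := E)
      (fun p hp => (mem_union.1 hp).elim (hP1 p) fun k => ⟨Nat.prime_of_mem_primeFactors k,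
        n3.of_dvd_nat (Nat.dvd_of_mem_primeFactors k)⟩)
      (fun q hq k => ⟨(hG1 q (RG q (TR q hq k))).1, (mem_filter.1 (TR q hq k)).2, by
        rw [ej q (RG q (TR q hq k)), ε2 q hq, (jb q (RG q (TR q hq k))).sq]⟩)
      (fun q hq => ⟨(hG1 q (RG q (FR q hq))).1, (mem_filter.1 (FR q hq)).2, by
        rw [ej q (RG q (FR q hq)), ε3 q (RG q (FR q hq)) (dFT q hq), mul_neg,
          (jb q (RG q (FR q hq))).sq]⟩)
      (fun q hq => by
        obtain ⟨k1, k2⟩ := mem_filter.1 hq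
        have := Nat.odd_iff.1 (hG1 q k1).2
        refine ⟨(hG1 q k1).1, by omega, ?_⟩
        rw [ej q k1, ε3 q k1 fun k => k2 (mem_filter.1 (TR q k (by omega))).2, mul_neg,
          (jb q k1).sq])
      (c := ∏ p ∈ C, p) (prod_dvd_prod_of_subset _ _ _ fun p hp => mem_union_left _ (by
        obtain ⟨k1, k2, k3⟩ := mem_filter.1 hp
        exact mem_filter.2 ⟨k1, k2, by omega⟩)) t4 n5
    rw [eb, eG] at key
    have hj : (if 2 ∈ T then 1 else 0) ≤ 1 := by split_ifs <;> norm_num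
    generalize (if 2 ∈ T then 1 else 0) = j at key hj
    generalize a.factorization 2 = v at hm
    obtain ⟨i, k, hi, hk⟩ : ∃ i k : ℕ, i ≤ 3 ∧ v + i = 2 * j + 1 + 4 * k :=
      ⟨(2 * j + 1 + 3 * v) % 4, (v + (2 * j + 1 + 3 * v) % 4 - (2 * j + 1)) / 4,
        by omega, by omega⟩
    refine ⟨2 ^ i * n, n2.trans_le (Nat.le_mul_of_pos_left _ (by positivity)),
      Nat.mul_le_mul_right _ (Nat.pow_le_pow_right (by norm_num : 0 < 2) hi), ?_⟩
    have := rank_zero (s := 2 ^ k * m) (by positivity) key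
    have e2 : (2 : ℚ) ^ v * 2 ^ i = 2 * (2 ^ j) ^ 2 * (2 ^ k) ^ 4 := by
      have := congrArg (fun x => (2 : ℚ) ^ x) hk
      simp only [pow_add, pow_mul'] at this
      linarith
    have e3 : (a : ℚ) * ((2 ^ i * n : ℕ) : ℚ) = ((2 * (b * n) *
        (2 ^ j * (∏ p ∈ C, p) * ∏ q ∈ G, q) ^ 2 : ℕ) : ℚ) * (2 ^ k * m) ^ 4 := by
      rw [hm]
      generalize ∏ p ∈ C, p = c
      generalize ∏ p ∈ G, p = g
      push_cast
      linear_combination (b * c ^ 2 * g ^ 2 * n * m ^ 4 : ℚ) * e2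
    rwa [e3]

end Pool.Agent.Lib.MP_90cf6f_nt.Uni
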