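import Pool.Agent.Lib.MP_90cf6f_nt.Uni.Gauss

/-! Few moduli have a large character sum. -/

namespace Pool.Agent.Lib.MP_90cf6f_nt.Uni

open Finset NumberTheorySymbols

lemma jac_finprod {ι : Type} (s : Finset ι) (f : ι → ℕ) (d : ℕ) :
    J((∏ i ∈ s, f i : ℕ) | d) = ∏ i ∈ s, J(f i | d) := by
  classical
  induction s using Finset.induction_on with
  | empty => simp
  | insert a s ha ih => rw [prod_insert ha, prod_insert ha, Nat.cast_mul, jacobiSym.mul_left, ih]

open scoped Classical in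
lemma moment {y : ℕ} {A : Finset ℕ} (hA : A ⊆ range y) (h0 : 0 ∉ A) (k X : ℕ) {Dm E : ℝ}
    (hD : ∀ m : ℕ, m ≤ y ^ k → (m.divisors.card : ℝ) ≤ Dm) (hE : 0 < E) :
    (((Icc 1 X).filter fun d => Odd d ∧ Squarefree d ∧
      E < |((∑ n ∈ A, J(n | d) : ℤ) : ℝ)|).card : ℝ) * E ^ (2 * k) ≤
      100 * ((X : ℝ) ^ 2 + y ^ k) * (Dm ^ k * y ^ k) := by
  set W := Fintype.piFinset fun _ : Fin k => A with hW
  set I := Ioc (0 : ℤ) (0 + (y ^ k : ℕ)) with hI
  set H : ℤ → ℕ := fun m => (W.filter fun f => ((∏ i, f i : ℕ) : ℤ) = m).card with hH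
  have hmap : ∀ f ∈ W, ((∏ i, f i : ℕ) : ℤ) ∈ I := by
    intro f hf
    rw [Fintype.mem_piFinset] at hf
    have h1 : 0 < ∏ i, f i := prod_pos fun i _ => Nat.pos_of_ne_zero fun e => h0 (e ▸ hf i)
    have h2 : ∏ i, f i ≤ y ^ k := by
      simpa using prod_le_pow_card univ f y fun i _ => (mem_range.1 (hA (hf i))).le
    rw [mem_Ioc]
    omega
  have e1 : ∀ d : ℕ, ((∑ n ∈ A, J(n | d) : ℤ) : ℂ) ^ k = ∑ m ∈ I, (H m : ℂ) * J(m | d) := by
    intro d
    rw [← Int.cast_pow, sum_pow', ← hW, ← sum_fiberwise_of_maps_to hmap]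
    rw [Int.cast_sum]
    refine sum_congr rfl fun m _ => ?_
    simp only [hH]
    rw [card_eq_sum_ones, Nat.cast_sum, sum_mul, Int.cast_sum]
    refine sum_congr rfl fun f hf => ?_
    rw [← (mem_filter.1 hf).2, jac_finprod]
    simp
  have hD0 : 0 ≤ Dm := (Nat.cast_nonneg _).trans (hD 0 (Nat.zero_le _))
  have e2 : N2 I (fun m => (H m : ℂ)) ≤ Dm ^ k * y ^ k := by
    have h1 : ∀ m ∈ I, (H m : ℝ) ≤ Dm ^ k := by
      intro m hm
      rw [mem_Ioc] at hm
      obtain ⟨m, rfl⟩ := Int.eq_ofNat_of_zero_le hm.1.le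
      have h2 : H m ≤ (Fintype.piFinset fun _ : Fin k => m.divisors).card := by
        refine card_le_card fun f hf => Fintype.mem_piFinset.2 fun i => Nat.mem_divisors.2 ⟨?_, ?_⟩
        · rw [← Int.natCast_inj.1 (mem_filter.1 hf).2]
          exact dvd_prod_of_mem _ (mem_univ i)
        · omega
      rw [Fintype.card_piFinset_const] at h2
      calc (H m : ℝ) ≤ (m.divisors.card : ℝ) ^ k := by exact_mod_cast h2
        _ ≤ _ := pow_le_pow_left₀ (Nat.cast_nonneg _) (hD m (by omega)) k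
    have h3 : ∑ m ∈ I, H m ≤ y ^ k := by
      rw [hH, ← card_eq_sum_card_fiberwise hmap, hW, Fintype.card_piFinset_const]
      exact Nat.pow_le_pow_left ((card_le_card hA).trans (card_range y).le) k
    calc _ ≤ ∑ m ∈ I, Dm ^ k * (H m : ℝ) := sum_le_sum fun m hm => by
          rw [Complex.norm_natCast, sq]
          exact mul_le_mul_of_nonneg_right (h1 m hm) (Nat.cast_nonneg _)
      _ ≤ _ := by
          rw [← mul_sum]
          exact mul_le_mul_of_nonneg_left (by exact_mod_cast h3) (by positivity)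
  have e3 := large_sieve 0 (y ^ k) X fun m => (H m : ℂ)
  rw [← hI, Nat.cast_pow] at e3
  refine le_trans ?_ (e3.trans (mul_le_mul_of_nonneg_left e2 (by positivity)))
  rw [← nsmul_eq_mul, ← sum_const]
  refine (sum_le_sum fun d hd => ?_).trans
    (sum_le_sum_of_subset_of_nonneg (filter_subset _ _) fun _ _ _ => Mq_nonneg _ _ _)
  obtain ⟨-, a1, a2, a3⟩ := mem_filter.1 hd
  refine le_trans ?_ (jac_le_Mq a1 a2 I _)
  rw [← e1, norm_pow, Complex.norm_intCast, ← pow_mul, mul_comm k 2]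
  exact pow_le_pow_left₀ hE.le a3.le _

/-- All character sums over the progressions are small. -/
def GoodD (y : ℕ) (E : ℝ) (d : ℕ) : Prop :=
  ∀ c < 8, Odd c → ∀ m, Odd m → |((∑ n ∈ Prog y c m, J(n | d) : ℤ) : ℝ)| ≤ E

lemma goodD_small {y d : ℕ} {E : ℝ} (hE : 0 ≤ E) (ho : Odd d) (hs : Squarefree d) (h1 : 1 < d)
    (h : d * (1 + Real.log d) ^ 2 ≤ E ^ 2) : GoodD y E d := fun _ hc _ _ hm =>
  abs_le_of_sq_le_sq ((polya_prog ho hs h1 hc hm y).trans h) hE

lemma abs_jac_sum_le (A : Finset ℕ) (d : ℕ) : |((∑ n ∈ A, J(n | d) : ℤ) : ℝ)| ≤ A.card := by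
  rw [Int.cast_sum]
  refine (abs_sum_le_sum_abs _ _).trans ?_
  rw [card_eq_sum_ones, Nat.cast_sum]
  refine sum_le_sum fun n _ => ?_
  rcases jacobiSym.trichotomy n d with h | h | h <;> simp [h]

open scoped Classical in
lemma bad_count {y M : ℕ} (k X : ℕ) {Dm E : ℝ}
    (hD : ∀ m : ℕ, m ≤ y ^ k → (m.divisors.card : ℝ) ≤ Dm) (hE : 2 ≤ E) (hM : y ≤ M * E) :
    (((Icc 1 X).filter fun d => Odd d ∧ Squarefree d ∧ ¬ GoodD y E d).card : ℝ) * E ^ (2 * k) ≤
      8 * M * (100 * ((X : ℝ) ^ 2 + y ^ k) * (Dm ^ k * y ^ k)) := by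
  have hD0 : 0 ≤ Dm := (Nat.cast_nonneg _).trans (hD 0 (Nat.zero_le _))
  set U := ((range 8).filter Odd) ×ˢ Icc 1 M with hU
  have h1 : ((Icc 1 X).filter fun d => Odd d ∧ Squarefree d ∧ ¬ GoodD y E d) ⊆
      U.biUnion fun x => (Icc 1 X).filter fun d => Odd d ∧ Squarefree d ∧
        E < |((∑ n ∈ Prog y x.1 x.2, J(n | d) : ℤ) : ℝ)| := by
    intro d hd
    obtain ⟨a0, a1, a2, a3⟩ := mem_filter.1 hd
    simp only [GoodD, not_forall, not_le] at a3
    obtain ⟨c, c1, c2, m, m1, m2⟩ := a3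
    refine mem_biUnion.2 ⟨(c, m), mem_product.2 ⟨mem_filter.2 ⟨mem_range.2 c1, c2⟩,
      mem_Icc.2 ⟨m1.pos, ?_⟩⟩, mem_filter.2 ⟨a0, a1, a2, m2⟩⟩
    by_contra hm
    have b1 : (M : ℝ) ≤ m := by exact_mod_cast (not_le.1 hm).le
    have b2 : (0 : ℝ) < m := by exact_mod_cast m1.pos
    have b3 := (abs_le.1 (prog_card c1 m1 y)).2
    have b4 := abs_jac_sum_le (Prog y c m) d
    have b5 : (y : ℝ) / (8 * m) ≤ E / 8 := by
      rw [div_le_div_iff₀ (by positivity) (by norm_num)]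
      nlinarith
    linarith
  have h2 : (U.card : ℝ) ≤ 8 * M := by
    have : U.card ≤ 8 * M := by
      rw [hU, card_product, Nat.card_Icc]
      exact Nat.mul_le_mul ((card_filter_le _ _).trans (card_range 8).le) (by omega)
    exact_mod_cast this
  calc _ ≤ (∑ x ∈ U, (((Icc 1 X).filter fun d => Odd d ∧ Squarefree d ∧
        E < |((∑ n ∈ Prog y x.1 x.2, J(n | d) : ℤ) : ℝ)|).card : ℝ)) * E ^ (2 * k) := by
        refine mul_le_mul_of_nonneg_right ?_ (by positivity)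
        exact_mod_cast (card_le_card h1).trans card_biUnion_le
    _ ≤ ∑ _x ∈ U, 100 * ((X : ℝ) ^ 2 + y ^ k) * (Dm ^ k * y ^ k) := by
        rw [sum_mul]
        refine sum_le_sum fun x hx => moment (filter_subset _ _) (fun h => ?_) k X hD (by linarith)
        have k1 := (mem_filter.1 h).2.1
        have k2 := Nat.odd_iff.1 (mem_filter.1 (mem_product.1 hx).1).2
        omega
    _ ≤ _ := by
        rw [sum_const, nsmul_eq_mul]
        exact mul_le_mul_of_nonneg_right h2 (by positivity)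

end Pool.Agent.Lib.MP_90cf6f_nt.Uni
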