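import Pool.Agent.Lib.MP_90cf6f_nt.Uni.Mom

/-! The Burgess bound for the Jacobi symbol on progressions. -/

namespace Pool.Agent.Lib.MP_90cf6f_nt.Uni

open Finset NumberTheorySymbols

lemma legendre (A : ℕ) (S : Finset ℕ) : (∀ p ∈ S, p.Prime) → ∀ m : ℕ, 0 < m →
    (∀ p ∈ S, m.Coprime p) →
    |(((Ioc 0 A).filter fun n => m ∣ n ∧ ∀ p ∈ S, ¬ p ∣ n).card : ℝ) -
      A / m * ∏ p ∈ S, (1 - (p : ℝ)⁻¹)| ≤ 2 ^ S.card := by
  induction S using Finset.induction_on with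
  | empty =>
    intro _ m hm _
    have h1 : ((A / m : ℕ) : ℝ) ≤ A / m := Nat.cast_div_le
    have h2 : (A : ℝ) / m < (A / m : ℕ) + 1 := by
      rw [← Nat.floor_div_eq_div (K := ℝ)]
      exact Nat.lt_floor_add_one _
    simp only [notMem_empty, false_imp_iff, implies_true, and_true, prod_empty, mul_one,
      card_empty, pow_zero, Nat.Ioc_filter_dvd_card_eq_div]
    rw [abs_le]
    constructor <;> linarith
  | insert p S hp ih =>
    intro hS m hm hc
    rw [forall_mem_insert] at hS hc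
    have i1 := ih hS.2 m hm hc.2
    have i2 := ih hS.2 (m * p) (mul_pos hm hS.1.pos) fun q hq => Nat.Coprime.mul_left (hc.2 q hq)
      ((Nat.coprime_primes hS.1 (hS.2 q hq)).2 fun e => hp (e ▸ hq))
    have e1 := card_filter_add_card_filter_not (s := (Ioc 0 A).filter
      fun n => m ∣ n ∧ ∀ p ∈ S, ¬ p ∣ n) fun n => p ∣ n
    rw [filter_filter, filter_filter,
      filter_congr (q := fun n => m * p ∣ n ∧ ∀ p ∈ S, ¬ p ∣ n) fun n _ =>
        ⟨fun k => ⟨hc.1.mul_dvd_of_dvd_of_dvd k.1.1 k.2, k.1.2⟩,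
          fun k => ⟨⟨dvd_of_mul_right_dvd k.1, k.2⟩, dvd_of_mul_left_dvd k.1⟩⟩,
      filter_congr (p := fun n => (m ∣ n ∧ ∀ p ∈ S, ¬ p ∣ n) ∧ ¬ p ∣ n)
        (q := fun n => m ∣ n ∧ ∀ q ∈ insert p S, ¬ q ∣ n) fun n _ => by
          rw [forall_mem_insert]; tauto] at e1
    have e2 := congrArg (Nat.cast (R := ℝ)) e1
    have p0 : (p : ℝ) ≠ 0 := by exact_mod_cast hS.1.ne_zero
    have m0 : (m : ℝ) ≠ 0 := by exact_mod_cast hm.ne'
    have e3 : (A : ℝ) / m * ∏ q ∈ insert p S, (1 - (q : ℝ)⁻¹) = A / m * ∏ q ∈ S, (1 - (q : ℝ)⁻¹) -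
        A / (m * p : ℕ) * ∏ q ∈ S, (1 - (q : ℝ)⁻¹) := by
      rw [prod_insert hp]
      push_cast
      field_simp
    rw [Nat.cast_add] at e2
    rw [e3, card_insert_of_notMem hp, pow_succ]
    rw [abs_le] at i1 i2 ⊢
    constructor <;> linarith [i1.1, i1.2, i2.1, i2.2]

lemma cop_count {d A : ℕ} (hd : d ≠ 0) (hA : 2 * 4 ^ d.primeFactors.card ≤ A) :
    (A : ℝ) ≤ 2 * 2 ^ d.primeFactors.card * ((Ioc 0 A).filter fun n => n.Coprime d).card := by
  have h1 := legendre A d.primeFactors (fun p => Nat.prime_of_mem_primeFactors) 1 one_pos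
    fun p _ => Nat.coprime_one_left p
  rw [filter_congr (q := fun n => n.Coprime d) fun n _ => by
    refine ⟨fun k => Nat.coprime_of_dvd fun p p1 p2 p3 =>
      k.2 p (Nat.mem_primeFactors.2 ⟨p1, p3, hd⟩) p2, fun k => ⟨one_dvd _, fun p hp k' => ?_⟩⟩
    exact (Nat.prime_of_mem_primeFactors hp).one_lt.ne'
      (Nat.eq_one_of_dvd_coprimes k k' (Nat.dvd_of_mem_primeFactors hp))] at h1
  have V1 : (1 : ℝ) ≤ 2 ^ d.primeFactors.card * ∏ p ∈ d.primeFactors, (1 - (p : ℝ)⁻¹) := by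
    rw [← prod_const, ← prod_mul_distrib]
    refine one_le_prod fun p hp => ?_
    have : (2 : ℝ) ≤ p := by exact_mod_cast (Nat.prime_of_mem_primeFactors hp).two_le
    have : (p : ℝ)⁻¹ ≤ 2⁻¹ := inv_anti₀ (by norm_num) this
    linarith
  have h2 : (2 : ℝ) * (2 ^ d.primeFactors.card * 2 ^ d.primeFactors.card) ≤ A := by
    rw [← mul_pow]
    exact_mod_cast hA
  have h3 := (abs_le.1 h1).1
  have h4 : (0 : ℝ) < 2 ^ d.primeFactors.card := by positivity
  have h5 : (0 : ℝ) ≤ A := Nat.cast_nonneg _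
  rw [Nat.cast_one, div_one] at h3
  nlinarith

lemma shift_le (f : ℕ → ℝ) (hf : ∀ k, |f k| ≤ 1) (L h : ℕ) :
    |∑ k ∈ range L, f k - ∑ k ∈ range L, f (h + k)| ≤ 2 * h := by
  have h1 := sum_range_add f h L
  have h2 := sum_range_add f L h
  have b : ∀ g : ℕ → ℕ, |∑ k ∈ range h, f (g k)| ≤ h := fun g =>
    (abs_sum_le_sum_abs _ _).trans ((sum_le_card_nsmul _ _ 1 fun k _ => hf _).trans (by simp))
  have b1 := abs_le.1 (b id)
  have b2 := abs_le.1 (b (L + ·))
  rw [add_comm h L, h2] at h1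
  simp only [id] at b1
  rw [abs_le]
  constructor <;> linarith [b1.1, b1.2, b2.1, b2.2]

lemma res_count {d y A q r L : ℕ} (hd : 0 < d) (hq : 0 < q) (hr : 0 < r)
    (hL : ∀ k < L, q * k + r ≤ y) {U : Finset ℕ} (hU : U ⊆ Ioc 0 A) {Dm : ℝ}
    (hD : ∀ v ≤ y * A, (v.divisors.card : ℝ) ≤ Dm) (z : ℕ) :
    (((U ×ˢ range L).filter fun i => (q * i.2 + r) * i.1 ≡ z [MOD d]).card : ℝ) ≤
      (y * A / d + 1) * Dm := by
  have D0 : 0 ≤ Dm := (Nat.cast_nonneg _).trans (hD 0 (Nat.zero_le _))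
  have d0 : (0 : ℝ) < d := by exact_mod_cast hd
  obtain ⟨L', a1, -, a3⟩ := prog_sum (Nat.mod_lt z hd) (fun _ => (1 : ℕ)) (y * A + 1)
  rw [← card_eq_sum_ones, ← card_eq_sum_ones, card_range] at a1
  rw [card_eq_sum_card_fiberwise (f := fun i => (q * i.2 + r) * i.1)
    (t := (range (y * A + 1)).filter fun v => v % d = z % d) fun i hi => by
      obtain ⟨k1, k2⟩ := mem_filter.1 (mem_coe.1 hi)
      obtain ⟨k3, k4⟩ := mem_product.1 k1
      exact mem_coe.2 (mem_filter.2 ⟨mem_range.2 (Nat.lt_succ_of_le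
        (Nat.mul_le_mul (hL _ (mem_range.1 k4)) (mem_Ioc.1 (hU k3)).2)), k2⟩), Nat.cast_sum]
  refine (sum_le_card_nsmul _ _ Dm fun v hv => le_trans ?_
    (hD v (Nat.le_of_lt_succ (mem_range.1 (mem_filter.1 hv).1)))).trans ?_
  · refine Nat.cast_le.2 (card_le_card_of_injOn Prod.fst (fun i hi => ?_) fun i hi j hj e => ?_)
    · obtain ⟨k1, rfl⟩ := mem_filter.1 (mem_coe.1 hi)
      have := (mem_Ioc.1 (hU (mem_product.1 (mem_filter.1 k1).1).1)).1
      exact mem_coe.2 (Nat.mem_divisors.2 ⟨dvd_mul_left _ _, by positivity⟩)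
    · obtain ⟨k1, k2⟩ := mem_filter.1 (mem_coe.1 hi)
      have k3 := (mem_filter.1 (mem_coe.1 hj)).2
      have k4 := (mem_Ioc.1 (hU (mem_product.1 (mem_filter.1 k1).1).1)).1
      rw [← k3, ← e] at k2
      exact Prod.ext e (Nat.eq_of_mul_eq_mul_left hq
        (Nat.add_right_cancel (Nat.eq_of_mul_eq_mul_right k4 k2)))
  · rw [a1, nsmul_eq_mul]
    refine mul_le_mul_of_nonneg_right ?_ D0
    have : (d : ℝ) * L' ≤ y * A + d := by exact_mod_cast (by omega : d * L' ≤ y * A + d)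
    rw [div_add_one d0.ne', le_div_iff₀' d0]
    exact this

theorem burgess {d r y A B : ℕ} {E Dm : ℝ} (ho : Odd d) (hs : Squarefree d) (r1 : 1 ≤ r)
    (rB : r ≤ B) (hE : 4 * A * B ≤ E) (hdB : d ≤ B ^ (2 * r))
    (hD : ∀ v ≤ y * A, (v.divisors.card : ℝ) ≤ Dm) (hA : 2 * 4 ^ d.primeFactors.card ≤ A)
    (hn : 2 ^ (2 * r) * y ^ (2 * r - 1) * ((y * A / d + 1) * Dm) * (2 * 2 ^ d.primeFactors.card) *
      ((r ^ (2 * r) + 2 * r * (40 * r) ^ d.primeFactors.card * (2 * d.divisors.card) ^ (2 * r)) *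
        √d) < E ^ (2 * r) * A) : GoodD y E d := by
  have hd := ho.pos
  have : NeZero d := ⟨hd.ne'⟩
  have A0 : 0 < A := lt_of_lt_of_le (by positivity) hA
  have B0 : 0 < B := lt_of_lt_of_le r1 rB
  have E0 : 0 < E := lt_of_lt_of_le (by positivity) hE
  have D0 : 0 ≤ Dm := (Nat.cast_nonneg _).trans (hD 0 (Nat.zero_le _))
  intro c hc hco m hm
  by_cases hmd : ¬ m.Coprime d
  · rw [sum_eq_zero fun n hn => jacobiSym.eq_zero_iff_not_coprime.2 fun k => hmd
      (Nat.Coprime.coprime_dvd_left (mem_filter.1 hn).2.2 (by simpa using k))]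
    simpa using E0.le
  rw [not_not] at hmd
  obtain ⟨ρ, a1, -, a3⟩ := prog_eq hc hm
  have ρ0 : 0 < ρ := by
    by_contra k
    have k1 : 0 ∈ Prog 1 c m := by rw [a3]; simp; omega
    have k2 := (mem_filter.1 k1).2.1
    have := Nat.odd_iff.1 hco
    omega
  obtain ⟨L, b1, -, b3⟩ := prog_sum a1 (fun n => (J(n | d) : ℝ)) y
  set q := 8 * m with hq
  have q0 : 0 < q := by omega
  have qd : q.Coprime d := Nat.Coprime.mul_left ((Nat.coprime_two_left.2 ho).pow_left 3) hmd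
  have hL : ∀ k < L, q * k + ρ ≤ y := fun k hk => by
    have := Nat.mul_le_mul_left q (Nat.succ_le_of_lt hk)
    rw [Nat.mul_succ] at this
    omega
  have Ly : L ≤ y := by
    rcases L with _ | L
    · exact Nat.zero_le _
    · have := hL L (Nat.lt_succ_self _)
      have := Nat.le_mul_of_pos_left L q0
      omega
  rw [a3, Int.cast_sum, b1]
  by_contra hcon
  set S := ∑ k ∈ range L, (J((q * k + ρ : ℕ) | d) : ℝ) with hS
  set U := (Ioc 0 A).filter fun n => n.Coprime d with hU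
  set I := U ×ˢ range L with hI
  set τ : ℕ × ℕ → ℕ := fun i =>
    (((q * i.2 + ρ : ℕ) : ZMod d) * ((q * i.1 : ℕ) : ZMod d)⁻¹).val with hτ
  set W : ℕ → ℝ := fun t => ∑ b ∈ Ioc 0 B, (J(t + b | d) : ℝ) with hW
  have τ1 : ∀ i ∈ I, ((q * i.1 : ℕ) : ZMod d) * τ i = (q * i.2 + ρ : ℕ) := fun i hi => by
    rw [hτ, ZMod.natCast_zmod_val, mul_left_comm, ZMod.coe_mul_inv_eq_one _
      (Nat.Coprime.mul_left qd (mem_filter.1 (mem_product.1 hi).1).2), mul_one]
  have s1 : ∀ a ∈ U, B * (E / 2) ≤ ∑ k ∈ range L, |W (τ (a, k))| := by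
    intro a ha
    have aA : (a : ℝ) ≤ A := by exact_mod_cast (mem_Ioc.1 (mem_filter.1 ha).1).2
    have e1 : ∀ k ∈ range L, ∑ b ∈ Ioc 0 B, (J((q * (a * b + k) + ρ : ℕ) | d) : ℝ) =
        (J((q * a : ℕ) | d) : ℝ) * W (τ (a, k)) := by
      intro k hk
      rw [hW, mul_sum]
      refine sum_congr rfl fun b _ => ?_
      rw [← Int.cast_mul, ← jacobiSym.mul_left]
      congr 1
      refine jacobiSym.mod_left' ((ZMod.intCast_eq_intCast_iff' _ _ _).1 ?_)
      have := τ1 (a, k) (mem_product.2 ⟨ha, hk⟩)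
      push_cast at this ⊢
      linear_combination -this
    have e2 : |B * S - ∑ k ∈ range L, (J((q * a : ℕ) | d) : ℝ) * W (τ (a, k))| ≤ B * (E / 2) := by
      rw [← sum_congr rfl e1, sum_comm, show (B : ℝ) * S = ∑ _b ∈ Ioc 0 B, S by simp,
        ← sum_sub_distrib]
      refine (abs_sum_le_sum_abs _ _).trans ((sum_le_card_nsmul _ _ (E / 2) fun b hb => ?_).trans
        (by simp))
      have bB : (b : ℝ) ≤ B := by exact_mod_cast (mem_Ioc.1 hb).2
      refine (shift_le (fun k => (J((q * k + ρ : ℕ) | d) : ℝ)) (fun k => Den.abs_J_le _ _) L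
        (a * b)).trans ?_
      have : (a : ℝ) * b ≤ A * B := by gcongr
      push_cast
      linarith
    have e3 : |∑ k ∈ range L, (J((q * a : ℕ) | d) : ℝ) * W (τ (a, k))| ≤
        ∑ k ∈ range L, |W (τ (a, k))| := by
      refine (abs_sum_le_sum_abs _ _).trans (sum_le_sum fun k _ => ?_)
      rw [abs_mul]
      exact mul_le_of_le_one_left (abs_nonneg _) (Den.abs_J_le _ _)
    have e4 := abs_sub_abs_le_abs_sub (B * S)
      (∑ k ∈ range L, (J((q * a : ℕ) | d) : ℝ) * W (τ (a, k)))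
    rw [abs_mul, Nat.abs_cast] at e4
    have e5 : B * E ≤ B * |S| := mul_le_mul_of_nonneg_left (not_le.1 hcon).le (Nat.cast_nonneg _)
    linarith
  have s2 : U.card * (B * (E / 2)) ≤ ∑ i ∈ I, |W (τ i)| := by
    rw [hI, sum_product, ← nsmul_eq_mul]
    exact card_nsmul_le_sum _ _ _ s1
  have hmap : ∀ i ∈ I, τ i ∈ range d := fun i _ => mem_range.2 (ZMod.val_lt _)
  set ν : ℕ → ℝ := fun t => (I.filter fun i => τ i = t).card with hν
  have fib : ∀ g : ℕ → ℝ, ∑ i ∈ I, g (τ i) = ∑ t ∈ range d, ν t * g t := fun g => by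
    rw [← sum_fiberwise_of_maps_to hmap]
    refine sum_congr rfl fun t _ => ?_
    rw [sum_congr rfl fun i hi => by rw [(mem_filter.1 hi).2], sum_const, nsmul_eq_mul]
  have s3 : ∑ t ∈ range d, ν t ^ 2 ≤ I.card * ((y * A / d + 1) * Dm) := by
    simp only [sq]
    rw [← fib ν]
    calc _ ≤ ∑ i ∈ I, ∑ j ∈ I,
          if (q * j.2 + ρ) * i.1 ≡ (q * i.2 + ρ) * j.1 [MOD d] then (1 : ℝ) else 0 := by
          refine sum_le_sum fun i hi => ?_
          rw [hν, sum_boole]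
          refine Nat.cast_le.2 (card_le_card fun j hj => ?_)
          obtain ⟨k1, k2⟩ := mem_filter.1 hj
          refine mem_filter.2 ⟨k1, (ZMod.natCast_eq_natCast_iff _ _ _).1 ?_⟩
          rw [Nat.cast_mul, Nat.cast_mul, ← τ1 i hi, ← τ1 j k1, k2]
          push_cast
          ring
      _ = ∑ i ∈ I, ∑ j ∈ I,
          if (q * j.2 + ρ) * j.1 ≡ (q * i.2 + ρ) * i.1 [MOD d] then (1 : ℝ) else 0 := by
          simp only [hI, sum_product]
          calc _ = ∑ a ∈ U, ∑ a' ∈ U, ∑ k ∈ range L, ∑ k' ∈ range L,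
                if (q * k' + ρ) * a ≡ (q * k + ρ) * a' [MOD d] then (1 : ℝ) else 0 :=
                sum_congr rfl fun a _ => sum_comm
            _ = _ := by
                rw [sum_comm]
                exact sum_congr rfl fun a _ => sum_comm
      _ ≤ _ := by
          rw [← nsmul_eq_mul]
          refine sum_le_card_nsmul _ _ _ fun i _ => ?_
          rw [sum_boole]
          exact res_count hd q0 ρ0 hL (filter_subset _ _) hD _
  have s4 : ∑ t ∈ range d, (|W t| ^ r) ^ 2 ≤ B ^ (2 * r) * ((r ^ (2 * r) +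
      2 * r * (40 * r) ^ d.primeFactors.card * (2 * d.divisors.card) ^ (2 * r)) * √d) := by
    simp only [← pow_mul, mul_comm r 2, (even_two_mul r).pow_abs]
    refine (mom ho hs rB).trans ?_
    have k1 : √d ≤ B ^ r := by
      rw [Real.sqrt_le_left (by positivity), ← pow_mul, mul_comm r]
      exact_mod_cast hdB
    have k2 : (d : ℝ) ≤ B ^ r * √d := by
      nlinarith [Real.mul_self_sqrt (Nat.cast_nonneg (α := ℝ) d), Real.sqrt_nonneg d]
    have k3 : (B : ℝ) ^ r * r ^ (2 * r) * d ≤ B ^ r * r ^ (2 * r) * (B ^ r * √d) := by gcongr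
    have k4 : (B : ℝ) ^ (2 * r) = B ^ r * B ^ r := by rw [two_mul, pow_add]
    rw [show (2 : ℝ) * B * d.divisors.card = B * (2 * d.divisors.card) by ring,
      mul_pow (B : ℝ), k4]
    linarith
  obtain ⟨r, rfl⟩ : ∃ r', r = r' + 1 := ⟨r - 1, by omega⟩
  have s5 := pow_sum_le_card_mul_sum_pow (s := I) (f := fun i => |W (τ i)|)
    (fun _ _ => abs_nonneg _) r
  rw [fib fun t => |W t| ^ (r + 1)] at s5
  have s6 := sum_mul_sq_le_sq_mul_sq (range d) ν fun t => |W t| ^ (r + 1)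
  have s7 := cop_count hd.ne' hA
  rw [← hU] at s7
  have s8 : (I.card : ℝ) ≤ U.card * y := by
    rw [hI, card_product, card_range, Nat.cast_mul]
    gcongr
  have u0 : (0 : ℝ) < U.card := by
    by_contra k
    have : (0 : ℝ) < A := by exact_mod_cast A0
    have : (0 : ℝ) < 2 * 2 ^ d.primeFactors.card := by positivity
    nlinarith
  rw [show 2 * (r + 1) - 1 = 2 * r + 1 by omega] at hn
  generalize ((y : ℝ) * A / d + 1) * Dm = N at hn s3
  generalize (((r + 1 : ℕ) : ℝ) ^ (2 * (r + 1)) + 2 * (r + 1 : ℕ) * (40 * (r + 1 : ℕ)) ^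
    d.primeFactors.card * (2 * d.divisors.card) ^ (2 * (r + 1))) * √d = M at hn s4
  have n0 : 0 ≤ ∑ t ∈ range d, ν t ^ 2 := sum_nonneg fun _ _ => sq_nonneg _
  have n1 : 0 ≤ ∑ t ∈ range d, (|W t| ^ (r + 1)) ^ 2 := sum_nonneg fun _ _ => sq_nonneg _
  have t1 : (U.card * (B * (E / 2))) ^ (2 * (r + 1)) ≤
      (I.card : ℝ) ^ (2 * r) * (I.card * N * (B ^ (2 * (r + 1)) * M)) := by
    calc _ ≤ ((∑ i ∈ I, |W (τ i)|) ^ (r + 1)) ^ 2 := by
          rw [← pow_mul, mul_comm (r + 1)]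
          gcongr
      _ ≤ ((I.card : ℝ) ^ r * ∑ t ∈ range d, ν t * |W t| ^ (r + 1)) ^ 2 :=
          pow_le_pow_left₀ (pow_nonneg (sum_nonneg fun _ _ => abs_nonneg _) _) s5 2
      _ ≤ _ := by
          rw [mul_pow, ← pow_mul, mul_comm r]
          exact mul_le_mul_of_nonneg_left (s6.trans (mul_le_mul s3 s4 n1 (n0.trans s3)))
            (by positivity)
  have t2 : 0 ≤ N * (B ^ (2 * (r + 1)) * M) := by
    by_contra k
    have i0 : (0 : ℝ) < I.card := by
      by_contra k'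
      have k2 : (I.card : ℝ) = 0 := le_antisymm (not_lt.1 k') (Nat.cast_nonneg _)
      rw [k2, zero_mul, zero_mul, mul_zero] at t1
      exact absurd t1 (not_le.2 (by positivity))
    have k3 : (0 : ℝ) < (U.card * (B * (E / 2))) ^ (2 * (r + 1)) := by positivity
    have k4 : (0 : ℝ) < (I.card : ℝ) ^ (2 * r) * I.card := by positivity
    nlinarith
  have t3 : (U.card * B : ℝ) ^ (2 * r + 1) * B * (U.card * E ^ (2 * (r + 1))) ≤
      (U.card * B : ℝ) ^ (2 * r + 1) * B * (2 ^ (2 * (r + 1)) * y ^ (2 * r + 1) * N * M) := by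
    calc _ = 2 ^ (2 * (r + 1)) * (U.card * (B * (E / 2))) ^ (2 * (r + 1)) := by
          rw [← mul_pow, show (2 : ℝ) * (U.card * (B * (E / 2))) = U.card * B * E by ring]
          ring
      _ ≤ 2 ^ (2 * (r + 1)) * ((I.card : ℝ) ^ (2 * r + 1) * (N * (B ^ (2 * (r + 1)) * M))) :=
          mul_le_mul_of_nonneg_left (t1.trans (le_of_eq (by ring))) (by positivity)
      _ ≤ 2 ^ (2 * (r + 1)) * ((U.card * y : ℝ) ^ (2 * r + 1) * (N * (B ^ (2 * (r + 1)) * M))) := by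
          gcongr
      _ = _ := by ring
  have t4 := le_of_mul_le_mul_left t3 (by positivity)
  have t5 : E ^ (2 * (r + 1)) * A ≤ E ^ (2 * (r + 1)) * (2 * 2 ^ d.primeFactors.card * U.card) := by
    gcongr
  have t6 := mul_le_mul_of_nonneg_left t4
    (show (0 : ℝ) ≤ 2 * 2 ^ d.primeFactors.card by positivity)
  linarith

end Pool.Agent.Lib.MP_90cf6f_nt.Uni
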