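import Pool.Agent.Lib.MP_90cf6f_nt.Uni.Link

/-! From many numbers of a good type to one number whose primes give an invertible matrix. -/

namespace Pool.Agent.Lib.MP_90cf6f_nt.Uni

open Finset NumberTheorySymbols Den

lemma TypeOK.ne_one {P T F S : Finset ℕ} {c : ℕ} {ε : ℕ → ℤ} (H : TypeOK P T F S c ε) {n : ℕ}
    (h1 : n % 8 = c) (h2 : ∀ p ∈ S, J(n | p) = ε p) : n ≠ 1 := by
  rintro rfl
  refine GA.not_zero ((H 1 h1 h2).congr (fun i _ => ?_) (fun i _ => ?_) (fun i _ => ?_) ?_) <;>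
    simp [al, sg, ga]

theorem ind {C ρ : ℝ} (hb : Bil C ρ) (hC : 0 < C) (h0 : 0 < ρ) (h1 : ρ ≤ 1) (T F : Finset ℕ)
    {w s0 L κ : ℕ} {δ : ℝ} (d1 : κ ≤ δ * 2 ^ w) (d2 : 2 ^ (κ + 3) * C * ρ ^ w ≤ δ) (k : ℕ) :
    k ≤ κ → ∀ (P S : Finset ℕ) (c : ℕ) (ε : ℕ → ℤ) (s : ℕ) (B : Finset ℕ), s ≤ s0 →
      S.card + k ≤ L → P ⊆ S → T ⊆ insert 2 S → F ⊆ S → Disjoint T (P ∪ F) →
      (∀ p ∈ S, p.Prime ∧ Odd p) → (∀ p ∈ S, PM (ε p)) → Odd c → TypeOK P T F S c ε →
      (∀ n ∈ B, n ≤ 2 ^ s ∧ Squarefree n ∧ n % 8 = c ∧ (∀ p ∈ S, J(n | p) = ε p) ∧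
        n.primeFactors.card ≤ k ∧ ∀ p ∈ n.primeFactors, 2 ^ w < p) →
      δ * (64 * (s0 + 1) * 2 ^ L) ^ k * 2 ^ s ≤ B.card →
      ∃ n : ℕ, n ≤ 2 ^ (s + k) ∧ Squarefree n ∧ 1 < n ∧ Odd n ∧ (∀ p ∈ S, J(n | p) = ε p) ∧
        Inj (Mat al (P ∪ n.primeFactors)) (P ∪ n.primeFactors ∪ T) (P ∪ n.primeFactors ∪ F) := by
  have δ0 : 0 < δ := lt_of_lt_of_le (by positivity) d2
  induction k with
  | zero =>
    intro _ P S c ε s B _ _ _ _ _ _ _ _ _ H hB hc
    obtain ⟨n, hn⟩ : B.Nonempty := by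
      rw [← card_pos, ← Nat.cast_pos (α := ℝ)]
      exact lt_of_lt_of_le (by positivity) hc
    obtain ⟨-, a2, a3, a4, a5, -⟩ := hB n hn
    rw [Nat.le_zero, card_eq_zero, Nat.primeFactors_eq_empty] at a5
    exact absurd (a5.resolve_left a2.ne_zero) (H.ne_one a3 a4)
  | succ k ih =>
    intro hk P S c ε s B hs hL hP hT hF hd hS hε hco H hB hc
    have c0 := Nat.odd_iff.1 hco
    have nS : ∀ q : ℕ, q.Prime → (∀ p ∈ S, PM J(q | p)) → q ∉ S := fun q hq k k' =>
      (k q k').ne (jac_self hq.one_lt)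
    by_cases hpr : ∃ n ∈ B, n.Prime
    · obtain ⟨n, hn, hp⟩ := hpr
      obtain ⟨a1, a2, a3, a4, -, -⟩ := hB n hn
      have n1 := nS n hp fun p hp => a4 p hp ▸ hε p hp
      refine ⟨n, a1.trans (Nat.pow_le_pow_right (by norm_num) (by omega)), a2, hp.one_lt,
        Nat.odd_iff.2 (by omega), a4, ?_⟩
      rw [hp.primeFactors, union_comm P, ← insert_eq]
      refine (H n a3 a4).inj (al_self hp.one_lt) (fun k => n1 (hP k)) (fun k => ?_)
        (fun k => n1 (hF k)) hd
      rcases mem_insert.1 (hT k) with k | k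
      · omega
      · exact n1 k
    push Not at hpr
    set G : ℝ := 64 * (s0 + 1) * 2 ^ L with hG
    have G1 : 1 ≤ G := by
      have : (1 : ℝ) ≤ 2 ^ L := one_le_pow₀ (by norm_num)
      have : (0 : ℝ) ≤ s0 := Nat.cast_nonneg _
      nlinarith
    have Gk : 1 ≤ G ^ k := one_le_pow₀ G1
    have fac : ∀ n ∈ B, n.minFac.Prime ∧ n.minFac * (n / n.minFac) = n ∧ n / n.minFac ≠ 1 := by
      intro n hn
      obtain ⟨-, -, a3, a4, -, -⟩ := hB n hn
      have b1 := Nat.minFac_prime (H.ne_one a3 a4)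
      have b2 := Nat.mul_div_cancel' (Nat.minFac_dvd n)
      exact ⟨b1, b2, fun e => hpr n hn (by rw [e, mul_one] at b2; exact b2 ▸ b1)⟩
    obtain ⟨⟨a, c1, S1⟩, -, hB0⟩ := exists_le_card_fiber_of_nsmul_le_card_of_maps_to
      (s := B) (t := range (s0 + 1) ×ˢ range 8 ×ˢ S.powerset)
      (f := fun n => (Nat.log 2 n.minFac, n.minFac % 8, S.filter fun p => J(n.minFac | p) = 1))
      (b := 8 * δ * G ^ k * 2 ^ s) (fun n hn => by
        simp only [mem_product, mem_range, mem_powerset]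
        refine ⟨Nat.lt_succ_of_le (le_trans ?_ hs), Nat.mod_lt _ (by norm_num), filter_subset _ _⟩
        have := Nat.log_mono_right (b := 2)
          ((Nat.minFac_le (hB n hn).2.1.ne_zero.bot_lt).trans (hB n hn).1)
        rwa [Nat.log_pow (by norm_num)] at this)
      ⟨(0, 0, ∅), by simp⟩ (by
        refine le_trans ?_ hc
        rw [card_product, card_product, card_range, card_range, card_powerset, nsmul_eq_mul,
          pow_succ]
        have : (2 : ℝ) ^ S.card ≤ 2 ^ L := pow_le_pow_right₀ (by norm_num) (by omega)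
        push_cast
        calc _ = δ * (G ^ k * (64 * (s0 + 1) * 2 ^ S.card)) * 2 ^ s := by ring
          _ ≤ _ := by rw [hG]; gcongr)
    set B0 := B.filter fun n => (Nat.log 2 n.minFac, n.minFac % 8,
      S.filter fun p => J(n.minFac | p) = 1) = (a, c1, S1) with hB0d
    set σ : ℕ → ℤ := fun p => if p ∈ S1 then 1 else -1 with hσ
    have σ1 : ∀ p, PM (σ p) := fun p => by
      simp only [hσ]
      split_ifs
      exacts [Or.inl rfl, Or.inr rfl]
    have f1 : ∀ n ∈ B0, Odd n.minFac ∧ 2 ^ a ≤ n.minFac ∧ n.minFac < 2 ^ (a + 1) ∧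
        n.minFac % 8 = c1 ∧ (∀ p ∈ S, J(n.minFac | p) = σ p) ∧ 2 ^ w < n.minFac := by
      intro n hn
      obtain ⟨hn, k1⟩ := mem_filter.1 hn
      simp only [Prod.mk.injEq] at k1
      obtain ⟨k1, k2, k3⟩ := k1
      obtain ⟨-, a2, a3, a4, -, a6⟩ := hB n hn
      obtain ⟨b1, b2, -⟩ := fac n hn
      refine ⟨(Nat.odd_iff.2 (by omega : n % 2 = 1)).of_dvd_nat (Nat.minFac_dvd n),
        k1 ▸ Nat.pow_log_le_self 2 b1.ne_zero, k1 ▸ Nat.lt_pow_succ_log_self (by norm_num) _, k2,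
        fun p hp => ?_, a6 _ (Nat.mem_primeFactors.2 ⟨b1, Nat.minFac_dvd n, a2.ne_zero⟩)⟩
      have := pm_jac' (Nat.Coprime.coprime_dvd_left (Nat.minFac_dvd n)
        (cop_of_pm (hS p hp).1.ne_zero (a4 p hp ▸ hε p hp)))
      simp only [hσ, ← k3, mem_filter, hp, true_and]
      rcases this with j | j <;> simp [j]
    obtain ⟨n0, hn0⟩ : B0.Nonempty := by
      rw [← card_pos, ← Nat.cast_pos (α := ℝ)]
      exact lt_of_lt_of_le (by positivity) hB0
    have wa : w ≤ a := by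
      obtain ⟨-, -, k1, -, -, k2⟩ := f1 n0 hn0
      exact Nat.lt_succ_iff.1 ((Nat.pow_lt_pow_iff_right (by norm_num)).1 (k2.trans k1))
    obtain ⟨b, rfl⟩ : ∃ b, s = a + b := by
      have k1 := (f1 n0 hn0).2.1
      have k2 := hB n0 (mem_filter.1 hn0).1
      exact Nat.exists_eq_add_of_le ((Nat.pow_le_pow_iff_right (by norm_num)).1
        (k1.trans ((Nat.minFac_le k2.2.1.ne_zero.bot_lt).trans k2.1)))
    have c1o : c1 % 2 = 1 ∧ c1 < 8 := by
      have k1 := Nat.odd_iff.1 (f1 n0 hn0).1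
      have k2 := (f1 n0 hn0).2.2.2.1
      omega
    have m8 : ∀ q m : ℕ, q % 8 = c1 → ((q * m) % 8 = c ↔ m % 8 = c1 * c % 8) := by
      intro q m hq
      have c8 : c < 8 := by have := (hB n0 (mem_filter.1 hn0).1).2.2.1; omega
      have m1 : m % 8 < 8 := Nat.mod_lt _ (by norm_num)
      rw [Nat.mul_mod, hq]
      generalize m % 8 = r at m1
      obtain ⟨k1, k2⟩ := c1o
      clear * - c8 m1 k1 k2
      interval_cases c1 <;> omega
    have f2 : ∀ n ∈ B0, n / n.minFac ≤ 2 ^ b ∧ Squarefree (n / n.minFac) ∧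
        (n / n.minFac) % 8 = c1 * c % 8 ∧ (∀ p ∈ S, J((n / n.minFac : ℕ) | p) = σ p * ε p) ∧
        (n / n.minFac).primeFactors.card ≤ k ∧ ∀ p ∈ (n / n.minFac).primeFactors, 2 ^ w < p := by
      intro n hn
      obtain ⟨-, e2, -, e4, e5, -⟩ := f1 n hn
      obtain ⟨a1, a2, a3, a4, a5, a6⟩ := hB n (mem_filter.1 hn).1
      obtain ⟨b1, b2, -⟩ := fac n (mem_filter.1 hn).1
      generalize n.minFac = q at *
      generalize n / q = m at *
      subst b2
      have cop := Nat.coprime_of_squarefree_mul a2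
      rw [cop.primeFactors_mul, b1.primeFactors] at a5 a6
      refine ⟨?_, a2.of_mul_right, (m8 q m e4).1 a3, fun p hp => ?_, ?_,
        fun p hp => a6 p (mem_union_right _ hp)⟩
      · rw [pow_add] at a1
        exact Nat.le_of_mul_le_mul_left ((Nat.mul_le_mul_right m e2).trans a1) (by positivity)
      · rw [← a4 p hp, Nat.cast_mul, jacobiSym.mul_left, e5 p hp, ← mul_assoc, (σ1 p).sq, one_mul]
      · rw [card_union_of_disjoint (b1.primeFactors ▸ cop.disjoint_primeFactors),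
          card_singleton] at a5
        omega
    have wb : w ≤ b := by
      obtain ⟨k1, k2, -, -, -, k3⟩ := f2 n0 hn0
      have k4 := Nat.minFac_prime (fac n0 (mem_filter.1 hn0).1).2.2
      exact ((Nat.pow_lt_pow_iff_right (by norm_num)).1 ((k3 _ (Nat.mem_primeFactors.2
        ⟨k4, Nat.minFac_dvd _, k2.ne_zero⟩)).trans_le
        ((Nat.minFac_le k2.ne_zero.bot_lt).trans k1))).le
    set A := B0.image Nat.minFac with hA
    set B1 := B0.image fun n => n / n.minFac with hB1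
    have AB : (B0.card : ℝ) ≤ A.card * B1.card := by
      have := card_le_card_of_injOn (s := B0) (t := A ×ˢ B1) (fun n => (n.minFac, n / n.minFac))
        (fun n hn => mem_coe.2 (mem_product.2 ⟨mem_image_of_mem _ hn, mem_image_of_mem _ hn⟩))
        fun n hn m hm e => by
          simp only [Prod.mk.injEq] at e
          rw [← (fac n (mem_filter.1 hn).1).2.1, e.2, e.1, (fac m (mem_filter.1 hm).1).2.1]
      rw [card_product] at this
      exact_mod_cast this
    have c2o : Odd (c1 * c % 8) := by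
      have := Nat.odd_iff.1 ((Nat.odd_iff.2 c1o.1).mul hco)
      exact Nat.odd_iff.2 (by omega)
    obtain ⟨q, hq, hl⟩ := link hb hC h0 h1 (A := A) (B := B1) (a := a + 1) (b := b) (w := w) (κ := κ)
      (fun q hq => by
        obtain ⟨n, hn, rfl⟩ := mem_image.1 hq
        exact ⟨(fac n (mem_filter.1 hn).1).1, (f1 n hn).1, (f1 n hn).2.2.1.le⟩)
      (fun m hm => by
        obtain ⟨n, hn, rfl⟩ := mem_image.1 hm
        obtain ⟨k1, k2, k3, -, k4, -⟩ := f2 n hn
        have := Nat.odd_iff.1 c2o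
        exact ⟨⟨Nat.odd_iff.2 (by omega), k2⟩, k1, by omega⟩) (by omega) wb (by
        refine lt_of_lt_of_le ?_ (hB0.trans AB)
        have k1 : (2 : ℝ) ^ w ≤ 2 ^ a := pow_le_pow_right₀ (by norm_num) wa
        have k2 : (κ : ℝ) * 2 ^ b ≤ δ * 2 ^ a * 2 ^ b := by
          gcongr
          exact d1.trans (by gcongr)
        have k3 : 2 ^ (κ + 3) * C * ρ ^ w * (2 ^ a * 2 ^ b) ≤ δ * (2 ^ a * 2 ^ b) := by gcongr
        have k4 : δ * (2 ^ a * 2 ^ b) * 1 ≤ δ * (2 ^ a * 2 ^ b) * G ^ k := by gcongr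
        have k5 : 0 < δ * (2 ^ a * 2 ^ b) := by positivity
        rw [pow_add 2 (a + 1) b, pow_add 2 a b, pow_succ 2 a]
        linarith)
    obtain ⟨n1, hn1, rfl⟩ := mem_image.1 hq
    obtain ⟨e1, -, e3, e4, e5, -⟩ := f1 n1 hn1
    have qp := (fac n1 (mem_filter.1 hn1).1).1
    generalize n1.minFac = q at e1 e3 e4 e5 qp hl
    have qS := nS q qp fun p hp => e5 p hp ▸ σ1 p
    obtain ⟨τ, τ1, H'⟩ := split_type hP hT hF hS (ε' := fun p => σ p * ε p)
      (fun p hp => (σ1 p).mul (hε p hp)) H qp e1 qS c2o (fun m hm => (m8 q m e4).2 hm)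
      fun p hp => by rw [e5 p hp, ← mul_assoc, (σ1 p).sq, one_mul]
    have upd : ∀ p ∈ S, Function.update (fun p => σ p * ε p) q τ p = σ p * ε p := fun p hp =>
      Function.update_of_ne (fun e : p = q => qS (e ▸ hp)) _ _
    obtain ⟨n, r1, r2, r3, r4, r5, r6⟩ := ih (by omega) (insert q P) (insert q S) (c1 * c % 8)
      (Function.update (fun p => σ p * ε p) q τ) b (B1.filter fun n : ℕ => J(n | q) = τ)
      (by omega) (by rw [card_insert_of_notMem qS]; omega) (insert_subset_insert _ hP)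
      (hT.trans (insert_subset_insert _ (subset_insert _ _))) (hF.trans (subset_insert _ _))
      (by
        rw [insert_union, disjoint_insert_right]
        refine ⟨fun k => ?_, hd⟩
        rcases mem_insert.1 (hT k) with rfl | k
        · exact absurd e1 (by decide)
        · exact qS k)
      (forall_mem_insert _ _ _ |>.2 ⟨⟨qp, e1⟩, hS⟩)
      (forall_mem_insert _ _ _ |>.2 ⟨by rwa [Function.update_self], fun p hp => by
        rw [upd p hp]; exact (σ1 p).mul (hε p hp)⟩) c2o H'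
      (fun m hm => by
        obtain ⟨hm, j⟩ := mem_filter.1 hm
        obtain ⟨n, hn, rfl⟩ := mem_image.1 hm
        obtain ⟨k1, k2, k3, k4, k5, k6⟩ := f2 n hn
        exact ⟨k1, k2, k3, forall_mem_insert _ _ _ |>.2 ⟨by rwa [Function.update_self],
          fun p hp => by rw [upd p hp, k4 p hp]⟩, k5, k6⟩)
      (by
        have k1 : (B1.card : ℝ) ≤ 4 * (B1.filter fun n : ℕ => J(n | q) = τ).card := by
          exact_mod_cast hl τ τ1
        have k2 : (A.card : ℝ) ≤ 2 ^ (a + 1) := by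
          have : A ⊆ range (2 ^ (a + 1)) := fun q hq => by
            obtain ⟨n, hn, rfl⟩ := mem_image.1 hq
            exact mem_range.2 (f1 n hn).2.2.1
          exact_mod_cast (card_le_card this).trans (card_range _).le
        have k3 := (hB0.trans AB).trans (mul_le_mul k2 k1 (Nat.cast_nonneg _) (by positivity))
        rw [pow_add, pow_succ] at k3
        refine le_of_mul_le_mul_left (a := 8 * 2 ^ a) ?_ (by positivity)
        linarith)
    rw [forall_mem_insert, Function.update_self] at r5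
    have cop : q.Coprime n := (cop_of_pm qp.ne_zero (r5.1 ▸ τ1)).symm
    refine ⟨q * n, ?_, (Nat.squarefree_mul cop).2 ⟨qp.squarefree, r2⟩,
      r3.trans_le (Nat.le_mul_of_pos_left _ qp.pos), e1.mul r4, fun p hp => ?_, ?_⟩
    · calc q * n ≤ 2 ^ (a + 1) * 2 ^ (b + k) := Nat.mul_le_mul e3.le r1
        _ = _ := by ring
    · rw [Nat.cast_mul, jacobiSym.mul_left, r5.2 p hp, upd p hp, e5 p hp, ← mul_assoc, (σ1 p).sq,
        one_mul]
    · rwa [cop.primeFactors_mul, qp.primeFactors, ← union_assoc, union_comm P, ← insert_eq]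

end Pool.Agent.Lib.MP_90cf6f_nt.Uni
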