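import Mathlib

/-! Linear algebra over the field with two elements. -/

namespace Pool.Agent.Lib.MP_90cf6f_nt.Uni

open Finset

/-- The matrix `M` with rows in `R` and columns in `C` has trivial kernel. -/
def Inj (M : ℕ → ℕ → ZMod 2) (R C : Finset ℕ) : Prop :=
  ∀ x : ℕ → ZMod 2, (∀ i ∈ R, ∑ k ∈ C, M i k * x k = 0) → ∀ k ∈ C, x k = 0

lemma f2_cases (e : ZMod 2) : e = 0 ∨ e = 1 := by revert e; decide

lemma f2_two : (2 : ZMod 2) = 0 := by decide

lemma f2_add_self (e : ZMod 2) : e + e = 0 := by revert e; decide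

lemma f2_eq_of_add {e f : ZMod 2} (h : e + f = 0) : e = f := by revert e f; decide

lemma f2_one_of_ne {e : ZMod 2} (h : e ≠ 0) : e = 1 := by revert e; decide

lemma f2_eq_of_ne {e f : ZMod 2} (h : ¬ e = f + 1) : e = f := by revert e f; decide

/-- The map attached to a matrix. -/
def linMap (M : ℕ → ℕ → ZMod 2) (R C : Finset ℕ) (x : C → ZMod 2) : R → ZMod 2 :=
  fun i => ∑ k : C, M i k * x k

lemma linMap_inj {M : ℕ → ℕ → ZMod 2} {R C : Finset ℕ} (h : Inj M R C) :
    Function.Injective (linMap M R C) := by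
  intro x y hxy
  have := h (fun k => if hk : k ∈ C then x ⟨k, hk⟩ - y ⟨k, hk⟩ else 0) (fun i hi => by
    have h1 := congrFun hxy ⟨i, hi⟩
    simp only [linMap] at h1
    rw [← sum_coe_sort C]
    simp only [SetLike.coe_mem, dite_true, mul_sub, sum_sub_distrib, Subtype.coe_eta]
    exact sub_eq_zero.2 h1)
  funext k
  have h2 := this k k.2
  simp only [SetLike.coe_mem, dite_true, Subtype.coe_eta] at h2
  exact sub_eq_zero.1 h2

lemma Inj.card_le {M : ℕ → ℕ → ZMod 2} {R C : Finset ℕ} (h : Inj M R C) : C.card ≤ R.card := by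
  have := Fintype.card_le_of_injective _ (linMap_inj h)
  simp only [Fintype.card_fun, ZMod.card, Fintype.card_coe] at this
  exact (Nat.pow_le_pow_iff_right (by norm_num)).1 this

lemma Inj.transpose {M : ℕ → ℕ → ZMod 2} {R C : Finset ℕ} (h : Inj M R C)
    (hc : C.card = R.card) : Inj (fun k i => M i k) C R := by
  have hb : Function.Bijective (linMap M R C) :=
    (Fintype.bijective_iff_injective_and_card _).2 ⟨linMap_inj h, by simp [hc]⟩
  intro y hy i0 hi0
  obtain ⟨x, hx⟩ := hb.2 (fun i => if (i : ℕ) = i0 then 1 else 0)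
  have h1 : ∑ i : R, y i * linMap M R C x i = y i0 := by
    rw [hx, Fintype.sum_eq_single (⟨i0, hi0⟩ : R)]
    · simp
    · intro b hb
      simp only
      rw [if_neg (fun k => hb (Subtype.ext k)), mul_zero]
  rw [← h1]
  simp only [linMap, mul_sum]
  rw [sum_comm]
  refine sum_eq_zero fun k _ => ?_
  have h2 := hy k k.2
  rw [← sum_coe_sort R] at h2
  have h3 : ∑ i : R, y i * (M i k * x k) = (∑ i : R, M i k * y i) * x k := by
    rw [sum_mul]
    exact sum_congr rfl fun i _ => by ring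
  rw [h3, h2, zero_mul]

/-- A free diagonal can be chosen so that the kernel stays trivial. -/
lemma diag_ex (A : ℕ → ℕ → ZMod 2) {T F : Finset ℕ} (h : Inj A T F) (P : Finset ℕ)
    (hP : Disjoint P F) : ∃ δ : ℕ → ZMod 2, ∀ y : ℕ → ZMod 2,
      (∀ i ∈ P, δ i * y i + ∑ k ∈ P ∪ F, A i k * y k = 0) →
      (∀ i ∈ T, ∑ k ∈ P ∪ F, A i k * y k = 0) → ∀ k ∈ P ∪ F, y k = 0 := by
  induction P using Finset.induction_on with
  | empty => exact ⟨0, fun y _ h2 => by simpa using h y (by simpa using h2)⟩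
  | insert a P ha ih =>
    rw [disjoint_insert_left] at hP
    obtain ⟨δ, hδ⟩ := ih hP.2
    have hn : a ∉ P ∪ F := by simp [ha, hP.1]
    have hne : ∀ i ∈ P, i ≠ a := fun i hi k => ha (k ▸ hi)
    simp only [insert_union, sum_insert hn, forall_mem_insert]
    by_contra hcon
    push Not at hcon
    have key : ∀ s : ZMod 2, ∃ y : ℕ → ZMod 2, y a = 1 ∧
        s + (A a a + ∑ k ∈ P ∪ F, A a k * y k) = 0 ∧
        (∀ i ∈ P, δ i * y i + (A i a + ∑ k ∈ P ∪ F, A i k * y k) = 0) ∧
        ∀ i ∈ T, A i a + ∑ k ∈ P ∪ F, A i k * y k = 0 := by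
      intro s
      obtain ⟨y, ⟨h1, h2⟩, h3, h4⟩ := hcon (Function.update δ a s)
      have h2' : ∀ i ∈ P, δ i * y i + (A i a * y a + ∑ k ∈ P ∪ F, A i k * y k) = 0 := fun i hi => by
        have := h2 i hi
        rwa [Function.update_of_ne (hne i hi)] at this
      have h5 : y a = 1 := by
        refine f2_one_of_ne fun h0 => ?_
        obtain ⟨k, hk, hk'⟩ := h4 h0
        refine hk' (hδ y (fun i hi => ?_) (fun i hi => ?_) k hk)
        · simpa [h0] using h2' i hi
        · simpa [h0] using h3 i hi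
      refine ⟨y, h5, ?_, fun i hi => ?_, fun i hi => ?_⟩
      · simpa [h5] using h1
      · simpa [h5] using h2' i hi
      · simpa [h5] using h3 i hi
    obtain ⟨y, -, a2, a3, a4⟩ := key 0
    obtain ⟨z, -, b2, b3, b4⟩ := key 1
    have h6 := hδ (fun k => y k - z k) (fun i hi => by
      simp only [mul_sub, sum_sub_distrib]
      linear_combination a3 i hi - b3 i hi) (fun i hi => by
      simp only [mul_sub, sum_sub_distrib]
      linear_combination a4 i hi - b4 i hi)
    have h7 : ∑ k ∈ P ∪ F, A a k * y k = ∑ k ∈ P ∪ F, A a k * z k :=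
      sum_congr rfl fun k hk => by rw [sub_eq_zero.1 (h6 k hk)]
    have h8 : (1 : ZMod 2) = 0 := by linear_combination b2 - a2 + h7
    exact one_ne_zero h8

/-- The bordered symmetric system has trivial kernel. -/
def Bord (C : ℕ → ℕ → ZMod 2) (R : Finset ℕ) (v : ℕ → ZMod 2) : Prop :=
  ∀ (x : ℕ → ZMod 2) (ξ : ZMod 2), ∑ k ∈ R, v k * x k = 0 →
    (∀ i ∈ R, v i * ξ + ∑ k ∈ R, C i k * x k = 0) → ξ = 0 ∧ ∀ k ∈ R, x k = 0

lemma bord_aux {C : ℕ → ℕ → ZMod 2} (hC : ∀ i k, C i k = C k i) {R : Finset ℕ}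
    {v w x y : ℕ → ZMod 2} {a b : ZMod 2} (hx : ∀ i ∈ R, v i * a + ∑ k ∈ R, C i k * x k = 0)
    (hy : ∀ i ∈ R, w i * b + ∑ k ∈ R, C i k * y k = 0) :
    (∑ i ∈ R, v i * y i) * a = (∑ i ∈ R, w i * x i) * b := by
  have h1 : ∑ i ∈ R, y i * (v i * a + ∑ k ∈ R, C i k * x k) = 0 :=
    sum_eq_zero fun i hi => by rw [hx i hi, mul_zero]
  have h2 : ∑ i ∈ R, x i * (w i * b + ∑ k ∈ R, C i k * y k) = 0 :=
    sum_eq_zero fun i hi => by rw [hy i hi, mul_zero]
  simp only [mul_add, sum_add_distrib, mul_sum] at h1 h2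
  have h3 : ∑ i ∈ R, ∑ k ∈ R, y i * (C i k * x k) = ∑ i ∈ R, ∑ k ∈ R, x i * (C i k * y k) := by
    rw [sum_comm]
    exact sum_congr rfl fun i _ => sum_congr rfl fun k _ => by rw [hC k i]; ring
  have h4 : (∑ i ∈ R, v i * y i) * a = ∑ i ∈ R, y i * (v i * a) := by
    rw [sum_mul]; exact sum_congr rfl fun i _ => by ring
  have h5 : (∑ i ∈ R, w i * x i) * b = ∑ i ∈ R, x i * (w i * b) := by
    rw [sum_mul]; exact sum_congr rfl fun i _ => by ring
  rw [h4, h5]
  linear_combination h1 - h2 - h3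

lemma bord_or {C : ℕ → ℕ → ZMod 2} (hC : ∀ i k, C i k = C k i) {R : Finset ℕ}
    {v w : ℕ → ZMod 2} (h : Bord C R fun k => v k + w k) : Bord C R v ∨ Bord C R w := by
  by_contra hcon
  simp only [Bord, not_or, not_forall] at hcon
  obtain ⟨⟨x, a, x1, x2, x3⟩, y, b, y1, y2, y3⟩ := hcon
  have e := bord_aux hC x2 y2
  have sp : ∀ z : ℕ → ZMod 2, ∑ k ∈ R, (v k + w k) * z k =
      ∑ k ∈ R, v k * z k + ∑ k ∈ R, w k * z k := fun z => by
    simp only [add_mul, sum_add_distrib]
  have hx : a = 0 → ∑ k ∈ R, w k * x k = 1 := fun a0 => f2_one_of_ne fun k0 =>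
    x3 ⟨a0, (h x 0 (by rw [sp, x1, k0, add_zero]) fun i hi => by simpa [a0] using x2 i hi).2⟩
  have hy : b = 0 → ∑ k ∈ R, v k * y k = 1 := fun b0 => f2_one_of_ne fun k0 =>
    y3 ⟨b0, (h y 0 (by rw [sp, y1, k0, add_zero]) fun i hi => by simpa [b0] using y2 i hi).2⟩
  have hab : a = b := by
    rcases f2_cases a with a0 | a0 <;> rcases f2_cases b with b0 | b0
    · rw [a0, b0]
    · rw [hx a0, a0, b0] at e; simp at e
    · rw [hy b0, a0, b0] at e; simp at e
    · rw [a0, b0]
  subst hab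
  have e2 : ∑ i ∈ R, v i * y i = ∑ i ∈ R, w i * x i := by
    rcases f2_cases a with a0 | a0
    · rw [hx a0, hy a0]
    · simpa [a0] using e
  have h1 := h (fun k => x k + y k) a (by
    rw [sp]
    simp only [mul_add, sum_add_distrib]
    rw [x1, y1, e2, zero_add, add_zero, f2_add_self]) fun i hi => by
    simp only [mul_add, sum_add_distrib]
    linear_combination x2 i hi + y2 i hi
  have h2 : ∑ k ∈ R, w k * x k = ∑ k ∈ R, w k * y k :=
    sum_congr rfl fun k hk => by rw [f2_eq_of_add (h1.2 k hk)]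
  rw [hx h1.1, y1] at h2
  exact one_ne_zero h2

lemma inj_insert_iff {B : ℕ → ℕ → ZMod 2} {R : Finset ℕ} {a : ℕ} (ha : a ∉ R) (h0 : B a a = 0)
    {C : ℕ → ℕ → ZMod 2} {v : ℕ → ZMod 2} (h1 : ∀ k ∈ R, B a k = v k) (h2 : ∀ k ∈ R, B k a = v k)
    (h3 : ∀ i ∈ R, ∀ k ∈ R, B i k = C i k) : Inj B (insert a R) (insert a R) ↔ Bord C R v := by
  have e1 : ∀ x : ℕ → ZMod 2, ∑ k ∈ R, B a k * x k = ∑ k ∈ R, v k * x k := fun x =>
    sum_congr rfl fun k hk => by rw [h1 k hk]
  have e2 : ∀ x : ℕ → ZMod 2, ∀ i ∈ R, ∑ k ∈ R, B i k * x k = ∑ k ∈ R, C i k * x k :=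
    fun x i hi => sum_congr rfl fun k hk => by rw [h3 i hi k hk]
  have hne : ∀ k ∈ R, k ≠ a := fun k hk e => ha (e ▸ hk)
  simp only [Inj, Bord, sum_insert ha, forall_mem_insert, h0, zero_mul, zero_add]
  constructor
  · intro h x ξ k1 k2
    have e3 : ∀ f : ℕ → ZMod 2, ∑ k ∈ R, f k * Function.update x a ξ k = ∑ k ∈ R, f k * x k :=
      fun f => sum_congr rfl fun k hk => by rw [Function.update_of_ne (hne k hk)]
    have := h (Function.update x a ξ) ⟨by rw [e3, e1, k1], fun i hi => by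
      rw [e3, e2 x i hi, h2 i hi, Function.update_self, k2 i hi]⟩
    rw [Function.update_self] at this
    exact ⟨this.1, fun k hk => by simpa [Function.update_of_ne (hne k hk)] using this.2 k hk⟩
  · intro h x ⟨k1, k2⟩
    exact h x (x a) (by rw [← e1, k1]) fun i hi => by rw [← e2 x i hi, ← h2 i hi, k2 i hi]

/-- Rows in `F` and columns in `T` removed. -/
def cut (A : ℕ → ℕ → ZMod 2) (T F : Finset ℕ) (i k : ℕ) : ZMod 2 :=
  if i ∈ F ∨ k ∈ T then 0 else A i k

lemma tour_aux (A : ℕ → ℕ → ZMod 2) {R : Finset ℕ} (h : Inj (fun i k => A i k + A k i) R R)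
    (U : Finset ℕ) (hU : U ⊆ R) : ∃ T F : Finset ℕ, T ∪ F = U ∧ Disjoint T F ∧
      Inj (fun i k => cut A T F i k + cut A T F k i) R R := by
  induction U using Finset.induction_on with
  | empty => exact ⟨∅, ∅, by simp, by simp, by simpa [cut] using h⟩
  | insert a U ha ih =>
    obtain ⟨T, F, rfl, h2, h3⟩ := ih ((subset_insert _ _).trans hU)
    have haR : a ∈ R := hU (mem_insert_self _ _)
    have haT : a ∉ T := fun k => ha (mem_union_left _ k)
    have haF : a ∉ F := fun k => ha (mem_union_right _ k)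
    have hne : ∀ k ∈ R.erase a, k ≠ a := fun k hk => (mem_erase.1 hk).1
    rw [← insert_erase haR] at h3 ⊢
    rw [inj_insert_iff (notMem_erase a R) (f2_add_self _)
      (C := fun i k => cut A T F i k + cut A T F k i)
      (v := fun k => cut A T F a k + cut A T F k a) (fun _ _ => rfl) (fun _ _ => add_comm _ _)
      fun _ _ _ _ => rfl] at h3
    rcases bord_or (fun i k => add_comm _ _) h3 with h4 | h4
    · refine ⟨insert a T, F, insert_union _ _ _, by simp [haF, h2], ?_⟩
      refine (inj_insert_iff (notMem_erase a R) (f2_add_self _) (fun k hk => ?_) (fun k hk => ?_)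
        fun i hi k hk => ?_).2 h4
      · simp [cut, hne k hk]
      · simp [cut, hne k hk]
      · simp [cut, hne k hk, hne i hi]
    · refine ⟨T, insert a F, union_insert _ _ _, by simp [haT, h2], ?_⟩
      refine (inj_insert_iff (notMem_erase a R) (f2_add_self _) (fun k hk => ?_) (fun k hk => ?_)
        fun i hi k hk => ?_).2 h4
      · simp [cut, hne k hk]
      · simp [cut, hne k hk]
      · simp [cut, hne k hk, hne i hi]

/-- A tournament on an even number of vertices has a balanced cut with invertible matrix. -/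
lemma tour {A : ℕ → ℕ → ZMod 2} {R : Finset ℕ} (hR : Even R.card)
    (hA : ∀ i ∈ R, ∀ k ∈ R, i ≠ k → A i k + A k i = 1) :
    ∃ T F : Finset ℕ, T ∪ F = R ∧ Disjoint T F ∧ Inj A T F ∧ F.card = T.card := by
  have h : Inj (fun i k => A i k + A k i) R R := by
    intro x hx
    have h1 : ∀ i ∈ R, x i = ∑ k ∈ R, x k := by
      intro i hi
      have h2 := hx i hi
      simp only at h2
      rw [← add_sum_erase _ _ hi, f2_add_self, zero_mul, zero_add,
        sum_congr rfl (g := x) fun k hk => by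
          rw [hA i hi k (mem_erase.1 hk).2 (mem_erase.1 hk).1.symm, one_mul]] at h2
      rw [← add_sum_erase _ _ hi, h2, add_zero]
    have h3 : ∑ k ∈ R, x k = 0 := by
      rw [sum_congr rfl h1, sum_const, nsmul_eq_mul]
      obtain ⟨m, hm⟩ := hR
      rw [hm, Nat.cast_add, f2_add_self, zero_mul]
    intro k hk
    rw [h1 k hk, h3]
  obtain ⟨T, F, rfl, h2, h3⟩ := tour_aux A h R Subset.rfl
  have d1 : ∀ k ∈ F, k ∉ T := fun k hk k' => disjoint_left.1 h2 k' hk
  have d2 : ∀ k ∈ T, k ∉ F := fun k hk => disjoint_left.1 h2 hk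
  have i1 : Inj A T F := by
    intro x hx k hk
    have := h3 (fun k => if k ∈ F then x k else 0) (fun i hi => by
      rw [sum_union h2, sum_eq_zero fun k hk => by rw [if_neg (d2 k hk), mul_zero], zero_add]
      rcases mem_union.1 hi with hi | hi
      · rw [← hx i hi]
        exact sum_congr rfl fun k hk => by simp [cut, hk, hi, d1 k hk, d2 i hi]
      · exact sum_eq_zero fun k hk => by simp [cut, hk, hi]) k (mem_union_right _ hk)
    simpa [hk] using this
  have i2 : Inj (fun k i => A i k) F T := by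
    intro x hx k hk
    have := h3 (fun k => if k ∈ T then x k else 0) (fun i hi => by
      rw [sum_union h2, sum_eq_zero (s := F) fun k hk => by rw [if_neg (d1 k hk), mul_zero],
        add_zero]
      rcases mem_union.1 hi with hi | hi
      · exact sum_eq_zero fun k hk => by simp [cut, hk, hi]
      · rw [← hx i hi]
        exact sum_congr rfl fun k hk => by simp [cut, hk, hi, d2 k hk, d1 i hi])
      k (mem_union_left _ hk)
    simpa [hk] using this
  exact ⟨T, F, rfl, h2, i1, le_antisymm i1.card_le i2.card_le⟩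

/-- The matrix of the descent. -/
def Mat (α : ℕ → ℕ → ZMod 2) (P : Finset ℕ) (i k : ℕ) : ZMod 2 :=
  α i k + if i = k then α i 2 + ∑ j ∈ P, α i j else 0

/-- The system with one more vertex, given by its column `u` and its row `v`. -/
def GA (α : ℕ → ℕ → ZMod 2) (P T F : Finset ℕ) (u v : ℕ → ZMod 2) : Prop :=
  ∀ (x : ℕ → ZMod 2) (ξ : ZMod 2),
    (∀ i ∈ P, (α i 2 + ∑ j ∈ P, α i j + u i) * x i + u i * ξ + ∑ k ∈ P ∪ F, α i k * x k = 0) →
    (∀ i ∈ T, u i * ξ + ∑ k ∈ P ∪ F, α i k * x k = 0) →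
    (v 2 + ∑ j ∈ P, v j) * ξ + ∑ k ∈ P ∪ F, v k * x k = 0 → ξ = 0 ∧ ∀ k ∈ P ∪ F, x k = 0

lemma mat_sum (α : ℕ → ℕ → ZMod 2) (P C : Finset ℕ) (i : ℕ) (x : ℕ → ZMod 2) :
    ∑ k ∈ C, Mat α P i k * x k =
      ∑ k ∈ C, α i k * x k + if i ∈ C then (α i 2 + ∑ j ∈ P, α i j) * x i else 0 := by
  simp only [Mat, add_mul, sum_add_distrib, ite_mul, zero_mul, sum_ite_eq]

lemma GA.inj {α : ℕ → ℕ → ZMod 2} {P T F : Finset ℕ} {n : ℕ}
    (h : GA α P T F (fun i => α i n) (α n)) (h0 : α n n = 0) (hP : n ∉ P) (hT : n ∉ T)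
    (hF : n ∉ F) (hd : Disjoint T (P ∪ F)) :
    Inj (Mat α (insert n P)) (insert n P ∪ T) (insert n P ∪ F) := by
  intro x hx
  have hn : n ∉ P ∪ F := by simp [hP, hF]
  simp only [mat_sum] at hx
  simp only [insert_union, sum_insert hn, sum_insert hP, forall_mem_insert,
    mem_insert_self, if_true, h0, zero_mul, zero_add] at hx ⊢
  refine h x (x n) (fun i hi => ?_) (fun i hi => ?_) ?_
  · have := hx.2 i (mem_union_left _ hi)
    rw [if_pos (mem_insert_of_mem (mem_union_left _ hi))] at this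
    linear_combination this
  · have := hx.2 i (mem_union_right _ hi)
    rw [if_neg (by
      rw [mem_insert, not_or]
      exact ⟨fun k => hT (k ▸ hi), disjoint_left.1 hd hi⟩)] at this
    linear_combination this
  · linear_combination hx.1

lemma GA.congr {α : ℕ → ℕ → ZMod 2} {P T F : Finset ℕ} {u v u' v' : ℕ → ZMod 2}
    (h : GA α P T F u v) (h1 : ∀ i ∈ P, u i = u' i) (h2 : ∀ i ∈ T, u i = u' i)
    (h3 : ∀ k ∈ P ∪ F, v k = v' k) (h4 : v 2 = v' 2) : GA α P T F u' v' := by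
  intro x ξ a1 a2 a3
  refine h x ξ (fun i hi => by rw [h1 i hi]; exact a1 i hi)
    (fun i hi => by rw [h2 i hi]; exact a2 i hi) ?_
  rw [h4, sum_congr rfl fun j hj => h3 j (mem_union_left _ hj),
    sum_congr rfl (s₁ := P ∪ F) (g := fun k => v' k * x k) fun k hk => by rw [h3 k hk]]
  exact a3

lemma GA.not_zero {α : ℕ → ℕ → ZMod 2} {P T F : Finset ℕ} : ¬ GA α P T F 0 0 := fun h => by
  simpa using (h 0 1 (by simp) (by simp) (by simp)).1

/-- Splitting a vertex: one of the two values of the link is good. -/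
lemma GA.split {α : ℕ → ℕ → ZMod 2} {P T F : Finset ℕ} {q : ℕ} {u v u' v' : ℕ → ZMod 2}
    (h : GA α P T F (fun i => α i q + u i) fun k => α q k + v k) (h0 : α q q = 0) (hP : q ∉ P)
    (hF : q ∉ F) (h1 : ∀ i ∈ P, u' i = u i) (h2 : ∀ i ∈ T, u' i = u i)
    (h3 : ∀ k ∈ P ∪ F, v' k = v k) (h4 : v' 2 = v 2) (h5 : u' q = u q + 1) (h6 : v' q = v q + 1) :
    GA α (insert q P) T F u v ∨ GA α (insert q P) T F u' v' := by
  have hn : q ∉ P ∪ F := by simp [hP, hF]
  have e1 : ∑ j ∈ P, v' j = ∑ j ∈ P, v j := sum_congr rfl fun j hj => h3 j (mem_union_left _ hj)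
  have e2 : ∀ x : ℕ → ZMod 2, ∑ k ∈ P ∪ F, v' k * x k = ∑ k ∈ P ∪ F, v k * x k := fun x =>
    sum_congr rfl fun k hk => by rw [h3 k hk]
  have two := f2_two
  by_contra hcon
  simp only [GA, not_or, not_forall, insert_union, sum_insert hn, sum_insert hP, forall_mem_insert,
    h0, zero_mul, zero_add, e1, e2, h4, h5, h6] at hcon
  obtain ⟨⟨x, a, ⟨x0, x1⟩, x2, x3, x4⟩, y, b, ⟨y0, y1⟩, y2, y3, y4⟩ := hcon
  have y1' : ∀ i ∈ P, (α i 2 + (α i q + ∑ j ∈ P, α i j) + u i) * y i + u i * b +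
      (α i q * y q + ∑ k ∈ P ∪ F, α i k * y k) = 0 := fun i hi => by
    rw [← h1 i hi]; exact y1 i hi
  have y2' : ∀ i ∈ T, u i * b + (α i q * y q + ∑ k ∈ P ∪ F, α i k * y k) = 0 := fun i hi => by
    rw [← h2 i hi]; exact y2 i hi
  have key : ∀ (z : ℕ → ZMod 2), (∀ i ∈ P, (α i 2 + (α i q + ∑ j ∈ P, α i j) + u i) * z i +
      u i * z q + (α i q * z q + ∑ k ∈ P ∪ F, α i k * z k) = 0) →
      (∀ i ∈ T, u i * z q + (α i q * z q + ∑ k ∈ P ∪ F, α i k * z k) = 0) →
      (α q 2 + ∑ j ∈ P, α q j) * z q + ∑ k ∈ P ∪ F, α q k * z k +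
        ((v 2 + ∑ j ∈ P, v j) * z q + ∑ k ∈ P ∪ F, v k * z k) = 0 →
      z q = 0 ∧ ∀ k ∈ P ∪ F, z k = 0 := by
    intro z z1 z2 z3
    refine h z (z q) (fun i hi => by linear_combination z1 i hi)
      (fun i hi => by linear_combination z2 i hi) ?_
    simp only [add_mul, sum_add_distrib] at z3 ⊢
    linear_combination z3
  have hx : a = x q + 1 := by
    by_contra k
    obtain rfl : a = x q := f2_eq_of_ne k
    have := key x x1 x2 (by linear_combination x0 + x3 - (u q * x q + v q * x q) * two)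
    exact x4 ⟨this.1, this⟩
  have hy : b = y q + 1 := by
    by_contra k
    obtain rfl : b = y q := f2_eq_of_ne k
    have := key y y1' y2' (by
      linear_combination y0 + y3 - ((u q + 1) * y q + (v q + 1) * y q) * two)
    exact y4 ⟨this.1, this⟩
  subst hx hy
  have := key (fun k => x k - y k) (fun i hi => by
      simp only [mul_sub, sum_sub_distrib]
      linear_combination x1 i hi - y1' i hi) (fun i hi => by
      simp only [mul_sub, sum_sub_distrib]
      linear_combination x2 i hi - y2' i hi) (by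
      simp only [mul_sub, sum_sub_distrib]
      linear_combination x0 + x3 - y0 - y3 +
        (-(u q * x q) - v q * x q + (u q + 1) * y q + (v q + 1) * y q + 1) * two)
  have e3 : ∑ k ∈ P ∪ F, α q k * x k = ∑ k ∈ P ∪ F, α q k * y k :=
    sum_congr rfl fun k hk => by rw [sub_eq_zero.1 (this.2 k hk)]
  have e4 : x q = y q := sub_eq_zero.1 this.1
  rw [e3, e4] at x0
  have : (1 : ZMod 2) = 0 := by linear_combination y0 - x0 - y q * two
  exact one_ne_zero this

/-- A good type exists. -/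
lemma ga_ex (α : ℕ → ℕ → ZMod 2) {P T F : Finset ℕ} (h : Inj α T F) (hd : Disjoint P F)
    (hd2 : Disjoint T P) (hP : 0 ∉ P) (hT : 0 ∉ T) (hF : 0 ∉ F) (u0 v0 : ℕ → ZMod 2) :
    ∃ (δ : ℕ → ZMod 2) (e : ZMod 2), ∀ u v : ℕ → ZMod 2, (∀ i ∈ P, u i = δ i) →
      (∀ i ∈ P, v i = δ i) → (∀ i ∈ T, u i = u0 i) → (∀ k ∈ F, v k = v0 k) → v 2 = e →
      GA α P T F u v := by
  have hn : 0 ∉ P ∪ F := by simp [hP, hF]
  have nz : ∀ {U : Finset ℕ}, 0 ∉ U → ∀ i ∈ U, i ≠ 0 := fun hU i hi k => hU (k ▸ hi)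
  let A : ℕ → ℕ → ZMod 2 := fun i k =>
    if i = 0 then (if k = 0 then 0 else
      (if k ∈ P then α k 2 + ∑ j ∈ P, α k j else v0 k) + ∑ p ∈ P, α p k)
    else if k = 0 then (if i ∈ P then α i 2 else u0 i + ∑ j ∈ P, α i j) else α i k
  have eA : ∀ i, i ≠ 0 → ∀ y : ℕ → ZMod 2, ∑ k ∈ P ∪ F, A i k * y k = ∑ k ∈ P ∪ F, α i k * y k :=
    fun i hi y => sum_congr rfl fun k hk => by simp [A, hi, nz hn k hk]
  obtain ⟨δ, hδ⟩ := diag_ex A (T := T) (F := F) (fun x hx => h x fun i hi => by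
    rw [← hx i hi]
    exact sum_congr rfl fun k hk => by simp [A, nz hT i hi, nz hF k hk]) (insert 0 P)
    (by simp [hF, hd])
  refine ⟨fun i => δ i + (α i 2 + ∑ j ∈ P, α i j), δ 0 + ∑ p ∈ P, α p 2,
    fun u v h1 h2 h3 h4 h5 x ξ a1 a2 a3 => ?_⟩
  have two := f2_two
  let y : ℕ → ZMod 2 := fun k => if k = 0 then ξ else if k ∈ P then x k + ξ else x k
  have y0 : y 0 = ξ := by simp [y]
  have yP : ∀ k ∈ P, y k = x k + ξ := fun k hk => by simp [y, nz hP k hk, hk]
  have yF : ∀ k ∈ F, y k = x k := fun k hk => by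
    simp [y, nz hF k hk, disjoint_right.1 hd hk]
  have ey : ∀ f : ℕ → ZMod 2, ∑ k ∈ P ∪ F, f k * y k =
      ∑ k ∈ P ∪ F, f k * x k + (∑ j ∈ P, f j) * ξ := fun f => by
    rw [sum_union hd, sum_union hd, sum_congr rfl (g := fun k => f k * x k + f k * ξ)
      fun k hk => by rw [yP k hk, mul_add], sum_congr rfl (s₁ := F) (g := fun k => f k * x k)
      fun k hk => by rw [yF k hk], sum_add_distrib, sum_mul]
    ring
  have r1 : ∀ i ∈ P, δ i * y i + (α i 2 * ξ + ∑ k ∈ P ∪ F, α i k * y k) = 0 := fun i hi => by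
    have := a1 i hi
    rw [h1 i hi] at this
    rw [yP i hi, ey]
    linear_combination this - (α i 2 + ∑ j ∈ P, α i j) * x i * two
  have main := hδ y (by
    simp only [insert_union, sum_insert hn, forall_mem_insert]
    refine ⟨?_, fun i hi => ?_⟩
    · have s1 : ∑ i ∈ P, (δ i * y i + (α i 2 * ξ + ∑ k ∈ P ∪ F, α i k * y k)) = 0 :=
        sum_eq_zero r1
      have s2 : ∑ k ∈ P ∪ F, A 0 k * y k = ∑ k ∈ P ∪ F, v k * y k + ∑ k ∈ P, δ k * y k +
          ∑ i ∈ P, ∑ k ∈ P ∪ F, α i k * y k := by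
        rw [sum_comm, sum_union hd, sum_union hd, sum_union hd,
          sum_congr rfl (s₁ := P) (g := fun k => v k * y k + δ k * y k + ∑ i ∈ P, α i k * y k)
            fun k hk => by
              simp only [A, nz hP k hk, hk, if_true, if_false, h2 k hk, ← sum_mul]
              linear_combination (-(δ k * y k)) * two,
          sum_congr rfl (s₁ := F) (g := fun k => v k * y k + ∑ i ∈ P, α i k * y k)
            fun k hk => by
              simp only [A, nz hF k hk, disjoint_right.1 hd hk, if_true, if_false, h4 k hk,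
                ← sum_mul]
              ring]
        simp only [sum_add_distrib]
        ring
      rw [s2, ey v, y0]
      simp only [sum_add_distrib, ← sum_mul] at s1
      rw [h5] at a3
      simp only [A, if_true, zero_mul, zero_add]
      linear_combination s1 + a3 - (∑ p ∈ P, α p 2) * ξ * two
    · rw [eA i (nz hP i hi), y0]
      simpa [A, nz hP i hi, hi] using r1 i hi) fun i hi => by
    have hiP : i ∉ P := disjoint_left.1 hd2 hi
    rw [insert_union, sum_insert hn, eA i (nz hT i hi), y0, ey]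
    have := a2 i hi
    rw [h3 i hi] at this
    simp only [A, nz hT i hi, hiP, if_true, if_false]
    linear_combination this + (∑ j ∈ P, α i j) * ξ * two
  have m0 : ξ = 0 := y0 ▸ main 0 (by simp)
  refine ⟨m0, fun k hk => ?_⟩
  have := main k (by rw [insert_union]; exact mem_insert_of_mem hk)
  rcases mem_union.1 hk with hk | hk
  · simpa [yP k hk, m0] using this
  · rwa [yF k hk] at this

end Pool.Agent.Lib.MP_90cf6f_nt.Uni
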