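import Pool.Agent.Lib.MP_90cf6f_nt.Den.Desc
import Pool.Agent.Lib.MP_90cf6f_nt.Uni.Lin

/-! The descent as a linear system. -/

namespace Pool.Agent.Lib.MP_90cf6f_nt.Uni

open Finset NumberTheorySymbols Den

/-- A sign, written additively. -/
def sg (j : ℤ) : ZMod 2 := if j = -1 then 1 else 0

/-- The class modulo four, written additively. -/
def ga (k : ℕ) : ZMod 2 := if k % 4 = 3 then 1 else 0

/-- The residue symbols, written additively; the row of `2` is the character modulo four. -/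
def al (i k : ℕ) : ZMod 2 := if i = 2 then ga k else sg J(k | i)

/-- Plus or minus one. -/
def PM (a : ℤ) : Prop := a = 1 ∨ a = -1

lemma PM.mul {a b : ℤ} (ha : PM a) (hb : PM b) : PM (a * b) := by
  rcases ha with rfl | rfl <;> rcases hb with rfl | rfl <;> simp [PM]

lemma PM.sq {a : ℤ} (ha : PM a) : a * a = 1 := by rcases ha with rfl | rfl <;> simp

lemma PM.ne {a : ℤ} (ha : PM a) : a ≠ 0 := by rcases ha with rfl | rfl <;> simp

lemma sg_one : sg 1 = 0 := by simp [sg]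

lemma sg_neg : sg (-1) = 1 := by simp [sg]

lemma sg_mul {a b : ℤ} (ha : PM a) (hb : PM b) : sg (a * b) = sg a + sg b := by
  rcases ha with rfl | rfl <;> rcases hb with rfl | rfl <;> simp [sg, f2_add_self]

lemma pm_jac {a : ℤ} {n : ℕ} (h : a.gcd n = 1) : PM J(a | n) := jacobiSym.eq_one_or_neg_one h

lemma pm_jac' {a n : ℕ} (h : a.Coprime n) : PM J(a | n) := pm_jac (by simpa using h)

lemma cop_of_pm {a n : ℕ} (hn : n ≠ 0) (h : PM J(a | n)) : a.Coprime n := by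
  have : NeZero n := ⟨hn⟩
  have := h.ne
  rw [Ne, jacobiSym.eq_zero_iff_not_coprime, not_not] at this
  simpa using this

lemma ga_mul {a b : ℕ} (ha : Odd a) (hb : Odd b) : ga (a * b) = ga a + ga b := by
  have h1 := Nat.odd_iff.1 ha
  have h2 := Nat.odd_iff.1 hb
  unfold ga
  rw [Nat.mul_mod]
  rcases (by omega : a % 4 = 1 ∨ a % 4 = 3) with k | k <;>
    rcases (by omega : b % 4 = 1 ∨ b % 4 = 3) with k' | k' <;> simp [k, k', f2_add_self]

lemma ga_prod {D : Finset ℕ} (h : ∀ k ∈ D, Odd k) :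
    Odd (∏ k ∈ D, k) ∧ ga (∏ k ∈ D, k) = ∑ k ∈ D, ga k := by
  induction D using Finset.induction_on with
  | empty => simp [ga]
  | insert a D ha ih =>
    rw [forall_mem_insert] at h
    obtain ⟨i1, i2⟩ := ih h.2
    rw [prod_insert ha, sum_insert ha, ga_mul h.1 i1, i2]
    exact ⟨h.1.mul i1, rfl⟩

lemma jac_prod {D : Finset ℕ} {i : ℕ} (h : ∀ k ∈ D, k.Coprime i) :
    PM J((∏ k ∈ D, k : ℕ) | i) ∧ sg J((∏ k ∈ D, k : ℕ) | i) = ∑ k ∈ D, sg J(k | i) := by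
  induction D using Finset.induction_on with
  | empty => simp [PM, sg]
  | insert a D ha ih =>
    rw [forall_mem_insert] at h
    obtain ⟨i1, i2⟩ := ih h.2
    rw [prod_insert ha, sum_insert ha, Nat.cast_mul, jacobiSym.mul_left, sg_mul (pm_jac' h.1) i1,
      i2]
    exact ⟨(pm_jac' h.1).mul i1, rfl⟩

lemma jac_self {i : ℕ} (hi : 1 < i) : J(i | i) = 0 := by
  rw [jacobiSym.mod_left, Int.emod_self, jacobiSym.zero_left hi]

lemma al_self {i : ℕ} (hi : 1 < i) : al i i = 0 := by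
  unfold al
  split_ifs with h
  · simp [h, ga]
  · simp [jac_self hi, sg]

lemma al_odd {i : ℕ} (hi : Odd i) (k : ℕ) : al i k = sg J(k | i) :=
  if_neg (by rintro rfl; exact absurd hi (by decide))

lemma al_two (k : ℕ) : al 2 k = ga k := if_pos rfl

lemma jac_sign {s : ℤ} (hs : PM s) {i : ℕ} (hi : Odd i) :
    PM J(s | i) ∧ sg J(s | i) = ga i * sg s := by
  rcases hs with rfl | rfl
  · simp [PM, sg]
  · rw [alg_neg hi]
    unfold ga
    split_ifs <;> simp [PM, sg]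

lemma al_recip {i k : ℕ} (hi : Odd i) (hk : Odd k) (h : i.Coprime k) :
    al i k = al k i + ga i * ga k := by
  have h1 := congrArg sg (alg_pair hi hk h)
  rw [sg_mul (pm_jac' h) (pm_jac' h.symm)] at h1
  rw [al_odd hi, al_odd hk]
  have h2 : sg (if i % 4 = 3 ∧ k % 4 = 3 then -1 else 1) = ga i * ga k := by
    unfold ga
    by_cases a : i % 4 = 3 <;> by_cases b : k % 4 = 3 <;> simp [a, b, sg]
  linear_combination h1 + h2 - sg J(i | k) * f2_two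

lemma ga_sq (k : ℕ) : ga k * ga k = ga k := by unfold ga; split_ifs <;> simp

lemma jac_signed {D : Finset ℕ} {i : ℕ} (hi : Odd i) (h : ∀ k ∈ D, k.Coprime i) {s : ℤ}
    (hs : PM s) : PM J(s * (∏ k ∈ D, k : ℕ) | i) ∧
      sg J(s * (∏ k ∈ D, k : ℕ) | i) = ga i * sg s + ∑ k ∈ D, al i k := by
  rw [jacobiSym.mul_left, sg_mul (jac_sign hs hi).1 (jac_prod h).1, (jac_sign hs hi).2,
    (jac_prod h).2]
  exact ⟨(jac_sign hs hi).1.mul (jac_prod h).1, by simp only [al_odd hi]⟩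

lemma mod_four_iff {s : ℤ} (hs : PM s) {m : ℕ} (hm : Odd m) :
    (s * m) % 4 = 1 ↔ sg s + ga m = 0 := by
  have h1 := Nat.odd_iff.1 hm
  unfold ga
  rcases hs with rfl | rfl <;> split_ifs with h <;> simp [sg, f2_add_self] <;> omega

lemma loc_L1 {p : ℕ} (hp : p.Prime) {d e u v w : ℤ} (huv : IsCoprime u v)
    (h : w ^ 2 = d * u ^ 4 + p ^ 3 * e * v ^ 4) (hd : ¬ (p : ℤ) ∣ d) (he : ¬ (p : ℤ) ∣ e) :
    J(d | p) = 1 := by
  have pp := Nat.prime_iff_prime_int.1 hp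
  have hu : ¬ (p : ℤ) ∣ u := by
    rintro ⟨k, rfl⟩
    have hv : ¬ (p : ℤ) ∣ v := fun k' => pp.not_isUnit (huv.isUnit_of_dvd' (dvd_mul_right _ _) k')
    obtain ⟨w', rfl⟩ : (p : ℤ) ∣ w := pp.dvd_of_dvd_pow (n := 2)
      ⟨d * p ^ 3 * k ^ 4 + p ^ 2 * e * v ^ 4, by linarith⟩
    have h1 : w' ^ 2 = d * p ^ 2 * k ^ 4 + p * e * v ^ 4 :=
      mul_left_cancel₀ (pow_ne_zero 2 pp.ne_zero) (by linarith)
    obtain ⟨w'', rfl⟩ : (p : ℤ) ∣ w' := pp.dvd_of_dvd_pow (n := 2)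
      ⟨d * p * k ^ 4 + e * v ^ 4, by linarith⟩
    have h2 : e * v ^ 4 = p * (w'' ^ 2 - d * k ^ 4) := mul_left_cancel₀ pp.ne_zero (by linarith)
    rcases pp.dvd_or_dvd (⟨_, h2⟩ : (p : ℤ) ∣ e * v ^ 4) with k' | k'
    · exact he k'
    · exact hv (pp.dvd_of_dvd_pow k')
  exact alg_one hp (w := w) (u := u ^ 2) ⟨p ^ 2 * e * v ^ 4, by linarith⟩ hd
    fun k => hu (pp.dvd_of_dvd_pow k)

lemma loc_L5 {p : ℕ} (hp : p.Prime) {d e u v w : ℤ} (huv : IsCoprime u v)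
    (h : w ^ 2 = p * d * u ^ 4 + p ^ 2 * e * v ^ 4) (hd : ¬ (p : ℤ) ∣ d) (he : ¬ (p : ℤ) ∣ e) :
    J(e | p) = 1 := by
  have pp := Nat.prime_iff_prime_int.1 hp
  obtain ⟨w', rfl⟩ : (p : ℤ) ∣ w := pp.dvd_of_dvd_pow (n := 2)
    ⟨d * u ^ 4 + p * e * v ^ 4, by linarith⟩
  have h1 : d * u ^ 4 = p * (w' ^ 2 - e * v ^ 4) := mul_left_cancel₀ pp.ne_zero (by linarith)
  obtain ⟨k, rfl⟩ : (p : ℤ) ∣ u :=
    pp.dvd_of_dvd_pow ((pp.dvd_or_dvd (⟨_, h1⟩ : (p : ℤ) ∣ d * u ^ 4)).resolve_left hd)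
  have hv : ¬ (p : ℤ) ∣ v := fun k' => pp.not_isUnit (huv.isUnit_of_dvd' (dvd_mul_right _ _) k')
  have h2 : w' ^ 2 - e * (v ^ 2) ^ 2 = p * (d * p ^ 2 * k ^ 4) :=
    mul_left_cancel₀ pp.ne_zero (by linarith)
  exact alg_one hp ⟨_, h2⟩ he fun k' => hv (pp.dvd_of_dvd_pow k')

/-- The local conditions at a prime of odd exponent. -/
lemma loc_P {p : ℕ} (hp : p.Prime) {m R d e u v w : ℤ} (hm : ¬ (p : ℤ) ∣ m)
    (hR : ¬ (p : ℤ) ^ 2 ∣ R) (hd : Squarefree d) (hde : d * e = p * m * R ^ 2)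
    (huv : IsCoprime u v) (h : w ^ 2 = d * u ^ 4 + e * v ^ 4) :
    (¬ (p : ℤ) ∣ d → J(d | p) = 1) ∧ ∀ d' : ℤ, d = p * d' → J(m * d' | p) = 1 := by
  have pp := Nat.prime_iff_prime_int.1 hp
  have n0 : ∀ d' : ℤ, d = p * d' → ¬ (p : ℤ) ∣ d' := by
    rintro _ hd' ⟨k, rfl⟩
    exact pp.not_isUnit (hd p ⟨k, by rw [hd']; ring⟩)
  by_cases n2 : (p : ℤ) ∣ R
  · obtain ⟨R, rfl⟩ := n2
    have n3 : ¬ (p : ℤ) ∣ m * R ^ 2 := fun k => (pp.dvd_or_dvd k).elim hm fun k => by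
      obtain ⟨j, rfl⟩ := pp.dvd_of_dvd_pow k
      exact hR ⟨j, by ring⟩
    refine ⟨fun hpd => ?_, fun d' hd' => ?_⟩
    · obtain ⟨e', rfl⟩ : (p : ℤ) ^ 3 ∣ e := IsCoprime.dvd_of_dvd_mul_left (y := d)
        (pp.coprime_iff_not_dvd.2 hpd).pow_left ⟨m * R ^ 2, by linarith⟩
      have e2 : d * e' = m * R ^ 2 := mul_left_cancel₀ (pow_ne_zero 3 pp.ne_zero) (by linarith)
      exact loc_L1 hp huv h hpd fun k => n3 (e2 ▸ k.mul_left _)
    · have e1 : d' * e = p ^ 2 * (m * R ^ 2) :=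
        mul_left_cancel₀ pp.ne_zero (by rw [hd'] at hde; linarith)
      obtain ⟨e', rfl⟩ : (p : ℤ) ^ 2 ∣ e := IsCoprime.dvd_of_dvd_mul_left (y := d')
        (pp.coprime_iff_not_dvd.2 (n0 d' hd')).pow_left ⟨_, e1⟩
      have e2 : d' * e' = m * R ^ 2 := mul_left_cancel₀ (pow_ne_zero 2 pp.ne_zero) (by linarith)
      have e3 := loc_L5 hp huv (hd' ▸ h) (n0 d' hd') fun k => n3 (e2 ▸ k.mul_left _)
      refine alg_of_sq (k := R) ?_
      rw [show R ^ 2 * (m * d') = d' ^ 2 * e' by linear_combination -d' * e2,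
        alg_sq_mul hp (n0 d' hd'), e3]
  · have n3 : ¬ (p : ℤ) ∣ m * R ^ 2 := fun k =>
      (pp.dvd_or_dvd k).elim hm fun k => n2 (pp.dvd_of_dvd_pow k)
    refine ⟨fun hpd => alg_L1 hp huv h hpd ?_ ?_, fun d' hd' => ?_⟩
    · exact (pp.dvd_or_dvd (⟨m * R ^ 2, by linarith⟩ : (p : ℤ) ∣ d * e)).resolve_left hpd
    · rintro ⟨k, rfl⟩
      exact n3 ⟨d * k, mul_left_cancel₀ pp.ne_zero (by linarith)⟩
    · have e1 : d' * e = m * R ^ 2 := mul_left_cancel₀ pp.ne_zero (by rw [hd'] at hde; linarith)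
      have e2 : J(e | p) = 1 := alg_L1 hp huv.symm (h.trans (add_comm _ _))
        (fun k => n3 (e1 ▸ k.mul_left _)) ⟨d', hd'⟩ fun k => pp.not_isUnit (hd p (by rwa [← sq]))
      refine alg_of_sq (k := R) ?_
      rw [show R ^ 2 * (m * d') = d' ^ 2 * e by linear_combination -d' * e1,
        alg_sq_mul hp (n0 d' hd'), e2]

/-- The local conditions at a prime of exponent two. -/
lemma loc_Q {q : ℕ} (hp : q.Prime) {m R d e u v w : ℤ} (hm : ¬ (q : ℤ) ∣ m) (hR : ¬ (q : ℤ) ∣ R)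
    (hd : Squarefree d) (hde : d * e = m * (q * R) ^ 2) (huv : IsCoprime u v)
    (h : w ^ 2 = d * u ^ 4 + e * v ^ 4) :
    (J(-m | q) = -1 → ¬ (q : ℤ) ∣ d) ∧ (¬ (q : ℤ) ∣ d → J(m | q) = 1 → J(d | q) = 1) := by
  have pp := Nat.prime_iff_prime_int.1 hp
  have n3 : ¬ (q : ℤ) ∣ R ^ 2 * m := fun k =>
    (pp.dvd_or_dvd k).elim (fun k => hR (pp.dvd_of_dvd_pow k)) hm
  refine ⟨fun hj => ?_, fun n4 hj => ?_⟩
  · rintro ⟨d', rfl⟩
    have n5 : ¬ (q : ℤ) ∣ d' := by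
      rintro ⟨k, rfl⟩
      exact pp.not_isUnit (hd q ⟨k, by ring⟩)
    have e1 : d' * e = q * (R ^ 2 * m) := mul_left_cancel₀ pp.ne_zero (by linarith)
    obtain ⟨e', rfl⟩ := (pp.dvd_or_dvd (⟨_, e1⟩ : (q : ℤ) ∣ d' * e)).resolve_left n5
    have e2 : d' * e' = R ^ 2 * m := mul_left_cancel₀ pp.ne_zero (by linarith)
    have := alg_L3 hp huv h (e2 ▸ n3)
    rw [e2, ← mul_neg, alg_sq_mul hp hR, hj] at this
    omega
  · obtain ⟨e', rfl⟩ : (q : ℤ) ^ 2 ∣ e := IsCoprime.dvd_of_dvd_mul_left (y := d)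
      (pp.coprime_iff_not_dvd.2 n4).pow_left ⟨R ^ 2 * m, by linarith⟩
    have e2 : d * e' = R ^ 2 * m := mul_left_cancel₀ (pow_ne_zero 2 pp.ne_zero) (by linarith)
    exact alg_L4 hp huv h (e2 ▸ n3) (by rw [e2, alg_sq_mul hp hR, hj])

lemma mem_of_dvd_prod {D : Finset ℕ} (hD : ∀ k ∈ D, k.Prime) {p : ℕ} (hp : p.Prime)
    (h : p ∣ ∏ k ∈ D, k) : p ∈ D := by
  obtain ⟨q, hq, k⟩ := hp.prime.exists_mem_finset_dvd h
  rwa [(Nat.prime_dvd_prime_iff_eq hp (hD q hq)).1 k]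

lemma cop_of_notMem {D : Finset ℕ} (hD : ∀ k ∈ D, k.Prime) {p : ℕ} (hp : p.Prime) (h : p ∉ D) :
    ∀ k ∈ D, k.Coprime p := fun k hk =>
  (Nat.coprime_primes (hD k hk) hp).2 fun e => h (e ▸ hk)

/-- All local conditions, additively. -/
lemma loc {P G : Finset ℕ} (hP : ∀ p ∈ P, p.Prime ∧ Odd p) (hG : ∀ q ∈ G, q.Prime ∧ Odd q ∧ q ∉ P)
    {c j : ℕ} (hc : c ∣ ∏ p ∈ P, p) {σ : ℤ} (hσ : PM σ) {d e u v w : ℤ} (hd : Squarefree d)
    (hdo : Odd d)
    (hde : d * e = σ * 2 * (∏ p ∈ P, p : ℕ) * ((2 ^ j * c * ∏ q ∈ G, q : ℕ) : ℤ) ^ 2)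
    (huv : IsCoprime u v) (h : w ^ 2 = d * u ^ 4 + e * v ^ 4) :
    ∃ (s : ℤ) (D : Finset ℕ), PM s ∧ d = s * (∏ k ∈ D, k : ℕ) ∧ D ⊆ P ∪ G ∧
      (∀ p ∈ P, ga p * sg s + ∑ k ∈ D, al p k +
        (if p ∈ D then ga p * sg σ + (al p 2 + ∑ j ∈ P, al p j) else 0) = 0) ∧
      ∀ q ∈ G, (J(-(σ * 2 * (∏ p ∈ P, p : ℕ)) | q) = -1 → q ∉ D) ∧
        (q ∉ D → J(σ * 2 * (∏ p ∈ P, p : ℕ) | q) = 1 → ga q * sg s + ∑ k ∈ D, al q k = 0) := by
  have hP1 : ∀ p ∈ P, p.Prime := fun p hp => (hP p hp).1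
  have hG1 : ∀ p ∈ G, p.Prime := fun p hp => (hG p hp).1
  obtain ⟨s, D, hs, hD, rfl⟩ : ∃ (s : ℤ) (D : Finset ℕ), PM s ∧ (∀ k ∈ D, k.Prime) ∧
      d = s * (∏ k ∈ D, k : ℕ) := by
    have h1 := Nat.prod_primeFactors_of_squarefree (Int.squarefree_natAbs.2 hd)
    rcases Int.natAbs_eq d with k | k
    · exact ⟨1, _, Or.inl rfl, fun k => Nat.prime_of_mem_primeFactors, by rw [h1]; omega⟩
    · exact ⟨-1, _, Or.inr rfl, fun k => Nat.prime_of_mem_primeFactors, by rw [h1]; omega⟩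
  have hdv : ∀ p : ℕ, p.Prime → ((p : ℤ) ∣ s * (∏ k ∈ D, k : ℕ) ↔ p ∈ D) := fun p hp => by
    constructor
    · intro k
      refine mem_of_dvd_prod hD hp (Int.natCast_dvd_natCast.1 ?_)
      rcases hs with rfl | rfl <;> simpa using k
    · exact fun k => (Int.natCast_dvd_natCast.2 (dvd_prod_of_mem _ k)).mul_left _
  have n2 : ∀ {p : ℕ}, p.Prime → Odd p → ¬ p ∣ 2 ^ j := fun hp ho k => by
    rw [(Nat.prime_dvd_prime_iff_eq hp Nat.prime_two).1 (hp.dvd_of_dvd_pow k)] at ho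
    exact absurd ho (by decide)
  refine ⟨s, D, hs, rfl, fun p hpD => ?_, fun p hp => ?_, fun q hq => ?_⟩
  · have hp := hD p hpD
    have pp := Nat.prime_iff_prime_int.1 hp
    have k0 := (hdv p hp).2 hpD
    have po : Odd p := Int.odd_coe_nat p |>.1 (alg_odd hdo k0)
    rcases pp.dvd_or_dvd (hde ▸ k0.mul_right e) with k | k
    · exact mem_union_left _ (mem_of_dvd_prod hP1 hp (Int.natCast_dvd_natCast.1
        ((pp.dvd_or_dvd k).resolve_left (alg_two hp po hσ))))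
    · rcases (Nat.Prime.dvd_mul hp).1 (Int.natCast_dvd_natCast.1 (pp.dvd_of_dvd_pow k)) with k | k
      · exact mem_union_left _ (mem_of_dvd_prod hP1 hp
          ((((Nat.Prime.dvd_mul hp).1 k).resolve_left (n2 hp po)).trans hc))
      · exact mem_union_right _ (mem_of_dvd_prod hG1 hp k)
  · obtain ⟨p1, po⟩ := hP p hp
    have pp := Nat.prime_iff_prime_int.1 p1
    have c1 := cop_of_notMem (fun k hk => hP1 k (mem_of_mem_erase hk)) p1 (notMem_erase p P)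
    have nb : ¬ p ∣ ∏ k ∈ P.erase p, k := fun k => notMem_erase p P
      (mem_of_dvd_prod (fun k hk => hP1 k (mem_of_mem_erase hk)) p1 k)
    have := loc_P p1 (m := σ * 2 * (∏ k ∈ P.erase p, k : ℕ)) (R := (2 ^ j * c * ∏ q ∈ G, q : ℕ))
      (fun k => (pp.dvd_or_dvd k).elim (alg_two p1 po hσ) fun k => nb (Int.natCast_dvd_natCast.1 k))
      (fun k => by
        have k1 : p ^ 2 ∣ 2 ^ j * c * ∏ q ∈ G, q := by exact_mod_cast k
        have k2 : p ^ 2 ∣ c := Nat.Coprime.dvd_of_dvd_mul_left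
          (((Nat.Prime.coprime_iff_not_dvd p1).2 (n2 p1 po)).pow_left 2)
          (Nat.Coprime.dvd_of_dvd_mul_right (((Nat.Prime.coprime_iff_not_dvd p1).2 fun k =>
            (hG p (mem_of_dvd_prod hG1 p1 k)).2.2 hp).pow_left 2) k1)
        have k3 := k2.trans hc
        rw [← mul_prod_erase P (fun k => k) hp, sq] at k3
        exact nb (Nat.dvd_of_mul_dvd_mul_left p1.pos k3))
      hd (e := e) (by rw [hde, ← mul_prod_erase P (fun k => k) hp]; push_cast; ring) huv h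
    split_ifs with hpD
    · have c2 := cop_of_notMem (fun k hk => hD k (mem_of_mem_erase hk)) p1 (notMem_erase p D)
      have j1 := congrArg sg (this.2 (s * (∏ k ∈ D.erase p, k : ℕ))
        (by rw [← mul_prod_erase D (fun k => k) hpD]; push_cast; ring))
      have c3 : PM J(((2 : ℕ) : ℤ) | p) := pm_jac' ((Nat.coprime_primes Nat.prime_two p1).2
        (by rintro rfl; exact absurd po (by decide)))
      rw [show σ * 2 * (∏ k ∈ P.erase p, k : ℕ) * (s * (∏ k ∈ D.erase p, k : ℕ)) =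
        ((2 : ℕ) : ℤ) * ((σ * (∏ k ∈ P.erase p, k : ℕ)) * (s * (∏ k ∈ D.erase p, k : ℕ))) by
          push_cast; ring, jacobiSym.mul_left, jacobiSym.mul_left,
        sg_mul c3 ((jac_signed po c1 hσ).1.mul (jac_signed po c2 hs).1),
        sg_mul (jac_signed po c1 hσ).1 (jac_signed po c2 hs).1, (jac_signed po c1 hσ).2,
        (jac_signed po c2 hs).2, sum_erase _ (al_self p1.one_lt), sum_erase _ (al_self p1.one_lt),
        ← al_odd po, sg_one] at j1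
      linear_combination j1
    · have j1 := congrArg sg (this.1 fun k => hpD ((hdv p p1).1 k))
      rw [(jac_signed po (cop_of_notMem hD p1 hpD) hs).2, sg_one] at j1
      rw [j1, add_zero]
  · obtain ⟨p1, po, pP⟩ := hG q hq
    have pp := Nat.prime_iff_prime_int.1 p1
    have nb : ¬ q ∣ ∏ k ∈ P, k := fun k => pP (mem_of_dvd_prod hP1 p1 k)
    have := loc_Q p1 (m := σ * 2 * (∏ k ∈ P, k : ℕ)) (R := (2 ^ j * c * ∏ k ∈ G.erase q, k : ℕ))
      (fun k => (pp.dvd_or_dvd k).elim (alg_two p1 po hσ) fun k => nb (Int.natCast_dvd_natCast.1 k))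
      (fun k => by
        rcases (Nat.Prime.dvd_mul p1).1 (Int.natCast_dvd_natCast.1 k) with k | k
        · exact ((Nat.Prime.dvd_mul p1).1 k).elim (n2 p1 po) fun k => nb (k.trans hc)
        · exact notMem_erase q G
            (mem_of_dvd_prod (fun k hk => hG1 k (mem_of_mem_erase hk)) p1 k))
      hd (e := e) (by rw [hde, ← mul_prod_erase G (fun k => k) hq]; push_cast; ring) huv h
    refine ⟨fun k k' => this.1 k ((hdv q p1).2 k'), fun k k' => ?_⟩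
    have j1 := congrArg sg (this.2 (fun k'' => k ((hdv q p1).1 k'')) k')
    rwa [(jac_signed po (cop_of_notMem hD p1 k) hs).2, sg_one] at j1

end Pool.Agent.Lib.MP_90cf6f_nt.Uni
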