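import Pool.Agent.Lib.MP_90cf6f_nt.Uni.Bad
import Pool.Agent.Lib.MP_90cf6f_nt.Uni.Sel
import Pool.Agent.Lib.MP_458f0b_nt.Pois.BH
import Pool.Agent.Lib.MP_458f0b_nt.Pois.Arith

/-! Many rough squarefree numbers with prescribed residue symbols. -/

namespace Pool.Agent.Lib.MP_90cf6f_nt.Uni

open Finset NumberTheorySymbols

/-- The detector of the symbol at `p`. -/
noncomputable def wt (ε : ℕ → ℤ) (p n : ℕ) : ℝ :=
  1 - (if p ∣ n then 1 else 0) + ε p * J(n | p)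

lemma prog_mul {y c m p : ℕ} (h : m.Coprime p) :
    Prog y c (m * p) = (Prog y c m).filter fun n => p ∣ n := by
  unfold Prog
  rw [filter_filter]
  refine filter_congr fun n _ => ⟨fun k => ⟨⟨k.1, dvd_of_mul_right_dvd k.2⟩,
    dvd_of_mul_left_dvd k.2⟩, fun k => ⟨k.1.1, h.mul_dvd_of_dvd_of_dvd k.1.2 k.2⟩⟩

lemma phi_bound {S0 : Finset ℕ} (h0 : ∀ p ∈ S0, p.Prime ∧ Odd p) {ε : ℕ → ℤ}
    (hε : ∀ p ∈ S0, PM (ε p)) {y c : ℕ} (hc : c < 8) (hco : Odd c) {E : ℝ} (hE : 1 ≤ E)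
    (hg : ∀ D ⊆ S0, D.Nonempty → GoodD y E (∏ p ∈ D, p)) (S : Finset ℕ) :
    S ⊆ S0 → ∀ (D : Finset ℕ) (m : ℕ), D ⊆ S0 → Disjoint D S → Odd m → (∀ p ∈ S, m.Coprime p) →
      |∑ n ∈ Prog y c m, (J(n | ∏ p ∈ D, p) : ℝ) * ∏ p ∈ S, wt ε p n -
        if D = ∅ then y / (8 * m) * ∏ p ∈ S, (1 - (p : ℝ)⁻¹) else 0| ≤ 3 ^ S.card * E := by
  induction S using Finset.induction_on with
  | empty =>
    intro _ D m hD _ hm _
    simp only [prod_empty, mul_one, card_empty, pow_zero, one_mul]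
    split_ifs with h
    · subst h
      simpa using (prog_card hc hm y).trans hE
    · simpa using hg D hD (nonempty_iff_ne_empty.2 h) c hc hco m hm
  | insert p S hp ih =>
    intro hS D m hD hd hm hcop
    rw [insert_subset_iff] at hS
    rw [disjoint_insert_right] at hd
    rw [forall_mem_insert] at hcop
    obtain ⟨p1, p2⟩ := h0 p hS.1
    have i1 := ih hS.2 D m hD hd.2 hm hcop.2
    have i2 := ih hS.2 D (m * p) hD hd.2 (hm.mul p2) fun q hq => Nat.Coprime.mul_left (hcop.2 q hq)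
      ((Nat.coprime_primes p1 (h0 q (hS.2 hq)).1).2 fun e => hp (e ▸ hq))
    have i3 := ih hS.2 (insert p D) m (insert_subset hS.1 hD) (disjoint_insert_left.2 ⟨hp, hd.2⟩)
      hm hcop.2
    rw [if_neg (insert_ne_empty _ _), sub_zero, prod_insert hd.1] at i3
    rw [prog_mul hcop.1, sum_filter] at i2
    have hD0 : ∏ p ∈ D, p ≠ 0 := prod_ne_zero_iff.2 fun q hq => (h0 q (hD hq)).1.ne_zero
    have e1 : ∑ n ∈ Prog y c m, (J(n | ∏ p ∈ D, p) : ℝ) * ∏ q ∈ insert p S, wt ε q n =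
        ∑ n ∈ Prog y c m, (J(n | ∏ p ∈ D, p) : ℝ) * ∏ q ∈ S, wt ε q n -
        ∑ n ∈ Prog y c m, (if p ∣ n then (J(n | ∏ p ∈ D, p) : ℝ) * ∏ q ∈ S, wt ε q n else 0) +
        ε p * ∑ n ∈ Prog y c m, (J(n | p * ∏ p ∈ D, p) : ℝ) * ∏ q ∈ S, wt ε q n := by
      rw [mul_sum, ← sum_sub_distrib, ← sum_add_distrib]
      refine sum_congr rfl fun n _ => ?_
      rw [prod_insert hp, jacobiSym.mul_right' _ p1.ne_zero hD0, wt]
      push_cast
      split_ifs <;> ring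
    have e2 : (if D = ∅ then (y : ℝ) / (8 * m) * ∏ q ∈ insert p S, (1 - (q : ℝ)⁻¹) else 0) =
        (if D = ∅ then (y : ℝ) / (8 * m) * ∏ q ∈ S, (1 - (q : ℝ)⁻¹) else 0) -
        if D = ∅ then (y : ℝ) / (8 * (m * p : ℕ)) * ∏ q ∈ S, (1 - (q : ℝ)⁻¹) else 0 := by
      have : (p : ℝ) ≠ 0 := by exact_mod_cast p1.ne_zero
      have : (m : ℝ) ≠ 0 := by exact_mod_cast hm.pos.ne'
      split_ifs
      · rw [prod_insert hp]
        push_cast
        field_simp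
      · ring
    rw [e1, e2, card_insert_of_notMem hp, pow_succ]
    rw [abs_le] at i1 i2 i3 ⊢
    rcases hε p hS.1 with k | k <;> rw [k] <;> simp only [Int.cast_one, Int.cast_neg] <;>
      constructor <;> linarith [i1.1, i1.2, i2.1, i2.2, i3.1, i3.2]

lemma wt_eq {ε : ℕ → ℤ} {p : ℕ} (hp : p.Prime) (h : PM (ε p)) (n : ℕ) :
    wt ε p n = if J(n | p) = ε p then 2 else 0 := by
  unfold wt
  by_cases k : p ∣ n
  · have : J(n | p) = 0 := by
      obtain ⟨j, rfl⟩ := k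
      rw [Nat.cast_mul, jacobiSym.mul_left, jac_self hp.one_lt, zero_mul]
    rw [if_pos k, this, if_neg h.ne.symm]
    simp
  · rw [if_neg k]
    rcases pm_jac' ((Nat.Prime.coprime_iff_not_dvd hp).2 k).symm with j | j <;>
      rcases h with h | h <;> rw [j, h] <;> norm_num

lemma cnt_bound {S : Finset ℕ} (h0 : ∀ p ∈ S, p.Prime ∧ Odd p) {ε : ℕ → ℤ}
    (hε : ∀ p ∈ S, PM (ε p)) {y c : ℕ} (hc : c < 8) (hco : Odd c) {E : ℝ} (hE : 1 ≤ E)
    (hg : ∀ D ⊆ S, D.Nonempty → GoodD y E (∏ p ∈ D, p)) {m : ℕ} (hm : Odd m)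
    (hcop : ∀ p ∈ S, m.Coprime p) :
    |2 ^ S.card * (((Prog y c m).filter fun n : ℕ => ∀ p ∈ S, J(n | p) = ε p).card : ℝ) -
      y / (8 * m) * ∏ p ∈ S, (1 - (p : ℝ)⁻¹)| ≤ 3 ^ S.card * E := by
  have := phi_bound h0 hε hc hco hE hg S Subset.rfl ∅ m (empty_subset _) (by simp) hm hcop
  rw [if_pos rfl] at this
  have e : ∑ n ∈ Prog y c m, (J(n | ∏ p ∈ (∅ : Finset ℕ), p) : ℝ) * ∏ p ∈ S, wt ε p n =
      2 ^ S.card * (((Prog y c m).filter fun n : ℕ => ∀ p ∈ S, J(n | p) = ε p).card : ℝ) := by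
    rw [card_eq_sum_ones ((Prog y c m).filter _), Nat.cast_sum, mul_sum, sum_filter]
    refine sum_congr rfl fun n _ => ?_
    rw [prod_congr rfl fun p hp => wt_eq (h0 p hp).1 (hε p hp) n, prod_ite_zero]
    simp
  rwa [e] at this

lemma nonsq_count (y : ℕ) {z : ℕ} (hz : 1 ≤ z) :
    (((range y).filter fun n => n ≠ 0 ∧ ¬ Squarefree n ∧ ∀ p ∈ n.primeFactors, z < p).card : ℝ) ≤
      y / z := by
  have h1 : ((range y).filter fun n => n ≠ 0 ∧ ¬ Squarefree n ∧ ∀ p ∈ n.primeFactors, z < p) ⊆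
      (Ioc z y).biUnion fun p => (range (y + 1)).filter fun n => n ≠ 0 ∧ p ^ 2 ∣ n := by
    intro n hn
    obtain ⟨a0, a1, a2, a3⟩ := mem_filter.1 hn
    rw [Nat.squarefree_iff_prime_squarefree] at a2
    push Not at a2
    obtain ⟨p, p1, p2⟩ := a2
    have p3 : p ∣ n := (dvd_mul_right p p).trans p2
    have a4 := mem_range.1 a0
    have p4 := Nat.le_of_dvd (Nat.pos_of_ne_zero a1) p3
    exact mem_biUnion.2 ⟨p, mem_Ioc.2 ⟨a3 p (Nat.mem_primeFactors.2 ⟨p1, p3, a1⟩), by omega⟩,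
      mem_filter.2 ⟨mem_range.2 (by omega), a1, by rwa [sq]⟩⟩
  have h2 := (card_le_card h1).trans card_biUnion_le
  have h3 := MP_458f0b_nt.sum_inv_sq_le (Ioc z y) hz fun p hp => (mem_Ioc.1 hp).1
  calc _ ≤ ((∑ p ∈ Ioc z y, ((range (y + 1)).filter fun n => n ≠ 0 ∧ p ^ 2 ∣ n).card : ℕ) : ℝ) := by
        exact_mod_cast h2
    _ ≤ ∑ p ∈ Ioc z y, y * ((p : ℝ) ^ 2)⁻¹ := by
        rw [Nat.cast_sum]
        refine sum_le_sum fun p _ => ?_
        rw [Nat.card_multiples', ← div_eq_mul_inv, ← Nat.cast_pow]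
        exact Nat.cast_div_le
    _ ≤ _ := by
        rw [← mul_sum, div_eq_mul_inv]
        exact mul_le_mul_of_nonneg_left h3 (Nat.cast_nonneg _)

theorem sieve : ∃ lam : ℕ, ∀ (S : Finset ℕ) (ε : ℕ → ℤ) (y c z : ℕ) (E : ℝ),
    (∀ p ∈ S, p.Prime ∧ Odd p) → (∀ p ∈ S, PM (ε p)) → c < 8 → Odd c → 1 ≤ E →
    (∀ D ⊆ S, D.Nonempty → GoodD y E (∏ p ∈ D, p)) → 3 ≤ z → E * z ^ lam ≤ y →
    256 * Real.exp 5 * 6 ^ S.card * Real.log z ≤ z →
    y / (256 * Real.exp 5 * 4 ^ S.card * Real.log z) ≤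
      (((range y).filter fun n : ℕ => n % 8 = c ∧ (∀ p ∈ S, J(n | p) = ε p) ∧ Squarefree n ∧
        ∀ p ∈ n.primeFactors, z < p).card : ℝ) := by
  obtain ⟨L, L0, hL⟩ := MP_458f0b_nt.Pois.block_sum
  refine ⟨4 * (⌈5 * L⌉₊ + 2) + 9, fun S ε y c z E h0 hε hc hco hE hg hz hy hb => ?_⟩
  set m0 := ⌈5 * L⌉₊ + 2 with hm0
  set r := S.card with hr
  have z3 : (3 : ℝ) ≤ z := by exact_mod_cast hz
  have hl : 1 ≤ Real.log z := by
    rw [Real.le_log_iff_exp_le (by linarith)]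
    exact Real.exp_one_lt_three.le.trans z3
  have e5 : (1 : ℝ) ≤ Real.exp 5 := Real.one_le_exp (by norm_num)
  have s6 : (1 : ℝ) ≤ 6 ^ r := one_le_pow₀ (by norm_num)
  have s46 : (4 : ℝ) ^ r ≤ 6 ^ r := pow_le_pow_left₀ (by norm_num) (by norm_num) r
  have hel : 1 ≤ Real.exp 5 * Real.log z := one_le_mul_of_one_le_of_one_le e5 hl
  have hb1 : 256 * 6 ^ r ≤ (z : ℝ) := by nlinarith
  have hb2 : 2 * Real.exp 5 * Real.log z ≤ z := by nlinarith
  have zl : (z : ℝ) ≤ z ^ (4 * m0 + 9) := le_self_pow₀ (by linarith) (by omega)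
  have y0 : (0 : ℝ) < y := by nlinarith
  set V := ∏ p ∈ S, (1 - (p : ℝ)⁻¹) with hV
  have V1 : 1 ≤ 2 ^ r * V := by
    rw [hr, ← prod_const, hV, ← prod_mul_distrib]
    refine le_trans (prod_const_one (s := S)).ge (prod_le_prod (fun _ _ => zero_le_one) fun p hp => ?_)
    have : (2 : ℝ) ≤ p := by exact_mod_cast (h0 p hp).1.two_le
    have : (p : ℝ)⁻¹ ≤ 2⁻¹ := inv_anti₀ (by norm_num) this
    linarith
  have t2 : (0 : ℝ) < 2 ^ r := by positivity
  have V0 : 0 < V := by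
    by_contra k
    nlinarith
  have s23 : (6 : ℝ) ^ r = 2 ^ r * 3 ^ r := by rw [← mul_pow]; norm_num
  have s22 : (4 : ℝ) ^ r = 2 ^ r * 2 ^ r := by rw [← mul_pow]; norm_num
  have t3 : (0 : ℝ) < 3 ^ r := by positivity
  have ee : 3 ^ r * E * z ^ (4 * m0 + 9) ≤ 6 ^ r * (y * V) := by
    calc 3 ^ r * E * z ^ (4 * m0 + 9) = 3 ^ r * (E * z ^ (4 * m0 + 9)) * 1 := by ring
      _ ≤ 3 ^ r * y * (2 ^ r * V) := by gcongr
      _ = _ := by rw [s23]; ring
  have ee2 : 3 ^ r * E ≤ y * V / 16 := by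
    have : 3 ^ r * E * (256 * 6 ^ r) ≤ 6 ^ r * (y * V) :=
      (mul_le_mul_of_nonneg_left (hb1.trans zl) (by positivity)).trans ee
    have h2 : 3 ^ r * E * 256 ≤ y * V := le_of_mul_le_mul_left (a := 6 ^ r) (by linarith)
      (by positivity)
    have : 0 ≤ 3 ^ r * E := by positivity
    linarith
  set s := (Prog y c 1).filter fun n : ℕ => ∀ p ∈ S, J(n | p) = ε p with hs
  have c1 := cnt_bound h0 hε hc hco hE hg odd_one fun p _ => Nat.coprime_one_left p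
  rw [← hs, ← hr, ← hV, Nat.cast_one, mul_one, abs_le] at c1
  have c2 : y * V / 16 ≤ 2 ^ r * s.card := by linarith
  have s0 : (0 : ℝ) < s.card := by
    by_contra k
    have : 0 < y * V := by positivity
    nlinarith
  set P := z.primesLE.filter fun p => p ≠ 2 ∧ p ∉ S with hP
  have hP1 : ∀ p ∈ P, p.Prime := fun p hp => Nat.prime_of_mem_primesLE (mem_filter.1 hp).1
  have bh := MP_458f0b_nt.Pois.brun_hooley s P hP1 (fun p n => p ∣ n) (fun p => (p : ℝ)⁻¹)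
    (fun p _ => by positivity) (fun p hp => by
      have : (2 : ℝ) ≤ p := by exact_mod_cast (hP1 p hp).two_le
      rw [one_div]
      exact inv_anti₀ (by norm_num) this) z m0
    (fun p hp => Nat.le_of_mem_primesLE (mem_filter.1 hp).1) L (32 * 6 ^ r / z ^ (4 * m0 + 9))
    (fun i => le_trans (sum_le_sum_of_subset_of_nonneg
      (filter_subset_filter _ (filter_subset _ _)) fun _ _ _ => by positivity) (hL z i))
    (by rw [hm0]; push_cast; linarith [Nat.le_ceil (5 * L)]) (by omega) (by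
      intro U hU _
      have U1 : ∀ p ∈ U, p.Prime := fun p hp => hP1 p (hU hp)
      have mo : Odd (∏ p ∈ U, p) := (ga_prod fun p hp =>
        (U1 p hp).odd_of_ne_two (mem_filter.1 (hU hp)).2.1).1
      have c3 := cnt_bound h0 hε hc hco hE hg mo fun p hp => Nat.Coprime.prod_left
        (cop_of_notMem U1 (h0 p hp).1 fun k => (mem_filter.1 (hU k)).2.2 hp)
      have e1 : (s.filter fun n => ∀ p ∈ U, p ∣ n) =
          (Prog y c (∏ p ∈ U, p)).filter fun n : ℕ => ∀ p ∈ S, J(n | p) = ε p := by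
        ext n
        simp only [hs, Prog, mem_filter, one_dvd, and_true]
        have : (∀ p ∈ U, p ∣ n) ↔ ∏ p ∈ U, p ∣ n :=
          ⟨prod_primes_dvd _ fun p hp => (U1 p hp).prime,
            fun k p hp => (dvd_prod_of_mem _ hp).trans k⟩
        rw [this]
        tauto
      rw [← e1, ← hr, ← hV, abs_le] at c3
      rw [prod_inv_distrib, ← Nat.cast_prod]
      have m1 : (1 : ℝ) ≤ (∏ p ∈ U, p : ℕ) := by exact_mod_cast mo.pos
      generalize ((∏ p ∈ U, p : ℕ) : ℝ) = m at c3 m1 ⊢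
      generalize ((s.filter fun n => ∀ p ∈ U, p ∣ n).card : ℝ) = a at c3 ⊢
      have m2 : m⁻¹ ≤ 1 := inv_le_one_of_one_le₀ m1
      have m3 : 0 < m⁻¹ := by positivity
      have e2 : a / s.card - m⁻¹ = (2 ^ r * a - 2 ^ r * s.card * m⁻¹) / (2 ^ r * s.card) := by
        field_simp
      have e3 : |2 ^ r * a - 2 ^ r * s.card * m⁻¹| ≤ 2 * (3 ^ r * E) := by
        rw [show (y : ℝ) / (8 * m) * V = y / 8 * V * m⁻¹ by field_simp] at c3
        have : 0 ≤ 3 ^ r * E := by positivity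
        rw [abs_le]
        constructor <;> nlinarith
      rw [e2, abs_div, abs_of_pos (by positivity : (0 : ℝ) < 2 ^ r * s.card),
        div_le_div_iff₀ (by positivity) (by positivity)]
      calc _ ≤ 2 * (3 ^ r * E) * z ^ (4 * m0 + 9) := by gcongr
        _ ≤ 2 * (6 ^ r * (y * V)) := by linarith
        _ ≤ _ := by nlinarith)
  set W := (2 * Real.exp 5 * Real.log z)⁻¹ with hW
  have W0 : 0 < W := by positivity
  have W1 : W ≤ ∏ p ∈ P, (1 - (p : ℝ)⁻¹) := by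
    have k1 := MP_458f0b_nt.prod_primesLE_le hz
    have k0 : ∀ p ∈ z.primesLE, 0 < 1 - (p : ℝ)⁻¹ := fun p hp => by
      have : (1 : ℝ) < p := by exact_mod_cast (Nat.prime_of_mem_primesLE hp).one_lt
      linarith [inv_lt_one_of_one_lt₀ this]
    rw [prod_inv_distrib] at k1
    refine (inv_le_of_inv_le₀ (prod_pos k0) k1).trans ?_
    exact prod_le_prod_of_subset_of_le_one (filter_subset _ _) (fun p hp => (k0 p hp).le)
      fun p _ _ => sub_le_self _ (by positivity)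
  have W2 : (z : ℝ)⁻¹ ≤ W := inv_anti₀ (by positivity) hb2
  have b1 : 3 * Real.exp (-m0) ≤ 1 / 2 := by
    have k1 : Real.exp (-m0) ≤ Real.exp (-2) := Real.exp_le_exp.2 (by
      rw [hm0]; push_cast; linarith [Nat.cast_nonneg (α := ℝ) ⌈5 * L⌉₊])
    have k2 : Real.exp (-2) * (Real.exp 1 * Real.exp 1) = 1 := by
      rw [← Real.exp_add, ← Real.exp_add]; norm_num
    have k3 := Real.exp_one_gt_d9
    have k4 := Real.exp_pos (-2)
    have k5 : 6 ≤ Real.exp 1 * Real.exp 1 := by nlinarith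
    nlinarith
  have b2 : (z + 2) * (z : ℝ) ^ (4 * m0 + 6) * (32 * 6 ^ r / z ^ (4 * m0 + 9)) ≤ W / 4 := by
    refine le_trans ?_ (div_le_div_of_nonneg_right W2 (by norm_num))
    rw [show 4 * m0 + 9 = 4 * m0 + 6 + 3 by ring, pow_add _ (4 * m0 + 6) 3]
    have : (0 : ℝ) < z ^ (4 * m0 + 6) := by positivity
    field_simp
    nlinarith
  have b3 : W / 4 ≤ ((s.filter fun n => ∀ p ∈ P, ¬ p ∣ n).card : ℝ) / s.card := by
    have := (abs_le.1 bh).1
    nlinarith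
  rw [le_div_iff₀ s0] at b3
  have b4 : (s.filter fun n => ∀ p ∈ P, ¬ p ∣ n) ⊆
      ((range y).filter fun n : ℕ => n % 8 = c ∧ (∀ p ∈ S, J(n | p) = ε p) ∧ Squarefree n ∧
        ∀ p ∈ n.primeFactors, z < p) ∪
      (range y).filter fun n => n ≠ 0 ∧ ¬ Squarefree n ∧ ∀ p ∈ n.primeFactors, z < p := by
    intro n hn
    simp only [hs, Prog, mem_filter, mem_union] at hn ⊢
    obtain ⟨⟨⟨a1, a2, -⟩, a3⟩, a4⟩ := hn
    have c0 := Nat.odd_iff.1 hco
    have a5 : ∀ p ∈ n.primeFactors, z < p := by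
      intro p hp
      obtain ⟨p1, p2, -⟩ := Nat.mem_primeFactors.1 hp
      by_contra k
      refine a4 p (mem_filter.2 ⟨Nat.mem_primesLE.2 ⟨not_lt.1 k, p1⟩, ?_, fun k' => ?_⟩) p2
      · rintro rfl
        omega
      · exact p1.one_lt.ne' (Nat.eq_one_of_dvd_coprimes (cop_of_pm p1.ne_zero
          (a3 p k' ▸ hε p k')) p2 dvd_rfl)
    by_cases k : Squarefree n
    · exact Or.inl ⟨a1, a2, a3, k, a5⟩
    · exact Or.inr ⟨a1, by omega, k, a5⟩
  have b5 := (card_le_card b4).trans (card_union_le _ _)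
  have b6 := nonsq_count y (z := z) (by omega)
  have b7 : (y : ℝ) / z ≤ y / (256 * Real.exp 5 * 4 ^ r * Real.log z) :=
    div_le_div_of_nonneg_left y0.le (by positivity) (by nlinarith)
  have b8 : 2 * (y / (256 * Real.exp 5 * 4 ^ r * Real.log z)) ≤ W / 4 * s.card := by
    have k1 : y / (16 * 4 ^ r) ≤ (s.card : ℝ) := by
      rw [div_le_iff₀ (by positivity), s22]
      nlinarith
    refine le_trans (le_of_eq ?_) (mul_le_mul_of_nonneg_left k1 (by positivity))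
    rw [hW]
    field_simp
    norm_num
  have b9 : ((s.filter fun n => ∀ p ∈ P, ¬ p ∣ n).card : ℝ) ≤ _ := Nat.cast_le.2 b5
  rw [Nat.cast_add] at b9
  linarith

end Pool.Agent.Lib.MP_90cf6f_nt.Uni
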