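import Pool.Agent.Lib.MP_90cf6f_nt.Uni.Asm
import Pool.Agent.Lib.MP_90cf6f_nt.Uni.Ind
import Pool.Agent.Lib.MP_90cf6f_nt.Uni.Sieve

/-! If all divisors of `a` have small character sums then `a` has a small twist of rank zero. -/

namespace Pool.Agent.Lib.MP_90cf6f_nt.Uni

open Finset Filter Topology NumberTheorySymbols Den

lemma master' {ρ : ℝ} (h0 : 0 < ρ) (h1 : ρ < 1) (M j : ℕ) {C : ℝ} (hC : 0 ≤ C) :
    ∀ᶠ w : ℕ in atTop, ∃ Dm : ℝ, 1 ≤ Dm ∧ (∀ v : ℕ, v ≤ 2 ^ (M * w) → v.divisors.card ≤ Dm) ∧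
      C * w ^ j * Dm ^ j * ρ ^ w ≤ 1 := by
  set l := -Real.log ρ with hl
  have l0 : 0 < l := neg_pos.2 (Real.log_neg h0 h1)
  set η := l / (2 * (M * j + 1)) with hη
  have η0 : 0 < η := by positivity
  obtain ⟨D, D1, hD⟩ := divisor_bound η0
  have t0 : |Real.exp (-(l / 2))| < 1 := by
    rw [abs_of_pos (Real.exp_pos _)]
    exact Real.exp_lt_one_iff.2 (by linarith)
  have t1 := (tendsto_pow_const_mul_const_pow_of_abs_lt_one j t0).const_mul (C * D ^ j)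
  rw [mul_zero] at t1
  filter_upwards [t1.eventually (ge_mem_nhds one_pos)] with w hw
  set a : ℝ := 2 ^ (M * w) with ha
  have a1 : 1 ≤ a := one_le_pow₀ (by norm_num)
  have a0 : 0 < a := by positivity
  refine ⟨D * a ^ η, one_le_mul_of_one_le_of_one_le D1 (Real.one_le_rpow a1 η0.le),
    fun v hv => (hD v).trans ?_, le_trans ?_ hw⟩
  · gcongr
    rw [ha]
    exact_mod_cast hv
  have e2 : (a ^ η) ^ j * ρ ^ w ≤ Real.exp (-(l / 2)) ^ w := by
    have k1 : Real.log a ≤ M * w := by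
      have k4 : Real.log 2 ≤ 1 := by linarith [Real.log_two_lt_d9]
      have k5 : (0 : ℝ) ≤ M * w := by positivity
      rw [ha, Real.log_pow]
      push_cast
      nlinarith
    have k6 : η * (M * j) ≤ l / 2 := by
      rw [hη, div_mul_eq_mul_div, div_le_div_iff₀ (by positivity) (by norm_num)]
      nlinarith
    rw [Real.rpow_def_of_pos a0, ← Real.exp_nat_mul, ← Real.exp_log h0, ← Real.exp_nat_mul,
      ← Real.exp_nat_mul, ← Real.exp_add, Real.exp_le_exp]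
    have k7 : j * (Real.log a * η) ≤ j * (M * w * η) := by gcongr
    have k8 : (w : ℝ) * (η * (M * j)) ≤ w * (l / 2) := by gcongr
    have k9 : Real.log ρ = -l := by rw [hl, neg_neg]
    rw [k9]
    linarith
  calc C * w ^ j * (D * a ^ η) ^ j * ρ ^ w = C * D ^ j * (w ^ j * ((a ^ η) ^ j * ρ ^ w)) := by ring
    _ ≤ _ := by gcongr

lemma master {ρ : ℝ} (h0 : 0 < ρ) (h1 : ρ < 1) (M j : ℕ) {C : ℝ} (hC : 0 ≤ C) :
    ∀ᶠ w : ℕ in atTop, ∀ a : ℕ, a ≠ 0 → a ≤ 2 ^ (M * w) →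
      C * w ^ j * (2 ^ a.primeFactors.card) ^ j * ρ ^ w ≤ 1 := by
  filter_upwards [master' h0 h1 M j hC] with w ⟨Dm, _, hD, hw⟩ a ha haw
  refine le_trans ?_ hw
  have e1 : (2 : ℝ) ^ a.primeFactors.card ≤ Dm :=
    le_trans (by exact_mod_cast two_pow_omega_le ha) (hD a haw)
  gcongr

lemma sqfree_prod {D : Finset ℕ} (h : ∀ p ∈ D, p.Prime) : Squarefree (∏ p ∈ D, p) :=
  Finset.squarefree_prod_of_pairwise_isCoprime
    (fun p hp q hq e => Nat.coprime_iff_isRelPrime.1 ((Nat.coprime_primes (h p hp) (h q hq)).2 e))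
    fun p hp => (h p hp).squarefree

theorem core : ∃ lam : ℕ, ∀ κ K : ℕ, lam ≤ κ → ∀ᶠ w : ℕ in atTop, ∀ s : ℕ, κ * w ≤ s →
    s < (κ + 1) * w → ∀ a : ℕ, a ≠ 0 → a ≤ 2 ^ (K * s) →
    (∀ d, d ∣ a → Odd d → Squarefree d → 1 < d → GoodD (2 ^ s) (2 ^ (s - lam * w)) d) →
    ∃ Q : ℕ, 2 ≤ Q ∧ Q ≤ 2 ^ (s + κ + 3) ∧
      ¬ 0 < Module.rank ℤ (curve ((a : ℚ) * (Q : ℚ))).toAffine.Point := by
  obtain ⟨lam, hs⟩ := sieve
  obtain ⟨C, ρ, C0, ρ0, ρ1, hb⟩ := bil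
  refine ⟨lam, fun κ K hκ => ?_⟩
  set ρ' := max ρ (1 / 2) with hρ
  have r0 : 0 < ρ' := lt_max_of_lt_left ρ0
  have r1 : ρ' < 1 := max_lt ρ1 (by norm_num)
  filter_upwards [master r0 r1 (K * (κ + 1)) (κ + 2) (C := (κ + 2 ^ (κ + 3) * C) *
      (64 * (κ + 1) * 2 ^ κ) ^ κ * (256 * Real.exp 5)) (by positivity),
    master (ρ := 1 / 2) (by norm_num) (by norm_num) (K * (κ + 1)) 3 (C := 256 * Real.exp 5)
      (by positivity), eventually_ge_atTop 2] with w m1 m2 w2 s s1 s2 a ha haK hg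
  have haw : a ≤ 2 ^ (K * (κ + 1) * w) := haK.trans (Nat.pow_le_pow_right (by norm_num)
    (by rw [mul_assoc]; exact Nat.mul_le_mul_left _ s2.le))
  replace m1 := m1 a ha haw
  replace m2 := m2 a ha haw
  obtain ⟨P, T, F, S, c, ε, a1, a2, a3, a4, a5, a6, a7, a8, a9, H, fin⟩ := assemble ha
  have hD : (2 : ℝ) ^ S.card ≤ 2 ^ a.primeFactors.card :=
    pow_le_pow_right₀ (by norm_num) (card_le_card a1)
  generalize (2 : ℝ) ^ a.primeFactors.card = D at m1 m2 hD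
  have w1 : (1 : ℝ) ≤ w := by exact_mod_cast (by omega : 1 ≤ w)
  have lz : Real.log ((2 ^ w : ℕ) : ℝ) ≤ w := by
    rw [Nat.cast_pow, Real.log_pow, Nat.cast_ofNat]
    nlinarith [Real.log_two_lt_d9]
  have z3 : 3 ≤ 2 ^ w := le_trans (by norm_num) (Nat.pow_le_pow_right (by norm_num) w2)
  have lz0 : 0 < Real.log ((2 ^ w : ℕ) : ℝ) := Real.log_pos (by exact_mod_cast (by omega))
  have ls : lam * w ≤ s := (Nat.mul_le_mul_right w hκ).trans s1
  have D0 : (0 : ℝ) < 2 ^ S.card := by positivity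
  have D1 : 0 < D := D0.trans_le hD
  have key := hs S ε (2 ^ s) c (2 ^ w) (2 ^ (s - lam * w)) a6 a7 a8 a9 (one_le_pow₀ (by norm_num))
    (fun U hU hne => by
      have U1 : ∀ p ∈ U, p.Prime ∧ Odd p := fun p hp => a6 p (hU hp)
      obtain ⟨p, hp⟩ := hne
      refine hg _ ((prod_dvd_prod_of_subset _ _ _ (hU.trans a1)).trans (Nat.prod_primeFactors_dvd a))
        (ga_prod fun p hp => (U1 p hp).2).1 (sqfree_prod fun p hp => (U1 p hp).1)
        ((U1 p hp).1.one_lt.trans_le (Nat.le_of_dvd (ga_prod fun p hp => (U1 p hp).2).1.pos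
          (dvd_prod_of_mem _ hp)))) z3
    (by push_cast; rw [← pow_mul, ← pow_add, mul_comm w, Nat.sub_add_cancel ls]) (by
      have k1 : (6 : ℝ) ^ S.card ≤ D ^ 3 := by
        calc (6 : ℝ) ^ S.card ≤ (2 ^ 3) ^ S.card := pow_le_pow_left₀ (by norm_num) (by norm_num) _
          _ = (2 ^ S.card) ^ 3 := by rw [← pow_mul, ← pow_mul, mul_comm]
          _ ≤ _ := by gcongr
      have k2 : (w : ℝ) ≤ w ^ 3 := le_self_pow₀ w1 (by norm_num)
      have k3 : (1 / 2 : ℝ) ^ w * 2 ^ w = 1 := by rw [← mul_pow]; norm_num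
      calc _ ≤ 256 * Real.exp 5 * D ^ 3 * w ^ 3 * ((1 / 2) ^ w * 2 ^ w) := by
            rw [k3, mul_one]
            gcongr
            exact lz.trans k2
        _ = 256 * Real.exp 5 * w ^ 3 * D ^ 3 * (1 / 2) ^ w * 2 ^ w := by ring
        _ ≤ 1 * 2 ^ w := by gcongr
        _ = _ := by simp)
  obtain ⟨n, n1, n2, n3, n4, n5, n6⟩ := ind hb C0 ρ0 ρ1.le T F (w := w) (s0 := s)
    (L := S.card + κ) (κ := κ) (δ := (κ + 2 ^ (κ + 3) * C) * ρ' ^ w)
    (by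
      have k1 : (1 : ℝ) ≤ ρ' ^ w * 2 ^ w := by
        rw [← mul_pow]
        exact one_le_pow₀ (by linarith [le_max_right ρ (1 / 2)])
      have k2 : (0 : ℝ) ≤ 2 ^ (κ + 3) * C := by positivity
      have k3 : (0 : ℝ) ≤ κ := Nat.cast_nonneg _
      rw [mul_assoc]
      nlinarith)
    (mul_le_mul (le_add_of_nonneg_left (Nat.cast_nonneg _))
      (pow_le_pow_left₀ ρ0.le (le_max_left _ _) w) (by positivity) (by positivity))
    κ le_rfl P S c ε s _ le_rfl le_rfl a2 a3 a4 a5 a6 a7 a9 H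
    (fun n hn => by
      obtain ⟨k0, k1, k2, k3, k4⟩ := mem_filter.1 hn
      refine ⟨(mem_range.1 k0).le, k3, k1, k2, ?_, k4⟩
      have k5 := pow_card_le_prod n.primeFactors (fun p => p) (2 ^ w) fun p hp => (k4 p hp).le
      rw [Nat.prod_primeFactors_of_squarefree k3, ← pow_mul] at k5
      have k6 := ((Nat.pow_lt_pow_iff_right (by norm_num)).1
        (k5.trans_lt (mem_range.1 k0))).trans s2
      rw [mul_comm] at k6
      exact Nat.lt_succ_iff.1 (Nat.lt_of_mul_lt_mul_right k6))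
    (le_trans (by
      rw [le_div_iff₀ (by positivity)]
      have k1 : (s : ℝ) + 1 ≤ (κ + 1) * w := by exact_mod_cast s2
      have k2 : (4 : ℝ) ^ S.card = (2 ^ S.card) ^ 2 := by
        rw [← pow_mul, mul_comm, pow_mul]; norm_num
      have k3 : (w : ℝ) ≤ w ^ 2 := le_self_pow₀ w1 (by norm_num)
      rw [k2, pow_add 2 S.card]
      calc _ ≤ (κ + 2 ^ (κ + 3) * C) * ρ' ^ w * (64 * ((κ + 1) * w) * (D * 2 ^ κ)) ^ κ * 2 ^ s *
            (256 * Real.exp 5 * D ^ 2 * w ^ 2) := by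
            gcongr
            exact lz.trans k3
        _ = (κ + 2 ^ (κ + 3) * C) * (64 * (κ + 1) * 2 ^ κ) ^ κ * (256 * Real.exp 5) * w ^ (κ + 2) *
            D ^ (κ + 2) * ρ' ^ w * 2 ^ s := by
            rw [show 64 * ((κ + 1 : ℝ) * w) * (D * 2 ^ κ) = 64 * (κ + 1) * 2 ^ κ * w * D by ring,
              mul_pow, mul_pow]
            ring
        _ ≤ 1 * 2 ^ s := by gcongr
        _ = _ := by simp) key)
  obtain ⟨Q, q1, q2, q3⟩ := fin n n2 n3 n4 n5 n6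
  exact ⟨Q, q1, q2.trans (by rw [pow_add]; omega), q3⟩

end Pool.Agent.Lib.MP_90cf6f_nt.Uni
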