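import Mathlib

/-! The divisor bound (copied from the library of another problem of this team). -/

namespace Pool.Agent.Lib.MP_90cf6f_nt.Uni

open Finset

theorem succ_le_mul_pow {s : ℝ} (hs : 1 < s) (a : ℕ) :
    (a : ℝ) + 1 ≤ (1 + 1 / (s - 1)) * s ^ a := by
  have h0 : 0 < s - 1 := by linarith
  have h1 : 1 + (a : ℝ) * (s - 1) ≤ s ^ a := by
    have := one_add_mul_le_pow (a := s - 1) (by linarith) a
    simpa using this
  have h2 : 0 < 1 / (s - 1) := by positivity
  have ha : (0 : ℝ) ≤ a := Nat.cast_nonneg a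
  have h3 : (1 + 1 / (s - 1)) * (1 + (a : ℝ) * (s - 1))
      = 1 + a * (s - 1) + 1 / (s - 1) + a := by field_simp; ring
  calc (a : ℝ) + 1 ≤ (1 + 1 / (s - 1)) * (1 + (a : ℝ) * (s - 1)) := by
        rw [h3]; nlinarith [mul_nonneg ha h0.le]
    _ ≤ _ := mul_le_mul_of_nonneg_left h1 (by linarith)

theorem succ_le_two_pow (a : ℕ) : (a : ℝ) + 1 ≤ 2 ^ a := by
  have : a + 1 ≤ 2 ^ a := Nat.lt_two_pow_self
  exact_mod_cast this

/-- The divisor bound. -/
theorem divisor_bound {η : ℝ} (hη : 0 < η) :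
    ∃ C : ℝ, 1 ≤ C ∧ ∀ n : ℕ, (#n.divisors : ℝ) ≤ C * (n : ℝ) ^ η := by
  classical
  have hs : (1 : ℝ) < 2 ^ η := Real.one_lt_rpow (by norm_num) hη
  set K : ℝ := 1 + 1 / ((2 : ℝ) ^ η - 1) with hK
  have K1 : 1 ≤ K := by
    have : 0 < 1 / ((2 : ℝ) ^ η - 1) := one_div_pos.2 (by linarith)
    linarith
  set N : ℕ := ⌈(2 : ℝ) ^ (1 / η)⌉₊ with hN
  refine ⟨K ^ N, one_le_pow₀ K1, fun n => ?_⟩
  rcases eq_or_ne n 0 with rfl | hn
  · simp [Real.zero_rpow hη.ne']
  have e1 : (#n.divisors : ℝ) = ∏ p ∈ n.primeFactors, ((n.factorization p : ℝ) + 1) := by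
    rw [Nat.card_divisors hn]; push_cast; rfl
  have e2 : (n : ℝ) ^ η = ∏ p ∈ n.primeFactors, ((p : ℝ) ^ η) ^ n.factorization p := by
    conv_lhs => rw [← Nat.prod_factorization_pow_eq_self hn]
    rw [Finsupp.prod, Nat.support_factorization, Nat.cast_prod,
      ← Real.finsetProd_rpow _ _ (fun _ _ => Nat.cast_nonneg _)]
    refine prod_congr rfl fun p _ => ?_
    rw [Nat.cast_pow, ← Real.rpow_natCast, ← Real.rpow_natCast,
      ← Real.rpow_mul (Nat.cast_nonneg _), ← Real.rpow_mul (Nat.cast_nonneg _), mul_comm]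
  have e3 : ∏ p ∈ n.primeFactors, (if p < N then K else 1) ≤ K ^ N := by
    rw [prod_ite, prod_const, prod_const_one, mul_one]
    refine pow_le_pow_right₀ K1 ?_
    calc _ ≤ #(range N) := card_le_card fun p hp => mem_range.2 (mem_filter.1 hp).2
      _ = N := card_range N
  rw [e1, e2]
  calc _ ≤ ∏ p ∈ n.primeFactors,
        ((if p < N then K else 1) * ((p : ℝ) ^ η) ^ n.factorization p) := by
        refine prod_le_prod (fun _ _ => by positivity) fun p hp => ?_
        have p2 : (2 : ℝ) ≤ p := by exact_mod_cast (Nat.prime_of_mem_primeFactors hp).two_le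
        split_ifs with h
        · refine (succ_le_mul_pow hs _).trans (mul_le_mul_of_nonneg_left ?_ (by linarith))
          exact pow_le_pow_left₀ (by positivity) (Real.rpow_le_rpow (by norm_num) p2 hη.le) _
        · rw [one_mul]
          refine (succ_le_two_pow _).trans (pow_le_pow_left₀ (by norm_num) ?_ _)
          have h1 : (2 : ℝ) ^ (1 / η) ≤ p :=
            (Nat.le_ceil _).trans (by exact_mod_cast not_lt.1 h)
          calc (2 : ℝ) = ((2 : ℝ) ^ (1 / η)) ^ η := by
                rw [← Real.rpow_mul (by norm_num), one_div_mul_cancel hη.ne', Real.rpow_one]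
            _ ≤ _ := Real.rpow_le_rpow (by positivity) h1 hη.le
    _ ≤ _ := by
        rw [prod_mul_distrib]
        exact mul_le_mul_of_nonneg_right e3 (prod_nonneg fun _ _ => by positivity)

theorem two_pow_omega_le {n : ℕ} (hn : n ≠ 0) : 2 ^ #n.primeFactors ≤ #n.divisors := by
  rw [Nat.card_divisors hn, ← prod_const]
  refine prod_le_prod' fun p hp => ?_
  have := (Nat.prime_of_mem_primeFactors hp).factorization_pos_of_dvd hn
    (Nat.dvd_of_mem_primeFactors hp)
  omega

end Pool.Agent.Lib.MP_90cf6f_nt.Uni
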