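import Pool.Agent.Lib.MP_90cf6f_nt.Uni.LS
import Pool.Agent.Lib.MP_90cf6f_nt.Uni.Div

/-! Gauss sums of the Jacobi symbol, the Polya-Vinogradov bound and the large sieve. -/

namespace Pool.Agent.Lib.MP_90cf6f_nt.Uni

open Finset NumberTheorySymbols

/-- The twisted Gauss sum. -/
noncomputable def GS (d : ℕ) (n : ℤ) : ℂ :=
  ∑ h ∈ range d, (J(h | d) : ℂ) * ex ((h : ℝ) / d * n)

lemma sum_mul_perm {d : ℕ} (hd : 0 < d) {c : ℤ} (hc : c.gcd d = 1) (F : ℤ → ℂ)
    (hF : ∀ a, F (a % d) = F a) : ∑ h ∈ range d, F (h * c) = ∑ h ∈ range d, F h := by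
  have hd' : (0 : ℤ) < d := by exact_mod_cast hd
  have hm : ∀ h : ℕ, ((((h : ℤ) * c % d).toNat : ℕ) : ℤ) = h * c % d := fun h =>
    Int.toNat_of_nonneg (Int.emod_nonneg _ hd'.ne')
  have hinj : Set.InjOn (fun h : ℕ => ((h : ℤ) * c % d).toNat) (range d) := by
    intro a ha b hb hab
    have h1 : (a : ℤ) * c % d = b * c % d := by
      rw [← hm a, ← hm b]; exact congrArg _ hab
    have h2 : (d : ℤ) ∣ (b - a) * c := by
      rw [sub_mul]; exact Int.ModEq.dvd h1
    have h3 : (d : ℤ) ∣ b - a :=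
      (Int.isCoprime_iff_gcd_eq_one.2 hc).symm.dvd_of_dvd_mul_right h2
    have ha' := mem_range.1 (mem_coe.1 ha)
    have hb' := mem_range.1 (mem_coe.1 hb)
    have := (pl_dvd_iff (D := d) (a := b) (b := a) (by rw [abs_lt]; constructor <;> omega)).1 h3
    omega
  have him : (range d).image (fun h : ℕ => ((h : ℤ) * c % d).toNat) = range d := by
    refine eq_of_subset_of_card_le (fun x hx => ?_) (card_image_of_injOn hinj).ge
    obtain ⟨h, -, rfl⟩ := mem_image.1 hx
    have := Int.emod_lt_of_pos ((h : ℤ) * c) hd'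
    have := hm h
    rw [mem_range]
    omega
  conv_rhs => rw [← him, sum_image hinj]
  exact sum_congr rfl fun h _ => by rw [hm, hF]

lemma ex_mod {d : ℕ} (hd : 0 < d) (a n : ℤ) :
    ex (((a % d : ℤ) : ℝ) / d * n) = ex ((a : ℝ) / d * n) := by
  have hd' : (d : ℝ) ≠ 0 := by exact_mod_cast hd.ne'
  rw [← pl_ex_sub_int ((a : ℝ) / d * n) (a / d * n), Int.emod_def]
  congr 1
  push_cast
  field_simp

lemma GS_mul {d : ℕ} (hd : 0 < d) {c : ℤ} (hc : c.gcd d = 1) (n : ℤ) :
    J(c | d) * GS d (c * n) = GS d n := by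
  have := sum_mul_perm hd hc (fun a => (J(a | d) : ℂ) * ex ((a : ℝ) / d * n)) fun a => by
    rw [← jacobiSym.mod_left, ex_mod hd]
  unfold GS
  rw [mul_sum]
  refine Eq.trans (sum_congr rfl fun h _ => ?_) (this.trans (sum_congr rfl fun h _ => by simp))
  rw [jacobiSym.mul_left]
  push_cast
  rw [show (h : ℝ) / d * (c * n) = h * c / d * n by ring]
  ring

lemma GS_congr {d : ℕ} (hd : 0 < d) {m n : ℤ} (h : (d : ℤ) ∣ m - n) : GS d m = GS d n := by
  obtain ⟨k, hk⟩ := h
  have hd' : (d : ℝ) ≠ 0 := by exact_mod_cast hd.ne'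
  refine sum_congr rfl fun h _ => ?_
  rw [← pl_ex_sub_int ((h : ℝ) / d * m) (h * k), show m = n + d * k by linarith]
  congr 2
  push_cast
  field_simp
  ring

lemma GS_eq {d : ℕ} (ho : Odd d) (hs : Squarefree d) (n : ℤ) : GS d n = J(n | d) * GS d 1 := by
  have hd := ho.pos
  by_cases hn : n.gcd d = 1
  · have h1 := GS_mul hd hn 1
    have h2 : ((J(n | d) : ℤ) : ℂ) ^ 2 = 1 := by exact_mod_cast jacobiSym.sq_one hn
    rw [mul_one] at h1
    linear_combination (J(n | d) : ℂ) * h1 - GS d n * h2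
  · have : NeZero d := ⟨hd.ne'⟩
    rw [jacobiSym.eq_zero_iff_not_coprime.2 hn, Int.cast_zero, zero_mul]
    obtain ⟨p, hp, hpg⟩ := Nat.exists_prime_and_dvd hn
    have hpn : (p : ℤ) ∣ n := (Int.natCast_dvd_natCast.2 hpg).trans (Int.gcd_dvd_left _ _)
    obtain ⟨e, rfl⟩ : p ∣ d :=
      Int.natCast_dvd_natCast.1 ((Int.natCast_dvd_natCast.2 hpg).trans (Int.gcd_dvd_right _ _))
    have hpe : p.Coprime e := Nat.coprime_of_squarefree_mul hs
    have : Fact p.Prime := ⟨hp⟩
    have p2 : p ≠ 2 := by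
      rintro rfl
      exact absurd (Nat.odd_mul.1 ho).1 (by decide)
    obtain ⟨g, hg⟩ := FiniteField.exists_nonsquare (F := ZMod p) (by rwa [ZMod.ringChar_zmod_n])
    obtain ⟨c, c1, c2⟩ := Nat.chineseRemainder hpe g.val 1
    have j1 : J(c | p) = -1 := by
      rw [ZMod.nonsquare_iff_jacobiSym_eq_neg_one, Int.cast_natCast,
        (ZMod.natCast_eq_natCast_iff _ _ _).2 c1, ZMod.natCast_zmod_val]
      exact hg
    have j2 : J(c | e) = 1 := by
      rw [jacobiSym.mod_left' (a₂ := 1) (by exact_mod_cast Int.natCast_modEq_iff.2 c2),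
        jacobiSym.one_left]
    have j3 : J(c | p * e) = -1 := by
      rw [jacobiSym.mul_right' _ hp.ne_zero hs.of_mul_right.ne_zero, j1, j2, mul_one]
    have hc : (c : ℤ).gcd (p * e : ℕ) = 1 := by
      by_contra k
      rw [jacobiSym.eq_zero_iff_not_coprime.2 k] at j3
      omega
    have h1 := GS_mul hd hc n
    rw [j3, GS_congr hd (m := c * n) (n := n) (by
      rw [show (c : ℤ) * n - n = n * (c - 1) by ring, Nat.cast_mul]
      exact mul_dvd_mul hpn (by exact_mod_cast (Int.natCast_modEq_iff.2 c2).symm.dvd))] at h1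
    push_cast at h1
    linear_combination (-1 / 2 : ℂ) * h1

lemma GS_norm {d : ℕ} (ho : Odd d) (hs : Squarefree d) : ‖GS d 1‖ ^ 2 = d := by
  have hd := ho.pos
  have h1 := pl_pars hd fun r => (J(r | d) : ℂ)
  have h2 : ∀ h : ℕ, ∑ r ∈ range d, (J(r | d) : ℂ) * ex ((h : ℝ) / d * r) =
      J(h | d) * GS d 1 := fun h => by
    rw [← GS_eq ho hs]
    refine sum_congr rfl fun r _ => ?_
    congr 2
    push_cast
    ring
  simp only [h2, norm_mul, mul_pow, ← sum_mul] at h1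
  have h3 : 0 < ∑ r ∈ range d, ‖(J(r | d) : ℂ)‖ ^ 2 := by
    refine sum_pos' (fun _ _ => by positivity) ⟨1 % d, mem_range.2 (Nat.mod_lt _ hd), ?_⟩
    rw [Int.natCast_mod, ← jacobiSym.mod_left]
    simp
  exact mul_left_cancel₀ h3.ne' (by rw [h1]; ring)

lemma norm_jac_le (a : ℤ) (d : ℕ) : ‖(J(a | d) : ℂ)‖ ≤ 1 := by
  rcases jacobiSym.trichotomy a d with h | h | h <;> simp [h]

/-- From characters to exponentials. -/
lemma jac_le_Mq {d : ℕ} (ho : Odd d) (hs : Squarefree d) (I : Finset ℤ) (H : ℤ → ℂ) :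
    ‖∑ y ∈ I, H y * J(y | d)‖ ^ 2 ≤ Mq I H d := by
  have hd := ho.pos
  have hd' : (0 : ℝ) < d := by exact_mod_cast hd
  have : NeZero d := ⟨hd.ne'⟩
  have h1 : (∑ y ∈ I, H y * J(y | d)) * GS d 1 =
      ∑ h ∈ range d with h.Coprime d, (J(h | d) : ℂ) * FT I H ((h : ℝ) / d) := by
    rw [sum_filter_of_ne fun h _ k => by
      by_contra k'
      rw [jacobiSym.eq_zero_iff_not_coprime.2 (by simpa using k')] at k
      simp at k]
    simp only [sum_mul, mul_assoc, ← GS_eq ho hs]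
    simp only [FT, GS, mul_sum]
    rw [sum_comm]
    exact sum_congr rfl fun h _ => sum_congr rfl fun y _ => by ring
  have h2 : ‖∑ y ∈ I, H y * J(y | d)‖ ^ 2 * d ≤ d * Mq I H d := by
    rw [← GS_norm ho hs, ← mul_pow, ← norm_mul, h1, GS_norm ho hs]
    calc _ ≤ (∑ h ∈ range d with h.Coprime d, 1 * ‖FT I H ((h : ℝ) / d)‖) ^ 2 := by
          refine pow_le_pow_left₀ (norm_nonneg _) ((norm_sum_le _ _).trans
            (sum_le_sum fun h _ => ?_)) 2
          rw [norm_mul]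
          exact mul_le_mul_of_nonneg_right (norm_jac_le _ _) (norm_nonneg _)
      _ ≤ (∑ h ∈ range d with h.Coprime d, (1 : ℝ) ^ 2) * Mq I H d := sum_mul_sq_le_sq_mul_sq _ _ _
      _ ≤ _ := by
          refine mul_le_mul_of_nonneg_right ?_ (Mq_nonneg _ _ _)
          simpa using (card_filter_le (range d) fun h => h.Coprime d)
  nlinarith

/-- The Polya-Vinogradov bound. -/
lemma polya {d : ℕ} (ho : Odd d) (hs : Squarefree d) (h1 : 1 < d) (x : ℤ) (l : ℕ) :
    ((∑ y ∈ Ioc x (x + l), J(y | d) : ℤ) : ℝ) ^ 2 ≤ d * (1 + Real.log d) ^ 2 := by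
  have hd := ho.pos
  have hd' : (0 : ℝ) < d := by exact_mod_cast hd
  have hl : 0 ≤ Real.log d := Real.log_natCast_nonneg d
  have e1 : (∑ y ∈ Ioc x (x + l), (J(y | d) : ℂ)) * (J(-1 | d) * GS d 1) =
      ∑ h ∈ range d, (J(h | d) : ℂ) * ∑ y ∈ Ioc x (x + l), ex (-((h : ℝ) / d) * y) := by
    have e2 : ∀ y : ℤ, (J(y | d) : ℂ) * (J(-1 | d) * GS d 1) = GS d (-y) := fun y => by
      rw [GS_eq ho hs (-y), show -y = y * -1 by ring, jacobiSym.mul_left]
      push_cast
      ring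
    simp only [sum_mul, e2]
    simp only [GS, mul_sum]
    rw [sum_comm]
    refine sum_congr rfl fun h _ => sum_congr rfl fun y _ => ?_
    congr 2
    push_cast
    ring
  have e3 : ‖(J(-1 | d) : ℂ)‖ = 1 := by
    rcases jacobiSym.eq_one_or_neg_one (a := -1) (b := d) (by simp) with h | h <;> simp [h]
  have e4 : ‖∑ h ∈ range d, (J(h | d) : ℂ) * ∑ y ∈ Ioc x (x + l), ex (-((h : ℝ) / d) * y)‖ ≤
      d * (1 + Real.log d) := by
    calc _ ≤ ∑ h ∈ range d, d * ((h : ℝ)⁻¹ / 2 + (((d - 1 - h : ℕ) : ℝ) + 1)⁻¹ / 2) := by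
          refine (norm_sum_le _ _).trans (sum_le_sum fun h hh => ?_)
          rcases Nat.eq_zero_or_pos h with rfl | h0
          · rw [Nat.cast_zero, jacobiSym.zero_left h1, Int.cast_zero, zero_mul, norm_zero]
            positivity
          · have := pl_coef h0 (mem_range.1 hh) x l
            rw [div_le_iff₀' hd'] at this
            rw [norm_mul]
            exact (mul_le_of_le_one_left (norm_nonneg _) (norm_jac_le _ _)).trans this
      _ ≤ _ := by
          rw [← mul_sum, sum_add_distrib, ← sum_div, ← sum_div,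
            sum_range_reflect (fun j : ℕ => ((j : ℝ) + 1)⁻¹) d]
          refine mul_le_mul_of_nonneg_left ?_ hd'.le
          have h2 := pl_harm d
          have h3 : ∑ r ∈ range d, (r : ℝ)⁻¹ ≤ ∑ r ∈ range d, ((r : ℝ) + 1)⁻¹ := by
            have h4 := sum_range_succ' (fun r : ℕ => (r : ℝ)⁻¹) d
            rw [sum_range_succ] at h4
            push_cast at h4
            have h5 : (0 : ℝ) ≤ (d : ℝ)⁻¹ := by positivity
            rw [inv_zero] at h4
            linarith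
          linarith
  rw [← e1, norm_mul, norm_mul, e3, one_mul] at e4
  have e5 := pow_le_pow_left₀ (by positivity) e4 2
  rw [mul_pow, GS_norm ho hs, ← Int.cast_sum, Complex.norm_intCast, sq_abs] at e5
  nlinarith

lemma prog_sum {M : Type} [AddCommMonoid M] {q r : ℕ} (hr : r < q) (f : ℕ → M) (y : ℕ) :
    ∃ L : ℕ, ∑ n ∈ range y with n % q = r, f n = ∑ k ∈ range L, f (q * k + r) ∧
      y ≤ q * L + r ∧ q * L + r < y + q := by
  induction y with
  | zero => exact ⟨0, by simp, by simp, by simpa using hr⟩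
  | succ y ih =>
    obtain ⟨L, h1, h2, h3⟩ := ih
    have h4 : (q * L + r) % q = r := by rw [Nat.mul_add_mod, Nat.mod_eq_of_lt hr]
    rw [range_add_one, filter_insert]
    split_ifs with h
    · have h5 : y = q * L + r := by
        have h6 : q ∣ q * L + r - y := (Nat.modEq_iff_dvd' h2).1 (h.trans h4.symm)
        have := Nat.eq_zero_of_dvd_of_lt h6 (by omega)
        omega
      refine ⟨L + 1, ?_, ?_, ?_⟩
      · rw [sum_insert (by simp), h1, sum_range_succ, add_comm, ← h5]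
      · rw [mul_add]; omega
      · rw [mul_add]; omega
    · refine ⟨L, h1, ?_, by omega⟩
      have : y ≠ q * L + r := fun e => h (e ▸ h4)
      omega

/-- The integers below `y` in the class `c` modulo eight that are divisible by `m`. -/
def Prog (y c m : ℕ) : Finset ℕ := (range y).filter fun n => n % 8 = c ∧ m ∣ n

lemma prog_eq {c m : ℕ} (hc : c < 8) (hm : Odd m) : ∃ r < 8 * m, m ∣ r ∧
    ∀ y, Prog y c m = (range y).filter fun n => n % (8 * m) = r := by
  have hco : Nat.Coprime 8 m := (Nat.coprime_two_left.2 hm).pow_left 3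
  obtain ⟨k, k1, k2⟩ := Nat.chineseRemainder hco c 0
  have h0 : 0 < 8 * m := by have := hm.pos; omega
  refine ⟨k % (8 * m), Nat.mod_lt _ h0, ?_, fun y => filter_congr fun n _ => ?_⟩
  · exact (Nat.dvd_mod_iff (dvd_mul_left m 8)).2 (Nat.modEq_zero_iff_dvd.1 k2)
  · rw [← Nat.ModEq, ← Nat.modEq_and_modEq_iff_modEq_mul hco]
    refine and_congr ?_ ?_
    · unfold Nat.ModEq at k1 ⊢
      omega
    · rw [← Nat.modEq_zero_iff_dvd]
      exact ⟨fun h => h.trans k2.symm, fun h => h.trans k2⟩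

lemma prog_card {c m : ℕ} (hc : c < 8) (hm : Odd m) (y : ℕ) :
    |((Prog y c m).card : ℝ) - y / (8 * m)| ≤ 1 := by
  obtain ⟨r, h1, -, h3⟩ := prog_eq hc hm
  obtain ⟨L, a1, a2, a3⟩ := prog_sum h1 (fun _ => (1 : ℕ)) y
  rw [h3, card_eq_sum_ones, a1]
  have h0 : (0 : ℝ) < 8 * m := by have := hm.pos; positivity
  have b1 : (r : ℝ) < 8 * m := by exact_mod_cast h1
  have b2 : (y : ℝ) ≤ 8 * m * L + r := by exact_mod_cast a2
  have b3 : (8 * m * L + r : ℝ) < y + 8 * m := by exact_mod_cast a3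
  have b4 : (0 : ℝ) ≤ r := Nat.cast_nonneg r
  simp only [sum_const, card_range, smul_eq_mul, mul_one]
  rw [abs_le, sub_le_iff_le_add, le_sub_iff_add_le, neg_add_le_iff_le_add, div_le_iff₀ h0,
    ← sub_le_iff_le_add', le_div_iff₀ h0]
  constructor <;> nlinarith

lemma polya_prog {d : ℕ} (ho : Odd d) (hs : Squarefree d) (h1 : 1 < d) {c m : ℕ} (hc : c < 8)
    (hm : Odd m) (y : ℕ) :
    ((∑ n ∈ Prog y c m, J(n | d) : ℤ) : ℝ) ^ 2 ≤ d * (1 + Real.log d) ^ 2 := by
  have : NeZero d := ⟨ho.pos.ne'⟩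
  by_cases hmd : m.Coprime d
  · obtain ⟨r, a1, -, a3⟩ := prog_eq hc hm
    obtain ⟨L, b1, -, -⟩ := prog_sum a1 (fun n => J(n | d)) y
    rw [a3, b1]
    have hco : ((8 * m : ℕ) : ℤ).gcd d = 1 := by
      rw [Int.gcd_natCast_natCast]
      exact Nat.Coprime.mul_left ((Nat.coprime_two_left.2 ho).pow_left 3) hmd
    obtain ⟨u, v, huv⟩ := Int.isCoprime_iff_gcd_eq_one.2 hco
    have e1 : ∀ k : ℕ, J(((8 * m * k + r : ℕ) : ℤ) | d) =
        J(((8 * m : ℕ) : ℤ) | d) * J(u * r - 1 + (k + 1) | d) := fun k => by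
      rw [← jacobiSym.mul_left]
      refine jacobiSym.mod_left' (Int.modEq_iff_dvd.2 ⟨-(v * r), ?_⟩)
      push_cast at huv ⊢
      linear_combination (r : ℤ) * huv
    have e2 : ∑ k ∈ range L, J(u * r - 1 + (k + 1) | d) =
        ∑ y ∈ Ioc (u * r - 1) (u * r - 1 + L), J(y | d) := by
      refine sum_nbij' (fun k => u * r - 1 + (k + 1)) (fun y => (y - u * r).toNat) ?_ ?_ ?_ ?_ ?_
      all_goals simp only [mem_range, mem_Ioc]
      all_goals intro a ha
      all_goals first | omega | trivial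
    simp only [e1, ← mul_sum, e2]
    have e3 : ((J(((8 * m : ℕ) : ℤ) | d) : ℤ) : ℝ) ^ 2 = 1 := by exact_mod_cast jacobiSym.sq_one hco
    rw [Int.cast_mul, mul_pow, e3, one_mul]
    exact polya ho hs h1 _ _
  · rw [sum_eq_zero fun n hn => jacobiSym.eq_zero_iff_not_coprime.2 fun k => hmd
      (Nat.Coprime.coprime_dvd_left (mem_filter.1 hn).2.2 (by simpa using k))]
    have : (0 : ℝ) ≤ d * (1 + Real.log d) ^ 2 := by positivity
    simpa using this

end Pool.Agent.Lib.MP_90cf6f_nt.Uni
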