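import Pool.Agent.Lib.MP_90cf6f_nt.Den.Bil
import Pool.Agent.Lib.MP_90cf6f_nt.Uni.Sel

/-! Both values of a link occur often; splitting a vertex. -/

namespace Pool.Agent.Lib.MP_90cf6f_nt.Uni

open Finset NumberTheorySymbols Den

/-- The bilinear bound with constants `C` and `ρ`. -/
def Bil (C ρ : ℝ) : Prop := ∀ (a b : ℕ) (α β : ℕ → ℝ),
  (∀ m, |α m| ≤ g m) → (∀ m, α m ≠ 0 → OS m) → (∀ n, |β n| ≤ g n) → (∀ n, β n ≠ 0 → OS n) →
  |∑ m ∈ Icc 1 (2 ^ a), ∑ n ∈ Icc 1 (2 ^ b), α m * β n * Den.J m n| ≤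
    C * 2 ^ (a + b) * ρ ^ min a b / √(((max a b : ℕ) : ℝ) + 1)

lemma jac_zero {q n : ℕ} (hq : 1 < q) (h : q ∣ n) : J(n | q) = 0 := by
  obtain ⟨j, rfl⟩ := h
  rw [Nat.cast_mul, jacobiSym.mul_left, jac_self hq, zero_mul]

lemma link {C ρ : ℝ} (hb : Bil C ρ) (hC : 0 < C) (h0 : 0 < ρ) (h1 : ρ ≤ 1) {A B : Finset ℕ}
    {a b w κ : ℕ} (hA : ∀ q ∈ A, q.Prime ∧ Odd q ∧ q ≤ 2 ^ a)
    (hB : ∀ n ∈ B, OS n ∧ n ≤ 2 ^ b ∧ n.primeFactors.card ≤ κ) (wa : w ≤ a) (wb : w ≤ b)
    (h : 4 * κ * 2 ^ b + 2 ^ (κ + 3) * C * 2 ^ (a + b) * ρ ^ w < (A.card : ℝ) * B.card) :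
    ∃ q ∈ A, ∀ σ : ℤ, PM σ → B.card ≤ 4 * (B.filter fun n : ℕ => J(n | q) = σ).card := by
  by_contra hcon
  push Not at hcon
  set A2 := A.filter fun q => B.card ≤ 4 * (B.filter fun n => q ∣ n).card with hA2
  set A1 := A.filter fun q => ¬ B.card ≤ 4 * (B.filter fun n => q ∣ n).card with hA1
  have hB1 : B ⊆ Icc 1 (2 ^ b) := fun n hn => mem_Icc.2 ⟨(hB n hn).1.1.pos, (hB n hn).2.1⟩
  have hB2 : B.card ≤ 2 ^ b := by simpa using card_le_card hB1
  have c2 : A2.card * B.card ≤ 4 * κ * 2 ^ b := by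
    calc A2.card * B.card = ∑ _q ∈ A2, B.card := by rw [sum_const, smul_eq_mul]
      _ ≤ ∑ q ∈ A2, 4 * (B.filter fun n => q ∣ n).card :=
          sum_le_sum fun q hq => (mem_filter.1 hq).2
      _ = 4 * ∑ n ∈ B, (A2.filter fun q => q ∣ n).card := by
          rw [← mul_sum]
          simp only [card_filter]
          rw [sum_comm]
      _ ≤ 4 * ∑ _n ∈ B, κ := by
          refine Nat.mul_le_mul_left _ (sum_le_sum fun n hn => le_trans (card_le_card ?_)
            (hB n hn).2.2)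
          intro q hq
          obtain ⟨k1, k2⟩ := mem_filter.1 hq
          exact Nat.mem_primeFactors.2 ⟨(hA q (mem_filter.1 k1).1).1, k2, (hB n hn).1.ne_zero⟩
      _ ≤ _ := by
          rw [sum_const, smul_eq_mul, mul_assoc, mul_comm κ]
          gcongr
  set Tq : ℕ → ℝ := fun q => ∑ n ∈ B, Den.J n q with hT
  have c1 : ∀ q ∈ A1, (B.card : ℝ) ≤ 4 * |Tq q| := by
    intro q hq
    obtain ⟨k1, k2⟩ := mem_filter.1 hq
    obtain ⟨σ, s1, s2⟩ := hcon q k1
    have q1 := (hA q k1).1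
    have e1 : Tq q = ((B.filter fun n : ℕ => J(n | q) = 1).card : ℝ) -
        (B.filter fun n : ℕ => J(n | q) = -1).card := by
      simp only [hT, card_filter, Nat.cast_sum, ← sum_sub_distrib]
      refine sum_congr rfl fun n _ => ?_
      rcases jacobiSym.trichotomy n q with j | j | j <;> simp [Den.J, j]
    have e2 : B.card = (B.filter fun n : ℕ => J(n | q) = 1).card +
        (B.filter fun n : ℕ => J(n | q) = -1).card + (B.filter fun n => q ∣ n).card := by
      simp only [card_filter, ← sum_add_distrib]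
      rw [card_eq_sum_ones]
      refine sum_congr rfl fun n _ => ?_
      by_cases k : q ∣ n
      · simp [k, jac_zero q1.one_lt k]
      · rcases pm_jac' ((Nat.Prime.coprime_iff_not_dvd q1).2 k).symm with j | j <;> simp [k, j]
    have e3 : (B.card : ℝ) = _ := congrArg Nat.cast e2
    have k3 : (4 * (B.filter fun n => q ∣ n).card : ℝ) < B.card := by exact_mod_cast not_le.1 k2
    have s3 : (4 * (B.filter fun n : ℕ => J(n | q) = σ).card : ℝ) < B.card := by exact_mod_cast s2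
    push_cast at e3
    rcases s1 with rfl | rfl
    · linarith [neg_abs_le (Tq q)]
    · linarith [le_abs_self (Tq q)]
  have hA3 : A1 ⊆ Icc 1 (2 ^ a) := fun q hq =>
    mem_Icc.2 ⟨(hA q (mem_filter.1 hq).1).1.pos, (hA q (mem_filter.1 hq).1).2.2⟩
  have c3 := hb b a (fun m => if m ∈ B then (1 / 2) ^ κ else 0)
    (fun q => if q ∈ A1 then (if 0 ≤ Tq q then 1 / 2 else -(1 / 2)) else 0)
    (fun m => by
      split_ifs with k
      · rw [abs_of_nonneg (by positivity)]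
        exact pow_le_pow_of_le_one (by norm_num) (by norm_num) (hB m k).2.2
      · simpa using (g_pos m).le)
    (fun m k => (hB m (by by_contra k'; exact k (if_neg k'))).1)
    (fun q => by
      split_ifs with k k'
      · simp [g, (hA q (mem_filter.1 k).1).1.primeFactors]
      · simp [g, (hA q (mem_filter.1 k).1).1.primeFactors]
      · simpa using (g_pos q).le)
    fun q k => by
      have k1 : q ∈ A1 := by by_contra k'; exact k (if_neg k')
      exact ⟨(hA q (mem_filter.1 k1).1).2.1, (hA q (mem_filter.1 k1).1).1.squarefree⟩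
  have e4 : ∑ m ∈ Icc 1 (2 ^ b), ∑ q ∈ Icc 1 (2 ^ a), (if m ∈ B then (1 / 2 : ℝ) ^ κ else 0) *
      (if q ∈ A1 then (if 0 ≤ Tq q then 1 / 2 else -(1 / 2)) else 0) * Den.J m q =
      (1 / 2) ^ (κ + 1) * ∑ q ∈ A1, |Tq q| := by
    rw [sum_comm, mul_sum, ← sum_subset hA3 fun q _ hq => by simp [hq]]
    refine sum_congr rfl fun q hq => ?_
    rw [← sum_subset hB1 fun m _ hm => by simp [hm], if_pos hq,
      sum_congr rfl fun m hm => by rw [if_pos hm], ← mul_sum]
    split_ifs with k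
    · rw [abs_of_nonneg k]; ring
    · rw [abs_of_neg (not_le.1 k)]; ring
  rw [e4] at c3
  have c4 : (A1.card : ℝ) * B.card ≤ 4 * ∑ q ∈ A1, |Tq q| := by
    rw [mul_sum, ← nsmul_eq_mul, ← sum_const]
    exact sum_le_sum c1
  have c5 : (1 / 2) ^ (κ + 1) * ∑ q ∈ A1, |Tq q| ≤ C * 2 ^ (a + b) * ρ ^ w := by
    refine (le_abs_self _).trans (c3.trans ((div_le_self (by positivity) ?_).trans ?_))
    · exact Real.one_le_sqrt.2 (by linarith [Nat.cast_nonneg (α := ℝ) (max b a)])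
    · rw [add_comm b a]
      exact mul_le_mul_of_nonneg_left (pow_le_pow_of_le_one h0.le h1 (le_min wb wa))
        (by positivity)
  have c6 : 4 * ∑ q ∈ A1, |Tq q| ≤ 2 ^ (κ + 3) * C * 2 ^ (a + b) * ρ ^ w := by
    have := mul_le_mul_of_nonneg_left c5 (show (0 : ℝ) ≤ 2 ^ (κ + 3) by positivity)
    rw [← mul_assoc, show (2 : ℝ) ^ (κ + 3) * (1 / 2) ^ (κ + 1) = 4 by
      rw [pow_add, pow_add, one_div, inv_pow]; field_simp; norm_num] at this
    linarith
  have c7 : (A.card : ℝ) = A2.card + A1.card := by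
    exact_mod_cast (card_filter_add_card_filter_not _).symm
  have c8 : (A2.card : ℝ) * B.card ≤ 4 * κ * 2 ^ b := by exact_mod_cast c2
  rw [c7] at h
  linarith

lemma al_mul_right {i a b : ℕ} (ha : Odd a) (hb : Odd b) (h1 : a.Coprime i) (h2 : b.Coprime i) :
    al i (a * b) = al i a + al i b := by
  unfold al
  split_ifs
  · exact ga_mul ha hb
  · rw [Nat.cast_mul, jacobiSym.mul_left, sg_mul (pm_jac' h1) (pm_jac' h2)]

lemma al_mul_left {k a b : ℕ} (ha : Odd a) (hb : Odd b) (h1 : a.Coprime k) (h2 : b.Coprime k) :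
    al (a * b) k = al a k + al b k := by
  rw [al_odd (ha.mul hb), al_odd ha, al_odd hb, jacobiSym.mul_right' _ ha.pos.ne' hb.pos.ne',
    sg_mul (pm_jac' h1.symm) (pm_jac' h2.symm)]

lemma ga_congr {m n : ℕ} (h : m % 8 = n % 8) : ga m = ga n := by
  unfold ga
  rw [show m % 4 = n % 4 by omega]

lemma al_two_congr {m n : ℕ} (hm : Odd m) (hn : Odd n) (h : m % 8 = n % 8) : al m 2 = al n 2 := by
  rw [al_odd hm, al_odd hn, Nat.cast_ofNat, jacobiSym.at_two hm, jacobiSym.at_two hn,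
    ZMod.χ₈_nat_mod_eight m, ZMod.χ₈_nat_mod_eight n, h]

/-- Every number of the given type completes the system to an invertible one. -/
def TypeOK (P T F S : Finset ℕ) (c : ℕ) (ε : ℕ → ℤ) : Prop :=
  ∀ n : ℕ, n % 8 = c → (∀ p ∈ S, J(n | p) = ε p) → GA al P T F (fun i => al i n) (al n)

lemma split_type {P T F S : Finset ℕ} (hP : P ⊆ S) (hT : T ⊆ insert 2 S) (hF : F ⊆ S)
    (hS : ∀ p ∈ S, p.Prime ∧ Odd p) {c c2 : ℕ} {ε ε' : ℕ → ℤ} (hε' : ∀ p ∈ S, PM (ε' p))
    (H : TypeOK P T F S c ε) {q : ℕ} (hq : q.Prime) (ho : Odd q) (hqS : q ∉ S) (hc2 : Odd c2)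
    (hc : ∀ m, m % 8 = c2 → (q * m) % 8 = c) (hε : ∀ p ∈ S, J(q | p) * ε' p = ε p) :
    ∃ τ : ℤ, PM τ ∧ TypeOK (insert q P) T F (insert q S) c2 (Function.update ε' q τ) := by
  by_contra hcon
  push Not at hcon
  have key : ∀ τ : ℤ, PM τ → ∃ m : ℕ, m % 8 = c2 ∧ J(m | q) = τ ∧ (∀ p ∈ S, J(m | p) = ε' p) ∧
      ¬ GA al (insert q P) T F (fun i => al i m) (al m) := by
    intro τ hτ
    have := hcon τ hτ
    simp only [TypeOK, not_forall, forall_mem_insert, Function.update_self] at this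
    obtain ⟨m, a1, ⟨a2, a3⟩, a4⟩ := this
    exact ⟨m, a1, a2, fun p hp => by
      rw [a3 p hp, Function.update_of_ne fun e : p = q => hqS (e ▸ hp)], a4⟩
  obtain ⟨m, a1, a2, a3, a4⟩ := key 1 (Or.inl rfl)
  obtain ⟨n, b1, b2, b3, b4⟩ := key (-1) (Or.inr rfl)
  have c0 := Nat.odd_iff.1 hc2
  have mo : Odd m := Nat.odd_iff.2 (by omega)
  have no : Odd n := Nat.odd_iff.2 (by omega)
  have mn : n % 8 = m % 8 := b1.trans a1.symm
  have qc : ∀ p ∈ S, q.Coprime p := fun p hp =>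
    (Nat.coprime_primes hq (hS p hp).1).2 fun e => hqS (e ▸ hp)
  have mc : ∀ p ∈ S, m.Coprime p := fun p hp => cop_of_pm (hS p hp).1.ne_zero (a3 p hp ▸ hε' p hp)
  have nc : ∀ p ∈ S, n.Coprime p := fun p hp => cop_of_pm (hS p hp).1.ne_zero (b3 p hp ▸ hε' p hp)
  have mq : m.Coprime q := cop_of_pm hq.ne_zero (Or.inl a2)
  have nq : n.Coprime q := cop_of_pm hq.ne_zero (Or.inr b2)
  have hPF : ∀ k ∈ P ∪ F, k ∈ S := fun k hk => union_subset hP hF hk
  have r1 : ∀ p ∈ S, al p n = al p m := fun p hp => by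
    rw [al_odd (hS p hp).2, al_odd (hS p hp).2, a3 p hp, b3 p hp]
  have r2 : al q n = al q m + 1 := by rw [al_odd ho, al_odd ho, a2, b2, sg_one, sg_neg, zero_add]
  have H1 := (H (q * m) (hc m a1) fun p hp => by
    rw [Nat.cast_mul, jacobiSym.mul_left, a3 p hp, hε p hp]).congr
    (u' := fun i => al i q + al i m) (v' := fun k => al q k + al m k)
    (fun i hi => al_mul_right ho mo (qc i (hP hi)) (mc i (hP hi)))
    (fun i hi => by
      rcases mem_insert.1 (hT hi) with rfl | k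
      · exact al_mul_right ho mo (Nat.coprime_two_right.2 ho) (Nat.coprime_two_right.2 mo)
      · exact al_mul_right ho mo (qc i k) (mc i k))
    (fun k hk => al_mul_left ho mo (qc k (hPF k hk)) (mc k (hPF k hk)))
    (al_mul_left ho mo (Nat.coprime_two_right.2 ho) (Nat.coprime_two_right.2 mo))
  refine (H1.split (u' := fun i => al i n) (v' := al n) (al_self hq.one_lt)
    (fun k => hqS (hP k)) (fun k => hqS (hF k)) (fun i hi => r1 i (hP hi)) (fun i hi => ?_)
    (fun k hk => ?_) (al_two_congr no mo mn) r2 ?_).elim a4 b4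
  · rcases mem_insert.1 (hT hi) with rfl | k
    · simp only [al_two, ga_congr mn]
    · exact r1 i k
  · rw [al_recip no (hS k (hPF k hk)).2 (nc k (hPF k hk)),
      al_recip mo (hS k (hPF k hk)).2 (mc k (hPF k hk)), r1 k (hPF k hk), ga_congr mn]
  · rw [al_recip no ho nq, al_recip mo ho mq, r2, ga_congr mn]
    ring

end Pool.Agent.Lib.MP_90cf6f_nt.Uni
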