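import Pool.Agent.Lib.MP_90cf6f_nt.Uni.Range

/-! The count of the exceptional `a`. -/

namespace Pool.Agent.Lib.MP_90cf6f_nt.Uni

open Finset Filter

/-- The numbers up to `X` all of whose twists by `2 ≤ Q ≤ N` have positive rank. -/
def Exc (X N : ℕ) : Set ℕ := {a | 1 ≤ a ∧ a ≤ X ∧ ∀ Q : ℕ, 2 ≤ Q → Q ≤ N →
  0 < Module.rank ℤ (curve ((a : ℚ) * (Q : ℚ))).toAffine.Point}

lemma exc_le (X N : ℕ) : (Exc X N).ncard ≤ X := by
  have : Exc X N ⊆ (Icc 1 X : Finset ℕ) := fun a ha => mem_coe.2 (mem_Icc.2 ⟨ha.1, ha.2.1⟩)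
  simpa using Set.ncard_le_ncard this (finite_toSet _)

lemma inner (K0 : ℕ) {η : ℝ} (hη : 0 < η) : ∃ (C : ℝ) (N0 : ℕ), 0 ≤ C ∧ ∀ N X : ℕ, N0 ≤ N →
    X ≤ N ^ K0 → ((Exc X N).ncard : ℝ) ≤ C * X * ((N : ℝ) ^ η / N ^ 4) := by
  classical
  obtain ⟨lam, hc⟩ := core
  set K := 2 * K0 with hK
  set k := 2 * K with hk
  set r := 6 + ⌈24 / η⌉₊ with hr
  set κ1 := lam * (2 * r + 1) + lam + 1 + ⌈3 * (lam * (2 * k + 1)) / η⌉₊ with hκ1
  set κ := (r + 2) * κ1 with hκ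
  have κκ : κ1 ≤ κ := Nat.le_mul_of_pos_left _ (by omega)
  obtain ⟨w0, hw⟩ := eventually_atTop.1 ((hc κ K (by omega)).and
    (good_range (lam := lam) (r := r) (κ1 := κ1) (by omega) (by omega)))
  obtain ⟨D, D1, hD⟩ := divisor_bound (η := η / 3 / (k ^ 2 + 1)) (by positivity)
  set C2 : ℝ := 2 ^ (2 * r) with hC2
  refine ⟨1600 * D ^ k * C2 * (2 ^ (κ + 4)) ^ 4, 2 ^ (κ + 3 + κ * (w0 + κ + 4)), by positivity,
    fun N X hN hX => ?_⟩
  have N0 : N ≠ 0 := (lt_of_lt_of_le (by positivity) hN).ne'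
  obtain ⟨s, hs⟩ : ∃ s, Nat.log 2 N = s + κ + 3 ∧ κ * (w0 + κ + 4) ≤ s := by
    have := Nat.le_log_of_pow_le (by norm_num) hN
    exact ⟨Nat.log 2 N - (κ + 3), by omega, by omega⟩
  have κ0 : 0 < κ := by omega
  have n1 : 2 ^ (s + κ + 3) ≤ N := hs.1 ▸ Nat.pow_log_le_self 2 N0
  have n2 : N < 2 ^ (s + κ + 4) := by
    have := Nat.lt_pow_succ_log_self (b := 2) (by norm_num) N
    rwa [hs.1] at this
  set w := s / κ with hwd
  have w1 : w0 + κ + 4 ≤ w := (Nat.le_div_iff_mul_le κ0).2 (by rw [mul_comm]; exact hs.2)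
  have s1 : κ * w ≤ s := Nat.mul_div_le s κ
  have s2 : s < (κ + 1) * w := by
    have := Nat.lt_mul_div_succ s κ0
    rw [← hwd, mul_add] at this
    rw [add_mul]
    omega
  have s3 : κ + 4 ≤ s := le_trans (by omega) ((Nat.le_mul_of_pos_left w κ0).trans s1)
  have s4 : lam * w + 1 ≤ s := by
    have : (lam + 1) * w ≤ κ * w := Nat.mul_le_mul_right _ (by omega)
    rw [add_mul] at this
    omega
  have x1 : X ≤ 2 ^ (K * s) := by
    calc X ≤ (2 ^ (2 * s)) ^ K0 := hX.trans (Nat.pow_le_pow_left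
          (n2.le.trans (Nat.pow_le_pow_right (by norm_num) (by omega))) _)
      _ = _ := by rw [← pow_mul, hK]; congr 1; ring
  set E : ℝ := 2 ^ (s - lam * w) with hE
  set M : ℝ := 2 ^ (lam * w) with hM
  set y : ℝ := 2 ^ s with hy
  have e1 : y = M * E := by rw [hM, hE, ← pow_add, Nat.add_sub_cancel' (by omega)]
  have E2 : 2 ≤ E := le_self_pow₀ (by norm_num) (by omega)
  have M0 : 0 < M := by positivity
  have y1 : 1 ≤ y := one_le_pow₀ (by norm_num)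
  set u := y ^ (η / 3) with hu
  have u0 : 0 < u := by positivity
  have f1 : M ^ (2 * k + 1) ≤ u := by
    rw [hu, hy, hM, ← pow_mul, ← Real.rpow_natCast, ← Real.rpow_natCast 2 s,
      ← Real.rpow_mul (by norm_num)]
    refine Real.rpow_le_rpow_of_exponent_le (by norm_num) ?_
    have k1 : 3 * (lam * (2 * k + 1)) / η ≤ κ := by
      refine (Nat.le_ceil _).trans ?_
      exact_mod_cast (by omega : ⌈3 * (lam * (2 * k + 1)) / η⌉₊ ≤ κ)
    rw [div_le_iff₀ hη] at k1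
    have k2 : (κ : ℝ) * w ≤ s := by exact_mod_cast s1
    have k3 : (0 : ℝ) ≤ w := Nat.cast_nonneg _
    push_cast
    nlinarith
  have f2 : (D * (y ^ k) ^ (η / 3 / (k ^ 2 + 1))) ^ k ≤ D ^ k * u := by
    rw [mul_pow, ← Real.rpow_natCast y k, ← Real.rpow_mul (by linarith),
      ← Real.rpow_natCast (y ^ _) k, ← Real.rpow_mul (by linarith)]
    refine mul_le_mul_of_nonneg_left (Real.rpow_le_rpow_of_exponent_le y1 ?_) (by positivity)
    rw [show (k : ℝ) * (η / 3 / (k ^ 2 + 1)) * k = η / 3 * (k ^ 2 / (k ^ 2 + 1)) by ring]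
    exact mul_le_of_le_one_right (by positivity) ((div_le_one (by positivity)).2 (by linarith))
  set Z : ℕ := (2 ^ (2 * s / (r + 2))) ^ (2 * r) with hZ
  have Z0 : (0 : ℝ) < Z := by positivity
  have f3 : y ^ 4 ≤ Z * (C2 * u) := by
    have k0 := Nat.lt_mul_div_succ (2 * s) (show 0 < r + 2 by omega)
    rw [hZ, hC2, hu, hy]
    generalize 2 * s / (r + 2) = β at k0
    push_cast
    rw [← pow_mul, ← pow_mul, ← mul_assoc, ← pow_add, ← Real.rpow_natCast,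
      ← Real.rpow_natCast 2 (_ + _), ← Real.rpow_natCast 2 s, ← Real.rpow_mul (by norm_num),
      ← Real.rpow_add (by norm_num)]
    refine Real.rpow_le_rpow_of_exponent_le (by norm_num) ?_
    have k1 : 24 / η ≤ r := by
      refine (Nat.le_ceil _).trans ?_
      exact_mod_cast (by omega : ⌈24 / η⌉₊ ≤ r)
    rw [div_le_iff₀ hη] at k1
    have k2 : (2 * s : ℝ) ≤ (r + 2) * (β + 1) := by exact_mod_cast k0.le
    have k3 : (0 : ℝ) ≤ s := Nat.cast_nonneg _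
    have k4 : (0 : ℝ) ≤ r := Nat.cast_nonneg _
    push_cast
    refine le_of_mul_le_mul_left (a := (r : ℝ) + 2) ?_ (by linarith)
    nlinarith [mul_le_mul_of_nonneg_left k2 k4, mul_le_mul_of_nonneg_left k1 k3,
      mul_nonneg k3 hη.le]
  have f4 : u ^ 3 ≤ (N : ℝ) ^ η := by
    rw [hu, ← Real.rpow_natCast, ← Real.rpow_mul (by linarith)]
    rw [show η / 3 * (3 : ℕ) = η by push_cast; ring]
    refine Real.rpow_le_rpow (by linarith) ?_ hη.le
    rw [hy]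
    exact_mod_cast (Nat.pow_le_pow_right (by norm_num) (by omega : s ≤ s + κ + 3)).trans n1
  have f5 : (N : ℝ) ≤ 2 ^ (κ + 4) * y := by
    rw [hy, ← pow_add]
    exact_mod_cast n2.le.trans (Nat.pow_le_pow_right (by norm_num) (by omega))
  set Bd := (Icc 1 X).filter fun d => Odd d ∧ Squarefree d ∧ ¬ GoodD (2 ^ s) E d with hBd
  have b1 := bad_count (y := 2 ^ s) (M := 2 ^ (lam * w)) k X (E := E)
    (Dm := D * (y ^ k) ^ (η / 3 / (k ^ 2 + 1))) (fun m hm => (hD m).trans (by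
      gcongr
      rw [hy]
      exact_mod_cast hm)) E2 (by push_cast; exact e1.le)
  rw [← hBd] at b1
  push_cast at b1
  rw [← hM, ← hy] at b1
  have b2 : (Bd.card : ℝ) ≤ 1600 * M ^ (2 * k + 1) * (D ^ k * u) := by
    have k1 : (X : ℝ) ^ 2 ≤ y ^ k := by
      rw [hy, ← pow_mul, hk, show s * (2 * K) = K * s * 2 by ring, pow_mul]
      gcongr
      exact_mod_cast x1
    refine le_of_mul_le_mul_right (a := E ^ (2 * k)) (b1.trans ?_) (by positivity)
    calc _ ≤ 8 * M * (100 * (y ^ k + y ^ k) * (D ^ k * u * y ^ k)) := by gcongr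
      _ = _ := by rw [e1]; ring
  have b3 : Exc X N ⊆ ((Bd.filter fun d => 1 < d).biUnion fun d =>
      (Ioc 0 X).filter fun a => d ∣ a : Finset ℕ) := by
    intro a ⟨a1, a2, a3⟩
    by_contra hn
    obtain ⟨Q, q1, q2, q3⟩ := (hw w (by omega)).1 s s1 s2 a (by omega) (a2.trans x1)
      fun d d1 d2 d3 d4 => by
        by_contra hg
        exact hn (mem_coe.2 (mem_biUnion.2 ⟨d, mem_filter.2 ⟨mem_filter.2 ⟨mem_Icc.2
          ⟨d4.le, (Nat.le_of_dvd a1 d1).trans a2⟩, d2, d3, hg⟩, d4⟩,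
          mem_filter.2 ⟨mem_Ioc.2 ⟨a1, a2⟩, d1⟩⟩))
    exact q3 (a3 Q q1 (q2.trans n1))
  have b4 := Set.ncard_le_ncard b3 (finite_toSet _)
  rw [Set.ncard_coe_finset] at b4
  have b5 : ∀ d ∈ Bd.filter fun d => 1 < d,
      (((Ioc 0 X).filter fun a => d ∣ a).card : ℝ) ≤ X * (C2 * u / y ^ 4) := by
    intro d hd
    obtain ⟨hd, d1⟩ := mem_filter.1 hd
    obtain ⟨-, d2, d3, d4⟩ := mem_filter.1 hd
    have d5 : (0 : ℝ) < d := by exact_mod_cast d2.pos
    have k1 : (Z : ℝ) ≤ d := by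
      exact_mod_cast (not_le.1 fun h => d4 ((hw w (by omega)).2 s s1 s2 d d2 d3 d1 h)).le
    rw [Nat.Ioc_filter_dvd_card_eq_div]
    refine Nat.cast_div_le.trans ?_
    rw [div_eq_mul_inv, ← one_div]
    refine mul_le_mul_of_nonneg_left ?_ (Nat.cast_nonneg _)
    rw [div_le_div_iff₀ d5 (by positivity), one_mul, mul_comm]
    exact f3.trans (by gcongr)
  have N1 : (0 : ℝ) < N := by exact_mod_cast Nat.pos_of_ne_zero N0
  calc ((Exc X N).ncard : ℝ)
      ≤ ∑ d ∈ Bd.filter fun d => 1 < d, (((Ioc 0 X).filter fun a => d ∣ a).card : ℝ) := by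
        exact_mod_cast b4.trans card_biUnion_le
    _ ≤ (Bd.filter fun d => 1 < d).card * (X * (C2 * u / y ^ 4)) := by
        rw [← nsmul_eq_mul]
        exact sum_le_card_nsmul _ _ _ b5
    _ ≤ 1600 * u * (D ^ k * u) * (X * (C2 * u / (N / 2 ^ (κ + 4)) ^ 4)) := by
        gcongr
        · refine le_trans (by exact_mod_cast card_filter_le _ _) (b2.trans ?_)
          gcongr
        · rw [div_le_iff₀' (by positivity)]
          exact f5
    _ = 1600 * D ^ k * C2 * (2 ^ (κ + 4)) ^ 4 * X * (u ^ 3 / N ^ 4) := by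
        field_simp
    _ ≤ _ := by gcongr

theorem main (ε : ℝ) (hε : 0 < ε) : ∃ C : ℝ, ∀ X N : ℕ, (X : ℝ) ^ ε ≤ N →
    ((Exc X N).ncard : ℝ) ≤ C * X * (N : ℝ) ^ (ε - 4) := by
  obtain ⟨C, N0, C0, h⟩ := inner ⌈1 / ε⌉₊ hε
  refine ⟨C + N0 ^ 4, fun X N hX => ?_⟩
  have h0 : ((Exc X N).ncard : ℝ) ≤ X := by exact_mod_cast exc_le X N
  rcases Nat.eq_zero_or_pos X with rfl | X0
  · simpa using h0
  have X1 : (1 : ℝ) ≤ X := by exact_mod_cast X0
  have N1 : (1 : ℝ) ≤ N := (Real.one_le_rpow X1 hε.le).trans hX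
  have e1 : (N : ℝ) ^ (ε - 4) = (N : ℝ) ^ ε / N ^ 4 := by
    rw [Real.rpow_sub (by linarith), Real.rpow_ofNat]
  have e2 : (1 : ℝ) ≤ (N : ℝ) ^ ε := Real.one_le_rpow N1 hε.le
  rw [e1]
  rcases le_total N0 N with hN | hN
  · refine (h N X hN ?_).trans (by gcongr; exact le_add_of_nonneg_right (by positivity))
    have : (X : ℝ) ≤ (N : ℝ) ^ ⌈1 / ε⌉₊ := by
      calc (X : ℝ) = ((X : ℝ) ^ ε) ^ (1 / ε) := by
            rw [← Real.rpow_mul (by linarith), mul_one_div_cancel hε.ne', Real.rpow_one]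
        _ ≤ (N : ℝ) ^ (1 / ε) := by gcongr
        _ ≤ (N : ℝ) ^ ((⌈1 / ε⌉₊ : ℕ) : ℝ) := Real.rpow_le_rpow_of_exponent_le N1 (Nat.le_ceil _)
        _ = _ := Real.rpow_natCast _ _
    exact_mod_cast this
  · have k1 : (N : ℝ) ≤ N0 := by exact_mod_cast hN
    calc _ ≤ (X : ℝ) := h0
      _ = N ^ 4 * X * (1 / N ^ 4) := by field_simp
      _ ≤ (0 + N0 ^ 4) * X * ((N : ℝ) ^ ε / N ^ 4) := by rw [zero_add]; gcongr
      _ ≤ _ := by gcongr

end Pool.Agent.Lib.MP_90cf6f_nt.Uni
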