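import Pool.Agent.Lib.MP_90cf6f_nt.Uni.Bad
import Pool.Agent.Lib.MP_90cf6f_nt.Uni.Sel
import Pool.Agent.Lib.MP_232f4c_nt.OddWeil

/-! High moments of short sums of the Jacobi symbol. -/

namespace Pool.Agent.Lib.MP_90cf6f_nt.Uni

open Finset NumberTheorySymbols

lemma sum_aff_perm {d : ℕ} (hd : 0 < d) {c : ℤ} (hc : c.gcd d = 1) (v : ℤ) (F : ℤ → ℝ)
    (hF : ∀ a, F (a % d) = F a) : ∑ h ∈ range d, F (c * h + v) = ∑ h ∈ range d, F h := by
  have hd' : (0 : ℤ) < d := by exact_mod_cast hd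
  have hm : ∀ h : ℕ, ((((c * h + v) % d).toNat : ℕ) : ℤ) = (c * h + v) % d := fun h =>
    Int.toNat_of_nonneg (Int.emod_nonneg _ hd'.ne')
  have hinj : Set.InjOn (fun h : ℕ => ((c * h + v) % d).toNat) (range d) := by
    intro a ha b hb hab
    have h1 : (c * a + v) % d = (c * b + v) % d := by
      rw [← hm a, ← hm b]; exact congrArg _ hab
    have h2 : (d : ℤ) ∣ (b - a) * c := by
      rw [show ((b : ℤ) - a) * c = c * b + v - (c * a + v) by ring]; exact Int.ModEq.dvd h1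
    have h3 : (d : ℤ) ∣ b - a :=
      (Int.isCoprime_iff_gcd_eq_one.2 hc).symm.dvd_of_dvd_mul_right h2
    have ha' := mem_range.1 (mem_coe.1 ha)
    have hb' := mem_range.1 (mem_coe.1 hb)
    have := (pl_dvd_iff (D := d) (a := b) (b := a) (by rw [abs_lt]; constructor <;> omega)).1 h3
    omega
  have him : (range d).image (fun h : ℕ => ((c * h + v) % d).toNat) = range d := by
    refine eq_of_subset_of_card_le (fun x hx => ?_) (card_image_of_injOn hinj).ge
    obtain ⟨h, -, rfl⟩ := mem_image.1 hx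
    have := Int.emod_lt_of_pos (c * h + v) hd'
    have := hm h
    rw [mem_range]
    omega
  conv_rhs => rw [← him, sum_image hinj]
  exact sum_congr rfl fun h _ => by rw [hm, hF]

lemma sum_range_mul' (m n : ℕ) (F : ℕ → ℝ) :
    ∑ t ∈ range (m * n), F t = ∑ u ∈ range m, ∑ v ∈ range n, F (n * u + v) := by
  induction m with
  | zero => simp
  | succ m ih => rw [add_mul, one_mul, sum_range_add, ih, sum_range_succ, mul_comm m n]

lemma crt_sum {m n : ℕ} (hm : 0 < m) (h : n.Coprime m) (f g : ℤ → ℝ) (hf : ∀ a, f (a % m) = f a)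
    (hg : ∀ a, g (a % n) = g a) :
    ∑ t ∈ range (m * n), f t * g t = (∑ t ∈ range m, f t) * ∑ t ∈ range n, g t := by
  rw [sum_range_mul', sum_comm, mul_sum]
  refine sum_congr rfl fun v _ => ?_
  rw [← sum_aff_perm hm (c := n) (by simpa using h) v f hf, sum_mul]
  refine sum_congr rfl fun u _ => ?_
  push_cast
  rw [← hg (n * u + v), Int.mul_add_emod_self_left, hg]

/-- The part of `h` made of primes in `D`. -/
def gam (D : Finset ℕ) (h : ℤ) : ℕ := ∏ p ∈ D, if (p : ℤ) ∣ h then p else 1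

lemma loc_weil {ι : Type} [Fintype ι] [DecidableEq ι] {p : ℕ} (hp : p.Prime) (ho : Odd p)
    (b : ι → ℕ) (j0 : ι) : |∑ t ∈ range p, ∏ j, (J(t + b j | p) : ℝ)| ≤
      20 * Fintype.card ι * √p *
        ∏ j ∈ univ.erase j0, ((if (p : ℤ) ∣ (b j : ℤ) - b j0 then p else 1 : ℕ) : ℝ) := by
  have p1 : (1 : ℝ) ≤ p := by exact_mod_cast hp.one_le
  have c1 : (1 : ℝ) ≤ Fintype.card ι := by exact_mod_cast Fintype.card_pos_iff.2 ⟨j0⟩
  have s1 : 1 ≤ √p := Real.one_le_sqrt.2 p1
  have g1 : ∀ j : ι, (1 : ℝ) ≤ ((if (p : ℤ) ∣ (b j : ℤ) - b j0 then p else 1 : ℕ) : ℝ) :=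
    fun j => by split_ifs <;> simp [hp.one_le]
  by_cases h : ∃ j ∈ univ.erase j0, (p : ℤ) ∣ (b j : ℤ) - b j0
  · obtain ⟨j, hj, k⟩ := h
    have k1 : (p : ℝ) ≤
        ∏ j ∈ univ.erase j0, ((if (p : ℤ) ∣ (b j : ℤ) - b j0 then p else 1 : ℕ) : ℝ) := by
      rw [← mul_prod_erase _ _ hj, if_pos k]
      exact le_mul_of_one_le_right (by linarith) (one_le_prod fun j _ => g1 j)
    have k2 : |∑ t ∈ range p, ∏ j, (J(t + b j | p) : ℝ)| ≤ p := by
      refine (abs_sum_le_sum_abs _ _).trans ?_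
      refine (sum_le_card_nsmul _ _ 1 fun t _ => ?_).trans (by simp)
      rw [abs_prod]
      exact prod_le_one (fun _ _ => abs_nonneg _) fun j _ => Den.abs_J_le _ _
    refine k2.trans (k1.trans (le_mul_of_one_le_left (by linarith) (by nlinarith)))
  · push Not at h
    have : Fact p.Prime := ⟨hp⟩
    have h2 : ringChar (ZMod p) ≠ 2 := by
      rw [ZMod.ringChar_zmod_n]
      rintro rfl
      exact absurd ho (by decide)
    have w := MP_232f4c_nt.OddWeil.weil_shifts h2 univ (fun j => (b j : ZMod p)) j0 (mem_univ _)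
      fun j _ hj e => h j (mem_erase.2 ⟨hj, mem_univ _⟩) (by
        rw [← ZMod.intCast_zmod_eq_zero_iff_dvd]
        push_cast
        exact sub_eq_zero.2 e)
    rw [ZMod.card, card_univ] at w
    have e : ∑ t ∈ range p, ∏ j, (J(t + b j | p) : ℝ) =
        ∑ x : ZMod p, ∏ j, ((quadraticChar (ZMod p) (x + (b j : ZMod p)) : ℤ) : ℝ) := by
      refine sum_nbij' (fun t => (t : ZMod p)) ZMod.val (fun _ _ => mem_univ _)
        (fun x _ => mem_range.2 (ZMod.val_lt x)) (fun t ht => ZMod.val_cast_of_lt (mem_range.1 ht))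
        (fun x _ => ZMod.natCast_zmod_val x) fun t _ => prod_congr rfl fun j _ => ?_
      rw [← jacobiSym.legendreSym.to_jacobiSym, legendreSym]
      push_cast
      rfl
    rw [e]
    exact w.trans (le_mul_of_one_le_right (by positivity) (one_le_prod fun j _ => g1 j))

lemma glob_weil {ι : Type} [Fintype ι] [DecidableEq ι] (b : ι → ℕ) (j0 : ι) (D : Finset ℕ)
    (hD : ∀ p ∈ D, p.Prime ∧ Odd p) :
    |∑ t ∈ range (∏ p ∈ D, p), ∏ j, (J(t + b j | ∏ p ∈ D, p) : ℝ)| ≤
      (20 * Fintype.card ι) ^ D.card * √(∏ p ∈ D, p : ℕ) *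
        ∏ j ∈ univ.erase j0, (gam D ((b j : ℤ) - b j0) : ℝ) := by
  induction D using Finset.induction_on with
  | empty => simp [gam]
  | insert p D hp ih =>
    rw [forall_mem_insert] at hD
    have h0 : ∏ p ∈ D, p ≠ 0 := prod_ne_zero_iff.2 fun q hq => (hD.2 q hq).1.ne_zero
    have per : ∀ (n : ℕ) (a : ℤ), ∏ j, (J(a % n + b j | n) : ℝ) = ∏ j, (J(a + b j | n) : ℝ) :=
      fun n a => prod_congr rfl fun j _ => by
        rw [jacobiSym.mod_left' (a₂ := a + b j) (Int.emod_add_emod _ _ _)]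
    have e := crt_sum hD.1.1.pos (Nat.Coprime.prod_left
      (cop_of_notMem (fun q hq => (hD.2 q hq).1) hD.1.1 hp)) (fun a => ∏ j, (J(a + b j | p) : ℝ))
      (fun a => ∏ j, (J(a + b j | ∏ p ∈ D, p) : ℝ)) (per p) (per _)
    simp only [prod_insert hp, jacobiSym.mul_right' _ hD.1.1.ne_zero h0, Int.cast_mul,
      prod_mul_distrib, gam, Nat.cast_mul, card_insert_of_notMem hp]
    rw [e, abs_mul, Real.sqrt_mul (Nat.cast_nonneg _)]
    refine (mul_le_mul (loc_weil hD.1.1 hD.1.2 b j0) (ih hD.2) (abs_nonneg _)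
      (by positivity)).trans (le_of_eq ?_)
    simp only [gam]
    ring

lemma gam_sum {D : Finset ℕ} (hD : ∀ p ∈ D, p.Prime) (B : ℕ) :
    ∑ h ∈ Ioc 0 B, gam D h ≤ B * (∏ p ∈ D, p).divisors.card := by
  have h0 : ∏ p ∈ D, p ≠ 0 := prod_ne_zero_iff.2 fun q hq => (hD q hq).ne_zero
  calc _ ≤ ∑ h ∈ Ioc 0 B, ∑ g ∈ (∏ p ∈ D, p).divisors, if g ∣ h then g else 0 := by
        refine sum_le_sum fun h _ => ?_
        have e : gam D h = ∏ p ∈ D with p ∣ h, p := by
          simp only [gam, prod_filter, Int.natCast_dvd_natCast]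
        have k1 : gam D h ∈ (∏ p ∈ D, p).divisors :=
          Nat.mem_divisors.2 ⟨e ▸ prod_dvd_prod_of_subset _ _ _ (filter_subset _ _), h0⟩
        have k2 : gam D h ∣ h := e ▸ prod_primes_dvd _
          (fun p hp => (hD p (mem_filter.1 hp).1).prime) fun p hp => (mem_filter.1 hp).2
        refine le_trans (le_of_eq (if_pos k2).symm)
          (single_le_sum (f := fun g => if g ∣ h then g else 0) (fun _ _ => Nat.zero_le _) k1)
    _ ≤ _ := by
        rw [sum_comm, mul_comm, ← smul_eq_mul]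
        refine sum_le_card_nsmul _ _ _ fun g _ => ?_
        rw [← sum_filter, sum_const, Nat.Ioc_filter_dvd_card_eq_div, smul_eq_mul]
        exact Nat.div_mul_le_self _ _

lemma sum_le_inj {s t : Finset ℕ} {f g : ℕ → ℕ} (e : ℕ → ℕ) (h1 : Set.InjOn e s)
    (h2 : s.image e ⊆ t) (h3 : ∀ x ∈ s, f x ≤ g (e x)) : ∑ x ∈ s, f x ≤ ∑ y ∈ t, g y :=
  (sum_le_sum h3).trans ((sum_image h1).ge.trans (sum_le_sum_of_subset h2))

lemma gam_sum' {D : Finset ℕ} (hD : ∀ p ∈ D, p.Prime) {B x0 : ℕ} (h0 : x0 ∈ Ioc 0 B) :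
    ∑ x ∈ Ioc 0 B, (if x = x0 then 0 else gam D ((x : ℤ) - x0)) ≤
      2 * B * (∏ p ∈ D, p).divisors.card := by
  rw [mem_Ioc] at h0
  have k1 : ∑ x ∈ (Ioc 0 B).filter (x0 < ·), (if x = x0 then 0 else gam D ((x : ℤ) - x0)) ≤
      ∑ h ∈ Ioc 0 B, gam D h := by
    refine sum_le_inj (fun x => x - x0) (fun x hx y hy e => ?_) (fun x hx => ?_)
      fun x hx => ?_
    · simp only [coe_filter, mem_Ioc, Set.mem_ofPred_eq] at hx hy e
      omega
    · obtain ⟨y, hy, rfl⟩ := mem_image.1 hx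
      simp only [mem_filter, mem_Ioc] at hy ⊢
      omega
    · have := (mem_filter.1 hx).2
      rw [if_neg (by omega), Nat.cast_sub this.le]
  have k2 : ∑ x ∈ (Ioc 0 B).filter (¬ x0 < ·), (if x = x0 then 0 else gam D ((x : ℤ) - x0)) ≤
      ∑ h ∈ Ioc 0 B, gam D h := by
    rw [← sum_filter_ne_zero]
    refine sum_le_inj (fun x => x0 - x) (fun x hx y hy e => ?_) (fun x hx => ?_)
      fun x hx => ?_
    · simp only [coe_filter, mem_filter, mem_Ioc, Set.mem_ofPred_eq] at hx hy e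
      omega
    · obtain ⟨y, hy, rfl⟩ := mem_image.1 hx
      obtain ⟨hy, k⟩ := mem_filter.1 hy
      have : y ≠ x0 := fun e => k (if_pos e)
      simp only [mem_filter, mem_Ioc] at hy ⊢
      omega
    · have := not_lt.1 (mem_filter.1 (mem_filter.1 hx).1).2
      split_ifs
      · exact Nat.zero_le _
      · rw [Nat.cast_sub this, ← neg_sub (x0 : ℤ) x]
        simp only [gam, dvd_neg, le_refl]
  rw [← sum_filter_add_sum_filter_not _ (x0 < ·), mul_assoc, two_mul]
  exact add_le_add (k1.trans (gam_sum hD B)) (k2.trans (gam_sum hD B))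

lemma deg_card {r B : ℕ} (h : r ≤ B) :
    ((Fintype.piFinset fun _ : Fin (2 * r) => Ioc 0 B).filter
      fun f => ∀ j, ∃ j', j' ≠ j ∧ f j' = f j).card ≤ B ^ r * r ^ (2 * r) := by
  have h1 : ((Fintype.piFinset fun _ : Fin (2 * r) => Ioc 0 B).filter
      fun f => ∀ j, ∃ j', j' ≠ j ∧ f j' = f j) ⊆ (powersetCard r (Ioc 0 B)).biUnion
        fun U => Fintype.piFinset fun _ : Fin (2 * r) => U := by
    intro f hf
    obtain ⟨a1, a2⟩ := mem_filter.1 hf
    have a3 := mul_card_image_le_card (f := f) univ 2 fun b hb => by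
      obtain ⟨j, -, rfl⟩ := mem_image.1 hb
      obtain ⟨j', k1, k2⟩ := a2 j
      exact one_lt_card.2 ⟨j', by simp [k2], j, by simp, k1⟩
    rw [card_univ, Fintype.card_fin] at a3
    obtain ⟨U, u1, u2, u3⟩ := exists_subsuperset_card_eq (s := univ.image f) (t := Ioc 0 B) (n := r)
      (image_subset_iff.2 fun j _ => Fintype.mem_piFinset.1 a1 j) (by omega) (by simpa using h)
    exact mem_biUnion.2 ⟨U, mem_powersetCard.2 ⟨u2, u3⟩,
      Fintype.mem_piFinset.2 fun j => u1 (mem_image_of_mem _ (mem_univ j))⟩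
  refine (card_le_card h1).trans ((card_biUnion_le_card_mul _ _ (r ^ (2 * r)) fun U hU => ?_).trans
    (Nat.mul_le_mul_right _ ?_))
  · rw [Fintype.card_piFinset_const, (mem_powersetCard.1 hU).2]
  · rw [card_powersetCard, Nat.card_Ioc]
    exact Nat.choose_le_pow _ _

theorem mom {d r B : ℕ} (ho : Odd d) (hs : Squarefree d) (h : r ≤ B) :
    ∑ t ∈ range d, (∑ b ∈ Ioc 0 B, (J(t + b | d) : ℝ)) ^ (2 * r) ≤ B ^ r * r ^ (2 * r) * d +
      2 * r * (40 * r) ^ d.primeFactors.card * √d * (2 * B * d.divisors.card) ^ (2 * r) := by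
  have hD : ∀ p ∈ d.primeFactors, p.Prime ∧ Odd p := fun p hp =>
    ⟨Nat.prime_of_mem_primeFactors hp, ho.of_dvd_nat (Nat.dvd_of_mem_primeFactors hp)⟩
  have hd := Nat.prod_primeFactors_of_squarefree hs
  generalize d.primeFactors = D at hD hd
  set W := Fintype.piFinset fun _ : Fin (2 * r) => Ioc 0 B with hW
  set K : ℝ := (40 * r) ^ D.card * √d with hK
  set G : ℝ := 2 * B * d.divisors.card with hG
  set φ : Fin (2 * r) → ℕ → Fin (2 * r) → ℕ → ℝ := fun j0 x0 j x =>
    if j = j0 then (if x = x0 then 1 else 0)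
    else ((if x = x0 then 0 else gam D ((x : ℤ) - x0) : ℕ) : ℝ) with hφ
  have φ0 : ∀ j0 x0 j x, 0 ≤ φ j0 x0 j x := fun j0 x0 j x => by
    simp only [hφ]
    split_ifs <;> positivity
  have K0 : 0 ≤ K := by positivity
  have e1 : ∀ f ∈ W, ∑ t ∈ range d, ∏ j, (J(t + f j | d) : ℝ) ≤
      (if ∀ j, ∃ j', j' ≠ j ∧ f j' = f j then (d : ℝ) else 0) +
        ∑ j0, ∑ x0 ∈ Ioc 0 B, K * ∏ j, φ j0 x0 j (f j) := by
    intro f hf
    have n0 : ∀ j0 x0, 0 ≤ K * ∏ j, φ j0 x0 j (f j) := fun j0 x0 =>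
      mul_nonneg K0 (prod_nonneg fun j _ => φ0 _ _ _ _)
    split_ifs with k
    · refine le_trans ?_ (le_add_of_nonneg_right
        (sum_nonneg fun j0 _ => sum_nonneg fun x0 _ => n0 j0 x0))
      refine (sum_le_card_nsmul _ _ 1 fun t _ => (le_abs_self _).trans ?_).trans (by simp)
      rw [abs_prod]
      exact prod_le_one (fun _ _ => abs_nonneg _) fun j _ => Den.abs_J_le _ _
    · push Not at k
      obtain ⟨j0, k⟩ := k
      have w := glob_weil f j0 D hD
      rw [hd, Fintype.card_fin] at w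
      rw [zero_add]
      refine (le_abs_self _).trans (w.trans (le_trans ?_ ((single_le_sum
        (f := fun x0 => K * ∏ j, φ j0 x0 j (f j)) (fun x0 _ => n0 j0 x0)
        (Fintype.mem_piFinset.1 hf j0)).trans (single_le_sum
        (f := fun j0 => ∑ x0 ∈ Ioc 0 B, K * ∏ j, φ j0 x0 j (f j))
        (fun j0 _ => sum_nonneg fun x0 _ => n0 j0 x0) (mem_univ j0)))))
      rw [← mul_prod_erase univ _ (mem_univ j0), hK]
      refine le_of_eq ?_
      congr 1
      · push_cast
        ring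
      · simp only [hφ, if_true, one_mul]
        exact prod_congr rfl fun j hj => by
          rw [if_neg (mem_erase.1 hj).1, if_neg (k j (mem_erase.1 hj).1)]
  have e2 : ∀ j0 : Fin (2 * r), ∑ x0 ∈ Ioc 0 B, ∑ f ∈ W, ∏ j, φ j0 x0 j (f j) ≤ G ^ (2 * r) := by
    intro j0
    have τ1 : (1 : ℝ) ≤ d.divisors.card := by
      exact_mod_cast card_pos.2 ⟨1, Nat.one_mem_divisors.2 ho.pos.ne'⟩
    have B0 : (0 : ℝ) ≤ B := Nat.cast_nonneg _
    calc _ ≤ ∑ _x0 ∈ Ioc 0 B, ∏ _j ∈ univ.erase j0, G := by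
          refine sum_le_sum fun x0 hx0 => ?_
          rw [hW, ← prod_univ_sum, ← mul_prod_erase univ _ (mem_univ j0)]
          simp only [hφ, if_true, sum_ite_eq', hx0, one_mul]
          refine prod_le_prod (fun j _ => sum_nonneg fun x _ => φ0 j0 x0 j x) fun j hj => ?_
          simp only [if_neg (mem_erase.1 hj).1]
          have := gam_sum' (fun p hp => (hD p hp).1) hx0
          rw [hd] at this
          rw [hG]
          exact_mod_cast this
      _ ≤ G * ∏ _j ∈ univ.erase j0, G := by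
          rw [sum_const, Nat.card_Ioc, nsmul_eq_mul, Nat.sub_zero]
          exact mul_le_mul_of_nonneg_right (by nlinarith) (prod_nonneg fun _ _ => by positivity)
      _ = _ := by
          rw [mul_prod_erase univ (fun _ => G) (mem_univ j0), prod_const, card_univ,
            Fintype.card_fin]
  simp only [sum_pow']
  rw [sum_comm]
  refine (sum_le_sum e1).trans ?_
  rw [sum_add_distrib, ← sum_filter, sum_const, nsmul_eq_mul, sum_comm]
  refine add_le_add (mul_le_mul_of_nonneg_right (by exact_mod_cast deg_card h)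
    (Nat.cast_nonneg _)) ?_
  refine (sum_le_card_nsmul _ _ (K * G ^ (2 * r)) fun j0 _ => ?_).trans (le_of_eq ?_)
  · rw [sum_comm]
    simp only [← mul_sum]
    exact mul_le_mul_of_nonneg_left (e2 j0) K0
  · rw [card_univ, Fintype.card_fin, nsmul_eq_mul, hK]
    push_cast
    ring

end Pool.Agent.Lib.MP_90cf6f_nt.Uni
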