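import Pool.Agent.Lib.MP_90cf6f_nt.Uni.Core
import Pool.Agent.Lib.MP_90cf6f_nt.Uni.Burg

/-! All moduli almost up to the fourth power of the length are good. -/

namespace Pool.Agent.Lib.MP_90cf6f_nt.Uni

open Finset Filter

theorem good_range {lam r κ1 : ℕ} (hr : 6 ≤ r) (hκ : lam * (2 * r + 1) + 1 ≤ 2 * κ1) :
    ∀ᶠ w : ℕ in atTop, ∀ s : ℕ, (r + 2) * κ1 * w ≤ s → s < ((r + 2) * κ1 + 1) * w →
      ∀ d : ℕ, Odd d → Squarefree d → 1 < d → d ≤ (2 ^ (2 * s / (r + 2))) ^ (2 * r) →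
        GoodD (2 ^ s) (2 ^ (s - lam * w)) d := by
  filter_upwards [master' (ρ := 1 / 2) (by norm_num) (by norm_num) (4 * ((r + 2) * κ1 + 1))
    (42 * r + 2) (C := 8 * (2 ^ (2 * r) * 2 * (r ^ (2 * r) + 2 * r * 2 ^ (2 * r))))
    (by positivity), eventually_ge_atTop r] with w ⟨Dm, D1, hD, hw⟩ wr s s1 s2 d ho hs d1 hdB
  have D0 : 0 < Dm := one_pos.trans_le D1
  set β := 2 * s / (r + 2) with hβ
  have b1 : (r + 2) * β ≤ 2 * s := Nat.mul_div_le _ _
  have b7 : β * (r + 2) ≤ s * 2 := by rwa [mul_comm β, mul_comm s]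
  have b2 : 2 * κ1 * w ≤ β := (Nat.le_div_iff_mul_le (by omega)).2 (by nlinarith)
  have b3 : lam * w * (2 * r + 1) + w ≤ β := by nlinarith
  have b4 : 4 * β ≤ s := by nlinarith
  have b5 : lam * w ≤ lam * w * (2 * r + 1) := Nat.le_mul_of_pos_right _ (by omega)
  obtain ⟨α, hα⟩ : ∃ α, s = lam * w + (2 + α + β) := ⟨s - lam * w - 2 - β, by omega⟩
  have b6 : β ≤ α := by omega
  have e1 : s - lam * w = 2 + α + β := by omega
  rw [e1]
  set A : ℝ := 2 ^ α with hA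
  set B : ℝ := 2 ^ β with hB
  set M : ℝ := 2 ^ (lam * w) with hM
  have e2 : (2 : ℝ) ^ (2 + α + β) = 4 * A * B := by rw [pow_add, pow_add, hA, hB]; norm_num
  have e3 : (2 : ℝ) ^ s = M * (4 * A * B) := by rw [← e2, hM, ← pow_add, ← hα]
  have AB : B ≤ A := pow_le_pow_right₀ (by norm_num) b6
  have B0 : 0 < B := by positivity
  have M1 : 1 ≤ M := one_le_pow₀ (by norm_num)
  have d0 : (0 : ℝ) < d := by exact_mod_cast ho.pos
  rcases le_total (d : ℝ) (B ^ 2) with hd | hd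
  · refine goodD_small (by positivity) ho hs d1 ?_
    have k1 : Real.log d ≤ 2 * β := by
      have k2 := Real.log_le_log d0 hd
      rw [hB, ← pow_mul, Real.log_pow] at k2
      have k5 : (0 : ℝ) ≤ β := by positivity
      push_cast at k2
      nlinarith [Real.log_two_lt_d9]
    have k3 : (β : ℝ) + 1 ≤ B := succ_le_two_pow β
    have k4 := Real.log_natCast_nonneg d
    rw [e2]
    calc _ ≤ B ^ 2 * (4 * A) ^ 2 := by gcongr; linarith
      _ = _ := by ring
  have sw : 4 * s ≤ 4 * ((r + 2) * κ1 + 1) * w := by nlinarith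
  have τ1 : (d.divisors.card : ℝ) ≤ Dm := hD d (hdB.trans (by
    rw [← pow_mul]
    exact Nat.pow_le_pow_right (by norm_num) (by nlinarith)))
  have ω1 : (2 : ℝ) ^ d.primeFactors.card ≤ Dm :=
    le_trans (by exact_mod_cast two_pow_omega_le ho.pos.ne') τ1
  set Θ : ℝ := 2 ^ (2 * r) * 2 * (r ^ (2 * r) + 2 * r * 2 ^ (2 * r)) * Dm ^ (42 * r + 2) with hΘ
  have r1 : (1 : ℝ) ≤ r := by exact_mod_cast (by omega : 1 ≤ r)
  have θ1 : 8 * Θ ≤ 2 ^ w := by
    have k1 : (1 : ℝ) ≤ w ^ (42 * r + 2) := one_le_pow₀ (by exact_mod_cast (by omega : 1 ≤ w))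
    have k3 : (1 / 2 : ℝ) ^ w * 2 ^ w = 1 := by rw [← mul_pow]; norm_num
    calc 8 * Θ = 8 * Θ * 1 * ((1 / 2) ^ w * 2 ^ w) := by rw [k3]; ring
      _ ≤ 8 * Θ * w ^ (42 * r + 2) * ((1 / 2) ^ w * 2 ^ w) := by gcongr
      _ = 8 * (2 ^ (2 * r) * 2 * (r ^ (2 * r) + 2 * r * 2 ^ (2 * r))) * w ^ (42 * r + 2) *
          Dm ^ (42 * r + 2) * (1 / 2) ^ w * 2 ^ w := by rw [hΘ]; ring
      _ ≤ 1 * 2 ^ w := by gcongr
      _ = _ := one_mul _
  have θ2 : 8 * Θ * M ^ (2 * r + 1) ≤ B := by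
    calc _ ≤ 2 ^ w * M ^ (2 * r + 1) := by gcongr
      _ ≤ _ := by
        rw [hM, ← pow_mul, ← pow_add]
        exact pow_le_pow_right₀ (by norm_num) (by omega)
  have θ3 : Dm ^ 2 ≤ Θ := by
    have k1 : (1 : ℝ) ≤ 2 ^ (2 * r) := one_le_pow₀ (by norm_num)
    have k2 : (1 : ℝ) ≤ r ^ (2 * r) := one_le_pow₀ r1
    calc Dm ^ 2 = 1 * 1 * (1 + 0) * Dm ^ 2 := by ring
      _ ≤ _ := by
        rw [hΘ]
        gcongr
        · norm_num
        · positivity
        · omega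
  refine burgess (r := r) (A := 2 ^ α) (B := 2 ^ β) (Dm := Dm) ho hs (by omega)
    (le_trans (by omega) Nat.lt_two_pow_self.le) (by push_cast; exact e2.ge) hdB
    (fun v hv => hD v (hv.trans (by
      rw [← pow_add]
      exact Nat.pow_le_pow_right (by norm_num) (by omega)))) ?_ ?_
  · have k1 : (2 : ℝ) ^ w ≤ A := pow_le_pow_right₀ (by norm_num) (by omega)
    have k2 : (4 : ℝ) ^ d.primeFactors.card ≤ Dm ^ 2 := by
      rw [show (4 : ℝ) = 2 ^ 2 by norm_num, ← pow_mul, mul_comm, pow_mul]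
      gcongr
    have k3 : (2 : ℝ) * 4 ^ d.primeFactors.card ≤ 2 ^ α := by nlinarith
    exact_mod_cast k3
  push_cast
  rw [e2, e3, ← hA]
  have τ0 : (0 : ℝ) ≤ d.divisors.card := Nat.cast_nonneg _
  generalize (d.divisors.card : ℝ) = τ at τ0 τ1 ⊢
  clear hw hD sw b1 b2 b3 b5
  have k1 : (40 * r : ℝ) ^ d.primeFactors.card ≤ Dm ^ (40 * r) := by
    have k2 : (40 * r : ℝ) ≤ 2 ^ (40 * r) := by
      exact_mod_cast (Nat.lt_two_pow_self (n := 40 * r)).le
    calc _ ≤ ((2 : ℝ) ^ (40 * r)) ^ d.primeFactors.card := by gcongr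
      _ = (2 ^ d.primeFactors.card) ^ (40 * r) := by rw [← pow_mul, ← pow_mul, mul_comm]
      _ ≤ _ := by gcongr
  have k2 : (1 : ℝ) ≤ Dm ^ (42 * r) := one_le_pow₀ D1
  have k3 : (r : ℝ) ^ (2 * r) + 2 * r * (40 * r) ^ d.primeFactors.card *
      (2 * τ) ^ (2 * r) ≤ (r ^ (2 * r) + 2 * r * 2 ^ (2 * r)) * Dm ^ (42 * r) := by
    calc _ ≤ (r : ℝ) ^ (2 * r) * Dm ^ (42 * r) + 2 * r * Dm ^ (40 * r) * (2 * Dm) ^ (2 * r) := by
          exact add_le_add (le_mul_of_one_le_right (by positivity) k2)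
            (mul_le_mul (mul_le_mul_of_nonneg_left k1 (by positivity))
              (pow_le_pow_left₀ (by positivity) (mul_le_mul_of_nonneg_left τ1 zero_le_two) _)
              (by positivity) (by positivity))
      _ = _ := by
          rw [show 42 * r = 40 * r + 2 * r by ring, pow_add, mul_pow]
          generalize Dm ^ (40 * r) = a
          generalize Dm ^ (2 * r) = b
          ring
  have k4 : √d ≤ B ^ r := by
    rw [Real.sqrt_le_left (by positivity), ← pow_mul, mul_comm r, hB]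
    exact_mod_cast hdB
  have k5 : B ≤ √d := Real.le_sqrt_of_sq_le hd
  have k6 : B ^ (r + 2) ≤ (M * (4 * A * B)) ^ 2 := by
    rw [← e3, hB, ← pow_mul, ← pow_mul]
    exact pow_le_pow_right₀ (by norm_num) b7
  have A0 : 0 < A := by positivity
  generalize hE : 4 * A * B = E at *
  have E0 : 0 < E := by rw [← hE]; positivity
  have k7 : (M * E * A / d + 1) * √d ≤ M * E * A / B + B ^ r := by
    rw [add_mul, one_mul, div_mul_eq_mul_div, mul_div_assoc, Real.sqrt_div_self', mul_one_div]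
    gcongr
  have Θ0 : 0 ≤ Θ := by positivity
  have k8 : Θ * M ^ (2 * r) * (M * E * A / B + B ^ r) < M * E * A := by
    have j0 : 0 < M * E * A := by positivity
    have j1 : Θ * M ^ (2 * r) * (M * E * A / B) ≤ M * E * A / 8 := by
      rw [mul_div_assoc', div_le_div_iff₀ B0 (by norm_num)]
      have : Θ * M ^ (2 * r) * 8 ≤ B := by
        refine le_trans ?_ θ2
        rw [pow_succ]
        nlinarith [mul_nonneg Θ0 (pow_nonneg (by linarith : (0 : ℝ) ≤ M) (2 * r))]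
      nlinarith
    have j2 : Θ * M ^ (2 * r) * B ^ r ≤ M * E * A / 2 := by
      refine le_of_mul_le_mul_left (a := 8 * M * B) ?_ (by positivity)
      calc _ = 8 * Θ * M ^ (2 * r + 1) * B ^ (r + 1) := by ring
        _ ≤ B * B ^ (r + 1) := by gcongr
        _ = B ^ (r + 2) := by ring
        _ ≤ _ := k6.trans (le_of_eq (by rw [sq]; nth_rw 2 [← hE]; ring))
    linarith
  obtain ⟨r, rfl⟩ : ∃ r', r = r' + 1 := ⟨r - 1, by omega⟩
  rw [show 2 * (r + 1) - 1 = 2 * r + 1 by omega]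
  refine lt_of_mul_lt_mul_left (a := M ^ (2 * (r + 1))) ?_ (by positivity)
  calc _ ≤ M ^ (2 * (r + 1)) * (2 ^ (2 * (r + 1)) * (M * E) ^ (2 * r + 1) *
        ((M * E * A / d + 1) * Dm) * (2 * Dm) * ((((r + 1 : ℕ) : ℝ) ^ (2 * (r + 1)) +
          2 * (r + 1 : ℕ) * 2 ^ (2 * (r + 1))) * Dm ^ (42 * (r + 1)) * √d)) :=
        mul_le_mul_of_nonneg_left (mul_le_mul (mul_le_mul_of_nonneg_left
          (mul_le_mul_of_nonneg_left ω1 zero_le_two) (by positivity)) (mul_le_mul_of_nonneg_right k3 (by positivity)) (by positivity)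
          (by positivity)) (by positivity)
    _ = (M * E) ^ (2 * r + 1) * (Θ * M ^ (2 * (r + 1)) * ((M * E * A / d + 1) * √d)) := by
        rw [hΘ, pow_add Dm _ 2]
        generalize Dm ^ (42 * (r + 1)) = a
        generalize M ^ (2 * (r + 1)) = b
        generalize (M * E) ^ (2 * r + 1) = c
        generalize ((r + 1 : ℕ) : ℝ) ^ (2 * (r + 1)) = e
        generalize (2 : ℝ) ^ (2 * (r + 1)) = f
        ring
    _ ≤ (M * E) ^ (2 * r + 1) * (Θ * M ^ (2 * (r + 1)) * (M * E * A / B + B ^ (r + 1))) := by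
        gcongr
    _ < (M * E) ^ (2 * r + 1) * (M * E * A) := by gcongr
    _ = _ := by ring

end Pool.Agent.Lib.MP_90cf6f_nt.Uni
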